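import Pool.Agent.Lib_helper41.Remov.OneBall

set_option autoImplicit false

namespace Pool.Agent.LibHelper41.Remov

open MeasureTheory Metric Set Filter Topology Complex
open scoped ContDiff ComplexConjugate

/-- removability in terms of `WD` -/
def Rem (K : Set ℂ) : Prop :=
  ∀ (u : ℂ → ℝ) (g : ℂ → ℂ), Continuous u → HasCompactSupport u → MemLp g 2 volume →
    WD Kᶜ (fun z => (u z : ℂ)) g → ∃ g', MemLp g' 2 volume ∧ WD univ (fun z => (u z : ℂ)) g'

theorem Rem.wd {K : Set ℂ} (hK : Rem K) (hKc : IsClosed K) (hK0 : volume K = 0)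
    {u : ℂ → ℝ} {g : ℂ → ℂ} (hu : Continuous u) (hc : HasCompactSupport u)
    (hg : MemLp g 2 volume) (hw : WD Kᶜ (fun z => (u z : ℂ)) g) :
    WD univ (fun z => (u z : ℂ)) g := by
  obtain ⟨g', hg', hw'⟩ := hK u g hu hc hg hw
  have h1 := hw.unique hKc.isOpen_compl (hw'.mono (subset_univ _))
    (locallyIntegrable_of_memLp_two hg) (locallyIntegrable_of_memLp_two hg')
  have hKae : ∀ᵐ z : ℂ, z ∉ K := by
    rw [ae_iff]
    simpa using hK0
  refine hw'.congr (fun _ _ => rfl) ?_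
  filter_upwards [h1, hKae] with z h2 h3 _
  exact (h2 h3).symm

/-- data of the iteration -/
structure St where
  F : Set ℂ
  u : ℂ → ℝ
  g : ℂ → ℂ

structure St.Good (E : Set ℂ) (s : St) : Prop where
  closed : IsClosed s.F
  sub : s.F ⊆ E
  cont : Continuous s.u
  memLp : MemLp s.g 2 volume
  wd : WD s.Fᶜ (fun z => (s.u z : ℂ)) s.g

theorem calib_eps {E : Set ℂ} (hE : IsCompact E) (hE0 : volume E = 0) (c : ℕ → ℂ) (ρ : ℕ → ℝ)
    (hρ : ∀ j, 0 ≤ ρ j) (hb : ∀ j, Disjoint (ball (c j) (ρ j)) E)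
    (hrem : ∀ K ⊆ E, IsCompact K → (∀ j, Disjoint K (closedBall (c j) (ρ j))) → Rem K)
    {u : ℂ → ℝ} {g : ℂ → ℂ} (hu : Continuous u) (hc : HasCompactSupport u)
    (hg : MemLp g 2 volume) (hw : WD Eᶜ (fun z => (u z : ℂ)) g) {ε : ℝ} (hε : 0 < ε) :
    ∃ (U : ℂ → ℝ) (G : ℂ → ℂ), Continuous U ∧ MemLp G 2 volume ∧ (∀ z, |U z - u z| ≤ ε) ∧
      eLpNorm (G - g) 2 volume ≤ ENNReal.ofReal (2 * ε) ∧ WD univ (fun z => (U z : ℂ)) G := by
  obtain ⟨R, hR⟩ := hE.isBounded.subset_ball 0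
  have step : ∀ (j : ℕ) (p : {s : St // s.Good E}), ∃ q : {s : St // s.Good E},
      q.1.F ⊆ p.1.F ∧ Disjoint q.1.F (closedBall (c j) (ρ j)) ∧
      (∀ z, |q.1.u z - p.1.u z| ≤ ε / 2 / 2 ^ j) ∧
      eLpNorm (q.1.g - p.1.g) 2 volume ≤ ENNReal.ofReal (ε / 2 / 2 ^ j) ∧
      (∀ z, z ∉ ball (0 : ℂ) R → q.1.u z = p.1.u z) := by
    rintro j ⟨p, hp⟩
    have hp0 : volume p.F = 0 := measure_mono_null hp.sub hE0
    obtain ⟨u', g', V, h1, h2, h3, h4, h5, h6, h7, h8⟩ := one_ball hp.closed hp0 hp.cont hp.memLp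
      hp.wd (hρ j) ((hb j).mono_right hp.sub) isOpen_ball
      (inter_subset_right.trans (hp.sub.trans hR)) (ε := ε / 2 / 2 ^ j) (by positivity)
    refine ⟨⟨⟨p.F \ V, u', g'⟩, ⟨hp.closed.sdiff h3, sdiff_subset.trans hp.sub, h1, h2, h8⟩⟩,
      sdiff_subset, ?_, h5, h6, h7⟩
    rw [Set.disjoint_left]
    rintro z ⟨hz1, hz2⟩ hz3
    exact hz2 (h4 ⟨hz3, hz1⟩)
  choose next hnext using step
  let s : ℕ → {s : St // s.Good E} := fun n =>
    Nat.rec (⟨⟨E, u, g⟩, ⟨hE.isClosed, Subset.rfl, hu, hg, hw⟩⟩ : {s : St // s.Good E})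
      (fun j p => next j p) n
  have hs0 : (s 0).1 = ⟨E, u, g⟩ := rfl
  have hs : ∀ n, s (n + 1) = next n (s n) := fun n => rfl
  have r1 : ∀ n, (s (n + 1)).1.F ⊆ (s n).1.F := fun n => by rw [hs]; exact (hnext n (s n)).1
  have r2 : ∀ n, Disjoint (s (n + 1)).1.F (closedBall (c n) (ρ n)) := fun n => by
    rw [hs]; exact (hnext n (s n)).2.1
  have r3 : ∀ n z, dist ((s n).1.u z) ((s (n + 1)).1.u z) ≤ ε / 2 / 2 ^ n := fun n z => by
    rw [hs, dist_comm, Real.dist_eq]; exact (hnext n (s n)).2.2.1 z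
  have r4 : ∀ n, eLpNorm ((s (n + 1)).1.g - (s n).1.g) 2 volume ≤ ENNReal.ofReal (ε / 2 / 2 ^ n) :=
    fun n => by rw [hs]; exact (hnext n (s n)).2.2.2.1
  have r5 : ∀ n z, z ∉ ball (0 : ℂ) R → (s (n + 1)).1.u z = (s n).1.u z := fun n z hz => by
    rw [hs]; exact (hnext n (s n)).2.2.2.2 z hz
  have hanti : Antitone fun n => (s n).1.F := antitone_nat_of_succ_le r1
  -- limit of the functions
  have hcau : ∀ z, ∃ a, Tendsto (fun n => (s n).1.u z) atTop (𝓝 a) := fun z =>
    cauchySeq_tendsto_of_complete (cauchySeq_of_le_geometric_two (fun n => r3 n z))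
  choose U hU using hcau
  have hUd : ∀ n z, dist ((s n).1.u z) (U z) ≤ ε / 2 ^ n := fun n z =>
    dist_le_of_le_geometric_two_of_tendsto (fun n => r3 n z) (hU z) n
  have hUunif : TendstoUniformly (fun n => (s n).1.u) U atTop := by
    rw [Metric.tendstoUniformly_iff]
    intro δ hδ
    have h1 : Tendsto (fun n : ℕ => ε / 2 ^ n) atTop (𝓝 0) := by
      have := (tendsto_pow_atTop_nhds_zero_of_lt_one (r := (1 / 2 : ℝ)) (by norm_num)
        (by norm_num)).const_mul ε
      simpa [div_eq_mul_inv] using this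
    filter_upwards [h1.eventually (gt_mem_nhds hδ)] with n hn z
    rw [dist_comm]
    exact (hUd n z).trans_lt hn
  have hUc : Continuous U := hUunif.continuous (Frequently.of_forall fun n => (s n).2.cont)
  have hU0 : ∀ z, |U z - u z| ≤ ε := by
    intro z
    have := hUd 0 z
    rw [dist_comm, Real.dist_eq, pow_zero, div_one] at this
    exact this
  have hUout : ∀ z, z ∉ ball (0 : ℂ) R → U z = u z := by
    intro z hz
    have h1 : ∀ n, (s n).1.u z = u z := by
      intro n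
      induction n with
      | zero => rfl
      | succ n ih => rw [r5 n z hz, ih]
    have h2 := hU z
    simp_rw [h1] at h2
    exact (tendsto_nhds_unique h2 tendsto_const_nhds)
  have hUcs : HasCompactSupport U := by
    refine HasCompactSupport.intro
      ((isCompact_closedBall (0 : ℂ) R).union hc.isCompact) fun z hz => ?_
    rw [mem_union, not_or] at hz
    rw [hUout z fun h => hz.1 (ball_subset_closedBall h)]
    exact image_eq_zero_of_notMem_tsupport hz.2
  -- limit of the derivatives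
  set Gq : ℕ → Lp ℂ 2 (volume : Measure ℂ) := fun n => (s n).2.memLp.toLp with hGq
  have hC : ENNReal.ofReal ε ≠ ⊤ := ENNReal.ofReal_ne_top
  have hed : ∀ n, edist (Gq n) (Gq (n + 1)) ≤ ENNReal.ofReal ε / 2 ^ n := by
    intro n
    rw [edist_comm, hGq]
    simp only [Lp.edist_toLp_toLp]
    refine (r4 n).trans ?_
    rw [ENNReal.ofReal_div_of_pos (by positivity), ENNReal.ofReal_pow (by norm_num),
      ENNReal.ofReal_ofNat]
    gcongr
    linarith
  obtain ⟨Gi, hGi⟩ := cauchySeq_tendsto_of_complete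
    (cauchySeq_of_edist_le_geometric_two (ENNReal.ofReal ε) hC hed)
  have hGi0 : edist (Gq 0) Gi ≤ 2 * ENNReal.ofReal ε :=
    edist_le_of_edist_le_geometric_two_of_tendsto₀ (ENNReal.ofReal ε) hed hGi
  set Gf : ℂ → ℂ := fun z => (Gi : ℂ → ℂ) z with hGf
  have hGfL : MemLp Gf 2 volume := Lp.memLp Gi
  have hedlim : ∀ n, edist (Gq n) Gi = eLpNorm ((s n).1.g - Gf) 2 volume := by
    intro n
    rw [Lp.edist_def]
    refine eLpNorm_congr_ae ?_
    exact (MemLp.coeFn_toLp _).sub EventuallyEq.rfl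
  have hGlim : Tendsto (fun n => eLpNorm ((s n).1.g - Gf) 2 volume) atTop (𝓝 0) := by
    have := (tendsto_iff_edist_tendsto_0.1 hGi)
    simp_rw [hedlim] at this
    exact this
  -- the limit set
  set K : Set ℂ := ⋂ n, (s n).1.F with hK
  have hKE : K ⊆ E := (iInter_subset _ 0).trans Subset.rfl
  have hKcl : IsClosed K := isClosed_iInter fun n => (s n).2.closed
  have hKc : IsCompact K := hE.of_isClosed_subset hKcl hKE
  have hKd : ∀ j, Disjoint K (closedBall (c j) (ρ j)) := fun j =>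
    (r2 j).mono_left (iInter_subset _ (j + 1))
  have hwK : WD Kᶜ (fun z => (U z : ℂ)) Gf := by
    intro φ h1 h2 h3
    have hemp : tsupport φ ∩ ⋂ n, (s n).1.F = ∅ := by
      rw [← hK, ← disjoint_iff_inter_eq_empty, ← subset_compl_iff_disjoint_right]
      exact h3
    obtain ⟨N, hN⟩ := h2.isCompact.elim_directed_family_closed
      (fun n => (s n).1.F) (fun n => (s n).2.closed) hemp hanti.directed_ge
    have hN' : ∀ n ≥ N, tsupport φ ⊆ ((s n).1.F)ᶜ := by
      intro n hn z hz hzF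
      have : z ∈ tsupport φ ∩ (s N).1.F := ⟨hz, hanti hn hzF⟩
      rw [hN] at this
      exact this
    refine WD_limit h1 h2 (un := fun n z => ((s n).1.u z : ℂ)) (gn := fun n => (s n).1.g)
      (fun n => continuous_ofReal.comp (s n).2.cont) (continuous_ofReal.comp hUc)
      (fun n => (s n).2.memLp) hGfL ?_ hGlim ?_
    · rw [Metric.tendstoUniformly_iff] at hUunif ⊢
      intro δ hδ
      filter_upwards [hUunif δ hδ] with n hn z
      rw [Complex.dist_eq, ← ofReal_sub, norm_real]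
      exact hn z
    · filter_upwards [eventually_ge_atTop N] with n hn
      exact (s n).2.wd φ h1 h2 (hN' n hn)
  have hK0 : volume K = 0 := measure_mono_null hKE hE0
  refine ⟨U, Gf, hUc, hGfL, hU0, ?_, (hrem K hKE hKc hKd).wd hKcl hK0 hUc hUcs
    hGfL hwK⟩
  have h9 : eLpNorm (Gf - g) 2 volume = edist (Gq 0) Gi := by
    rw [hedlim, eLpNorm_sub_comm]
    rfl
  rw [h9, ENNReal.ofReal_mul (by norm_num), ENNReal.ofReal_ofNat]
  exact hGi0

/-- Calibration: a compact null set is removable as soon as its compact subsets avoiding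
countably many closed balls (with interiors disjoint from the set) are removable. -/
theorem calib {E : Set ℂ} (hE : IsCompact E) (hE0 : volume E = 0) (c : ℕ → ℂ) (ρ : ℕ → ℝ)
    (hρ : ∀ j, 0 ≤ ρ j) (hb : ∀ j, Disjoint (ball (c j) (ρ j)) E)
    (hrem : ∀ K ⊆ E, IsCompact K → (∀ j, Disjoint K (closedBall (c j) (ρ j))) → Rem K) :
    Rem E := by
  intro u g hu hc hg hw
  refine ⟨g, hg, ?_⟩
  intro φ h1 h2 _
  have key : ∀ n : ℕ, ∃ (U : ℂ → ℝ) (G : ℂ → ℂ), Continuous U ∧ MemLp G 2 volume ∧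
      (∀ z, |U z - u z| ≤ 1 / ((n : ℝ) + 1)) ∧
      eLpNorm (G - g) 2 volume ≤ ENNReal.ofReal (2 * (1 / ((n : ℝ) + 1))) ∧
      WD univ (fun z => (U z : ℂ)) G := fun n =>
    calib_eps hE hE0 c ρ hρ hb hrem hu hc hg hw (by positivity)
  choose U G k1 k2 k3 k4 k5 using key
  have hdt : Tendsto (fun n : ℕ => 1 / ((n : ℝ) + 1)) atTop (𝓝 0) :=
    tendsto_one_div_add_atTop_nhds_zero_nat
  refine WD_limit h1 h2 (un := fun n z => (U n z : ℂ)) (gn := G)
    (fun n => continuous_ofReal.comp (k1 n)) (continuous_ofReal.comp hu) k2 hg ?_ ?_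
    (Eventually.of_forall fun n => k5 n φ h1 h2 (subset_univ _))
  · rw [Metric.tendstoUniformly_iff]
    intro δ hδ
    filter_upwards [hdt.eventually (gt_mem_nhds hδ)] with n hn z
    rw [dist_comm, Complex.dist_eq, ← ofReal_sub, norm_real]
    exact (k3 n z).trans_lt hn
  · have h0 : Tendsto (fun n : ℕ => ENNReal.ofReal (2 * (1 / ((n : ℝ) + 1)))) atTop (𝓝 0) := by
      have := ENNReal.tendsto_ofReal (hdt.const_mul 2)
      simpa using this
    exact tendsto_of_tendsto_of_tendsto_of_le_of_le tendsto_const_nhds h0 (fun _ => zero_le) k4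

end Pool.Agent.LibHelper41.Remov
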