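import Pool.Agent.Lib_helper41.Remov.Homeo

set_option autoImplicit false

namespace Pool.Agent.LibHelper41.Remov

open MeasureTheory Metric Set Filter Topology Complex
open scoped ContDiff ComplexConjugate

theorem Rem.mono {K D : Set ℂ} (hD : Rem D) (h : K ⊆ D) : Rem K :=
  fun u g h1 h2 h3 h4 => hD u g h1 h2 h3 (h4.mono (compl_subset_compl.2 h))

theorem rem_empty : Rem ∅ := fun _ g _ _ h3 h4 => ⟨g, h3, by rwa [compl_empty] at h4⟩

theorem calib' {ι : Type*} [Countable ι] {E : Set ℂ} (hE : IsCompact E) (hE0 : volume E = 0)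
    (c : ι → ℂ) (ρ : ι → ℝ) (hρ : ∀ j, 0 ≤ ρ j) (hb : ∀ j, Disjoint (ball (c j) (ρ j)) E)
    (hrem : ∀ K ⊆ E, IsCompact K → (∀ j, Disjoint K (closedBall (c j) (ρ j))) → Rem K) :
    Rem E := by
  rcases isEmpty_or_nonempty ι with h | h
  · exact hrem E Subset.rfl hE fun j => (h.false j).elim
  · obtain ⟨e, he⟩ := exists_surjective_nat ι
    refine calib hE hE0 (fun n => c (e n)) (fun n => ρ (e n)) (fun n => hρ _) (fun n => hb _)
      fun K hKE hK hd => hrem K hKE hK fun j => ?_
    obtain ⟨n, rfl⟩ := he j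
    exact hd n

/-- compact sets of point components -/
theorem point_rem {Ω : Set ℂ} 
    (hK : ∀ K ⊆ frontier Ω, K.Nonempty → IsCompact K → Perfect K → IsTotallyDisconnected K →
      (∀ x ∈ K, connectedComponentIn Ωᶜ x = {x}) → Rem K)
    (hpos : ∀ K, IsCompact K → Rem K → volume K = 0) (hΩ : IsOpen Ω)
    {K : Set ℂ} (hKf : K ⊆ frontier Ω) (hKc : IsCompact K)
    (hKp : ∀ x ∈ K, connectedComponentIn Ωᶜ x = {x}) : volume K = 0 ∧ Rem K := by
  have hfc : frontier Ω ⊆ Ωᶜ := fun x hx hxΩ => by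
    rw [hΩ.frontier_eq] at hx
    exact hx.2 hxΩ
  have htd : ∀ D ⊆ K, IsTotallyDisconnected D := by
    intro D hDK t htD ht x hx y hy
    have h1 := ht.subset_connectedComponentIn hx (htD.trans (hDK.trans (hKf.trans hfc)))
    have h2 := h1 hy
    rw [hKp x (hDK (htD hx))] at h2
    exact h2.symm
  obtain ⟨V, D, hV, hD, hVD⟩ := exists_countable_union_perfect_of_isClosed hKc.isClosed
  have hDK : D ⊆ K := by rw [hVD]; exact subset_union_right
  have hDc : IsCompact D := hKc.of_isClosed_subset hD.closed hDK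
  have hRD : Rem D := by
    rcases D.eq_empty_or_nonempty with h | h
    · rw [h]; exact rem_empty
    · exact hK D (hDK.trans hKf) h hDc hD (htd D hDK) fun x hx => hKp x (hDK hx)
  have hK0 : volume K = 0 := by
    rw [hVD]
    exact measure_union_null (hV.measure_zero _) (hpos D hDc hRD)
  refine ⟨hK0, ?_⟩
  have : Countable V := hV.to_subtype
  refine calib' hKc hK0 (fun v : V => (v : ℂ)) (fun _ => 0) (fun _ => le_rfl) (fun _ => ?_) ?_
  · rw [ball_zero]
    exact disjoint_bot_left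
  · intro K' hK' _ hd
    refine hRD.mono fun x hx => ?_
    have h1 := hK' hx
    rw [hVD] at h1
    rcases h1 with h1 | h1
    · have h2 := hd ⟨x, h1⟩
      exact absurd (mem_closedBall_self le_rfl) (Set.disjoint_left.1 h2 hx)
    · exact h1

/-- the nondegenerate components -/
def Balls (Ω : Set ℂ) : Set (Set ℂ) :=
  {B | ∃ x ∈ Ωᶜ, connectedComponentIn Ωᶜ x = B ∧ ∃ c : ℂ, ∃ r : ℝ, 0 < r ∧ B = closedBall c r}

theorem balls_countable (Ω : Set ℂ) : (Balls Ω).Countable := by
  refine Set.PairwiseDisjoint.countable_of_isOpen (s := fun B => interior B) ?_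
    (fun _ _ => isOpen_interior) ?_
  · rintro A ⟨x, hx, hA, -⟩ B ⟨y, hy, hB, -⟩ hAB
    rw [Function.onFun, Set.disjoint_left]
    intro z hzA hzB
    refine hAB ?_
    have h1 := interior_subset hzA
    have h2 := interior_subset hzB
    rw [← hA] at h1
    rw [← hB] at h2
    rw [← hA, ← hB, connectedComponentIn_eq h1, connectedComponentIn_eq h2]
  · rintro B ⟨x, hx, hB, c, r, hr, rfl⟩
    exact ⟨c, ball_subset_interior_closedBall (mem_ball_self hr)⟩

theorem circle_rem {Ω : Set ℂ} (hΩ : IsOpen Ω) (hb : Bornology.IsBounded Ωᶜ)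
    (hc : ∀ x ∈ Ωᶜ, connectedComponentIn Ωᶜ x = {x} ∨
        ∃ c : ℂ, ∃ r : ℝ, 0 < r ∧ connectedComponentIn Ωᶜ x = closedBall c r)
    (hK : ∀ K ⊆ frontier Ω, K.Nonempty → IsCompact K → Perfect K → IsTotallyDisconnected K →
      (∀ x ∈ K, connectedComponentIn Ωᶜ x = {x}) → Rem K)
    (hpos : ∀ K, IsCompact K → Rem K → volume K = 0) :
    IsCompact (frontier Ω) ∧ volume (frontier Ω) = 0 ∧ Rem (frontier Ω) := by
  have hfc : frontier Ω ⊆ Ωᶜ := fun x hx hxΩ => by
    rw [hΩ.frontier_eq] at hx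
    exact hx.2 hxΩ
  have hE : IsCompact (frontier Ω) := Metric.isCompact_of_isClosed_isBounded isClosed_frontier
    (hb.subset hfc)
  have : Countable (Balls Ω) := (balls_countable Ω).to_subtype
  have hch : ∀ B : Balls Ω, ∃ c : ℂ, ∃ r : ℝ, 0 < r ∧ (B : Set ℂ) = closedBall c r := by
    rintro ⟨B, x, hx, hB, c, r, hr, h⟩
    exact ⟨c, r, hr, h⟩
  choose c r hr hB using hch
  have hdis : ∀ B : Balls Ω, Disjoint (ball (c B) (r B)) (frontier Ω) := by
    intro B
    have hBΩ : ball (c B) (r B) ⊆ Ωᶜ := by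
      refine ball_subset_closedBall.trans ?_
      rw [← hB B]
      obtain ⟨x, hx, hxB, -⟩ := B.2
      rw [← hxB]
      exact connectedComponentIn_subset _ _
    rw [Set.disjoint_left]
    intro z hz hzf
    have h1 : z ∈ closure Ω := frontier_subset_closure hzf
    obtain ⟨y, hy1, hy2⟩ := mem_closure_iff.1 h1 _ isOpen_ball hz
    exact hBΩ hy1 hy2
  have hpt : ∀ K ⊆ frontier Ω, (∀ B : Balls Ω, Disjoint K (closedBall (c B) (r B))) →
      ∀ x ∈ K, connectedComponentIn Ωᶜ x = {x} := by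
    intro K hKf hKd x hx
    rcases hc x (hfc (hKf hx)) with h | ⟨a, s, hs, h⟩
    · exact h
    · have hmem : connectedComponentIn Ωᶜ x ∈ Balls Ω := ⟨x, hfc (hKf hx), rfl, a, s, hs, h⟩
      have h1 := hKd ⟨_, hmem⟩
      rw [← hB ⟨_, hmem⟩] at h1
      exact absurd (mem_connectedComponentIn (hfc (hKf hx))) (Set.disjoint_left.1 h1 hx)
  have h0 : volume (frontier Ω) = 0 := by
    have hU : MeasurableSet (⋃ B : Balls Ω, closedBall (c B) (r B)) :=
      MeasurableSet.iUnion fun B => isClosed_closedBall.measurableSet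
    have h1 : volume (frontier Ω ∩ ⋃ B : Balls Ω, closedBall (c B) (r B)) = 0 := by
      rw [inter_iUnion]
      refine measure_iUnion_null fun B => ?_
      refine measure_mono_null ?_ (Measure.addHaar_sphere volume (c B) (r B))
      rintro z ⟨hz1, hz2⟩
      have h2 : z ∉ ball (c B) (r B) := fun h => Set.disjoint_left.1 (hdis B) h hz1
      rw [mem_ball, not_lt] at h2
      exact le_antisymm hz2 h2
    have h2 : volume (frontier Ω \ ⋃ B : Balls Ω, closedBall (c B) (r B)) = 0 := by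
      by_contra hne
      have hms : MeasurableSet (frontier Ω \ ⋃ B : Balls Ω, closedBall (c B) (r B)) :=
        isClosed_frontier.measurableSet.diff hU
      obtain ⟨K, hKs, hKc, hKpos⟩ := hms.exists_lt_isCompact (μ := volume) (pos_iff_ne_zero.2 hne)
      have hKf : K ⊆ frontier Ω := hKs.trans sdiff_subset
      have hKd : ∀ B : Balls Ω, Disjoint K (closedBall (c B) (r B)) := by
        intro B
        rw [Set.disjoint_left]
        intro z hz hzB
        exact (hKs hz).2 (mem_iUnion.2 ⟨B, hzB⟩)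
      exact hKpos.ne' (point_rem hK hpos hΩ hKf hKc (hpt K hKf hKd)).1
    rw [← inter_union_sdiff (frontier Ω) (⋃ B : Balls Ω, closedBall (c B) (r B))]
    exact measure_union_null h1 h2
  refine ⟨hE, h0, calib' hE h0 c r (fun B => (hr B).le) hdis fun K hKf hKc hKd => ?_⟩
  exact (point_rem hK hpos hΩ hKf hKc (hpt K hKf hKd)).2

end Pool.Agent.LibHelper41.Remov
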