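import Pool.Agent.Lib_helper41.Remov.Moll

set_option autoImplicit false

namespace Pool.Agent.LibHelper41.Remov

open MeasureTheory Metric Set Filter Topology Complex
open scoped ContDiff Convolution

/-- chain rule -/
theorem WD.comp_real {U : Set ℂ} {w : ℂ → ℝ} {g : ℂ → ℂ} {ψ ψ' : ℝ → ℝ}
    (hw : WD U (fun z => (w z : ℂ)) g) (hU : IsOpen U) (hwc : Continuous w)
    (hg : LocallyIntegrable g)
    (hψ : ∀ t, HasDerivAt ψ (ψ' t) t) (hψ' : Continuous ψ') {C : ℝ} (hC : ∀ t, |ψ' t| ≤ C) :
    WD U (fun z => (ψ (w z) : ℂ)) (fun z => (ψ' (w z) : ℂ) * g z) := by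
  intro φ h1 h2 h3
  obtain ⟨R, hR⟩ := h2.isCompact.isBounded.subset_ball 0
  have hgi : Integrable ((ball (0 : ℂ) R).indicator g) := by
    rw [integrable_indicator_iff measurableSet_ball]
    exact (hg.integrableOn_isCompact (isCompact_closedBall 0 R)).mono_set ball_subset_closedBall
  have hw' : WD (U ∩ ball 0 R) (fun z => (w z : ℂ)) ((ball (0 : ℂ) R).indicator g) :=
    (hw.mono inter_subset_left).congr (fun _ _ => rfl)
      (Eventually.of_forall fun z hz => by rw [indicator_of_mem hz.2])
  have key := hw'.comp_aux (hU.inter isOpen_ball) hwc hgi hψ hψ' hC φ h1 h2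
    (subset_inter h3 hR)
  rw [key]
  congr 1
  refine integral_congr_ae (Eventually.of_forall fun z => ?_)
  by_cases hz : z ∈ tsupport φ
  · simp only [indicator_of_mem (hR hz)]
  · simp only [image_eq_zero_of_notMem_tsupport hz, mul_zero]

/-- clamp to `[-η, η]` -/
noncomputable def cl (η t : ℝ) : ℝ := (|t + η| - |t - η|) / 2

/-- derivative of the clamp -/
noncomputable def clD (η t : ℝ) : ℝ := (Real.sign (t + η) - Real.sign (t - η)) / 2

theorem cl_continuous (η : ℝ) : Continuous (cl η) := by
  unfold cl
  fun_prop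

theorem abs_cl_le {η : ℝ} (hη : 0 ≤ η) (t : ℝ) : |cl η t| ≤ η := by
  unfold cl
  have h1 := abs_abs_sub_abs_le_abs_sub (t + η) (t - η)
  have h2 : |t + η - (t - η)| = 2 * η := by
    rw [show t + η - (t - η) = 2 * η by ring, abs_of_nonneg (by linarith)]
  rw [abs_div, abs_of_pos (by norm_num : (0 : ℝ) < 2)]
  linarith

theorem cl_of_le {η t : ℝ} (h : |t| ≤ η) : cl η t = t := by
  have h1 := abs_le.1 h
  unfold cl
  rw [abs_of_nonneg (by linarith : 0 ≤ t + η), abs_of_nonpos (by linarith : t - η ≤ 0)]
  ring

theorem clD_of_lt {η t : ℝ} (h : |t| < η) : clD η t = 1 := by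
  have h1 := abs_lt.1 h
  unfold clD
  rw [Real.sign_of_pos (by linarith), Real.sign_of_neg (by linarith)]
  norm_num

theorem clD_of_gt {η t : ℝ} (hη : 0 ≤ η) (h : η < |t|) : clD η t = 0 := by
  unfold clD
  rcases le_or_gt 0 t with ht | ht
  · rw [abs_of_nonneg ht] at h
    rw [Real.sign_of_pos (by linarith), Real.sign_of_pos (by linarith)]
    norm_num
  · rw [abs_of_neg ht] at h
    rw [Real.sign_of_neg (by linarith), Real.sign_of_neg (by linarith)]
    norm_num

theorem abs_sign_le (t : ℝ) : |Real.sign t| ≤ 1 := by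
  rcases Real.sign_apply_eq t with h | h | h <;> rw [h] <;> norm_num

theorem abs_clD_le (η t : ℝ) : |clD η t| ≤ 1 := by
  unfold clD
  rw [abs_div, abs_of_pos (by norm_num : (0 : ℝ) < 2)]
  have h := abs_sub (Real.sign (t + η)) (Real.sign (t - η))
  have h1 := abs_sign_le (t + η)
  have h2 := abs_sign_le (t - η)
  linarith

theorem measurable_sign : Measurable Real.sign := by
  unfold Real.sign
  exact Measurable.ite measurableSet_Iio measurable_const
    (Measurable.ite measurableSet_Ioi measurable_const measurable_const)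

theorem measurable_clD (η : ℝ) : Measurable (clD η) := by
  unfold clD
  exact ((measurable_sign.comp (measurable_id.add_const η)).sub
    (measurable_sign.comp (measurable_id.sub_const η))).div_const 2

/-- smooth absolute value -/
noncomputable def sa (δ x : ℝ) : ℝ := Real.sqrt (x ^ 2 + δ ^ 2)

theorem sa_pos {δ : ℝ} (hδ : 0 < δ) (x : ℝ) : 0 < sa δ x := Real.sqrt_pos.2 (by positivity)

theorem sa_hasDerivAt {δ : ℝ} (hδ : 0 < δ) (x : ℝ) : HasDerivAt (sa δ) (x / sa δ x) x := by
  have h1 : HasDerivAt (fun x : ℝ => x ^ 2 + δ ^ 2) (2 * x) x := by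
    simpa using (hasDerivAt_pow 2 x).add_const (δ ^ 2)
  have h2 := h1.sqrt (by positivity)
  refine h2.congr_deriv ?_
  unfold sa
  have : Real.sqrt (x ^ 2 + δ ^ 2) ≠ 0 := (sa_pos hδ x).ne'
  field_simp

theorem abs_le_sa {δ : ℝ} (x : ℝ) : |x| ≤ sa δ x := by
  unfold sa
  rw [← Real.sqrt_sq_eq_abs]
  exact Real.sqrt_le_sqrt (by nlinarith [sq_nonneg δ])

theorem sa_le {δ : ℝ} (hδ : 0 ≤ δ) (x : ℝ) : sa δ x ≤ |x| + δ := by
  unfold sa
  rw [Real.sqrt_le_left (by positivity)]
  have := sq_abs x
  nlinarith [abs_nonneg x]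

theorem abs_div_sa_le {δ : ℝ} (hδ : 0 < δ) (x : ℝ) : |x / sa δ x| ≤ 1 := by
  rw [abs_div, abs_of_pos (sa_pos hδ x), div_le_one (sa_pos hδ x)]
  exact abs_le_sa x

theorem div_sa_tendsto (x : ℝ) :
    Tendsto (fun n : ℕ => x / sa (1 / ((n : ℝ) + 1)) x) atTop (𝓝 (Real.sign x)) := by
  have h0 : Tendsto (fun n : ℕ => 1 / ((n : ℝ) + 1)) atTop (𝓝 0) :=
    tendsto_one_div_add_atTop_nhds_zero_nat
  have h1 : Tendsto (fun n : ℕ => sa (1 / ((n : ℝ) + 1)) x) atTop (𝓝 |x|) := by
    have h2 : Tendsto (fun n : ℕ => Real.sqrt (x ^ 2 + (1 / ((n : ℝ) + 1)) ^ 2)) atTop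
        (𝓝 (Real.sqrt (x ^ 2 + 0 ^ 2))) :=
      ((h0.pow 2).const_add (x ^ 2)).sqrt
    rw [zero_pow two_ne_zero, add_zero, Real.sqrt_sq_eq_abs] at h2
    exact h2
  rcases lt_trichotomy x 0 with hx | hx | hx
  · have h3 := (tendsto_const_nhds (x := x)).div h1 (abs_ne_zero.2 hx.ne)
    rw [abs_of_neg hx] at h3
    rw [Real.sign_of_neg hx]
    have e : x / -x = -1 := by
      rw [div_neg, div_self hx.ne]
    rwa [e] at h3
  · subst hx
    rw [Real.sign_zero]
    simp
  · have h3 := (tendsto_const_nhds (x := x)).div h1 (abs_ne_zero.2 hx.ne')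
    rw [abs_of_pos hx, div_self hx.ne'] at h3
    rwa [Real.sign_of_pos hx]

/-- chain rule for the clamp -/
theorem WD.clamp {U : Set ℂ} {w : ℂ → ℝ} {g : ℂ → ℂ} 
    (hw : WD U (fun z => (w z : ℂ)) g) (hU : IsOpen U) (hwc : Continuous w)
    (hg : LocallyIntegrable g) (η : ℝ) :
    WD U (fun z => (cl η (w z) : ℂ)) (fun z => (clD η (w z) : ℂ) * g z) := by
  intro φ h1 h2 h3
  have h1' : ContDiff ℝ 1 φ := h1.of_le (by exact_mod_cast le_top)
  set d : ℕ → ℝ := fun n => 1 / ((n : ℝ) + 1) with hd
  have hd0 : ∀ n, 0 < d n := fun n => by positivity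
  have hdt : Tendsto d atTop (𝓝 0) := tendsto_one_div_add_atTop_nhds_zero_nat
  set ψ : ℕ → ℝ → ℝ := fun n t => (sa (d n) (t + η) - sa (d n) (t - η)) / 2 with hψ
  set ψ' : ℕ → ℝ → ℝ := fun n t => ((t + η) / sa (d n) (t + η) - (t - η) / sa (d n) (t - η)) / 2
    with hψ'
  have hder : ∀ n t, HasDerivAt (ψ n) (ψ' n t) t := by
    intro n t
    have a1 : HasDerivAt (fun t => sa (d n) (t + η)) ((t + η) / sa (d n) (t + η)) t := by
      have := (sa_hasDerivAt (hd0 n) (t + η)).comp t ((hasDerivAt_id t).add_const η)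
      simpa [Function.comp_def] using this
    have a2 : HasDerivAt (fun t => sa (d n) (t - η)) ((t - η) / sa (d n) (t - η)) t := by
      have := (sa_hasDerivAt (hd0 n) (t - η)).comp t ((hasDerivAt_id t).sub_const η)
      simpa [Function.comp_def] using this
    exact (a1.sub a2).div_const 2
  have hsac : ∀ n, Continuous (sa (d n)) := fun n => by
    unfold sa
    fun_prop
  have hcont : ∀ n, Continuous (ψ' n) := by
    intro n
    have c1 := hsac n
    have c2 : ∀ x, sa (d n) x ≠ 0 := fun x => (sa_pos (hd0 n) x).ne'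
    rw [hψ']
    refine Continuous.div_const ?_ 2
    refine Continuous.sub ?_ ?_
    · exact (continuous_id.add continuous_const).div (c1.comp (continuous_id.add continuous_const))
        fun x => c2 _
    · exact (continuous_id.sub continuous_const).div (c1.comp (continuous_id.sub continuous_const))
        fun x => c2 _
  have hbd : ∀ n t, |ψ' n t| ≤ 1 := by
    intro n t
    simp only [hψ']
    rw [abs_div, abs_of_pos (by norm_num : (0 : ℝ) < 2)]
    have a0 := abs_sub ((t + η) / sa (d n) (t + η)) ((t - η) / sa (d n) (t - η))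
    have a1 := abs_div_sa_le (hd0 n) (t + η)
    have a2 := abs_div_sa_le (hd0 n) (t - η)
    linarith
  have hid : ∀ n, ∫ z, (ψ n (w z) : ℂ) * dbar φ z = - ∫ z, (ψ' n (w z) : ℂ) * g z * φ z :=
    fun n => hw.comp_real hU hwc hg (hder n) (hcont n) (hbd n) φ h1 h2 h3
  have hdist : ∀ n t, |ψ n t - cl η t| ≤ d n := by
    intro n t
    simp only [hψ, cl]
    have b1 := @abs_le_sa (d n) (t + η)
    have b2 := sa_le (hd0 n).le (t + η)
    have b3 := @abs_le_sa (d n) (t - η)
    have b4 := sa_le (hd0 n).le (t - η)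
    rw [abs_le]
    constructor <;> linarith
  have hdi : Integrable (dbar φ) :=
    (continuous_dbar h1').integrable_of_hasCompactSupport (hasCompactSupport_dbar h2)
  have l1 : Tendsto (fun n => ∫ z, (ψ n (w z) : ℂ) * dbar φ z) atTop
      (𝓝 (∫ z, (cl η (w z) : ℂ) * dbar φ z)) := by
    refine tendsto_integral_of_dominated_convergence
      (fun z => (|η| + 1) * ‖dbar φ z‖) ?_ (hdi.norm.const_mul _) ?_ ?_
    · intro n
      have c1 : Continuous (ψ n) :=
        continuous_iff_continuousAt.2 fun t => (hder n t).continuousAt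
      exact ((continuous_ofReal.comp (c1.comp hwc)).mul
        (continuous_dbar h1')).aestronglyMeasurable
    · intro n
      refine Eventually.of_forall fun z => ?_
      rw [norm_mul, norm_real, Real.norm_eq_abs]
      refine mul_le_mul_of_nonneg_right ?_ (norm_nonneg _)
      have b1 := hdist n (w z)
      have b2 : |cl η (w z)| ≤ |η| := by
        unfold cl
        have h1 := abs_abs_sub_abs_le_abs_sub (w z + η) (w z - η)
        rw [show w z + η - (w z - η) = 2 * η by ring, abs_mul, abs_two] at h1
        rw [abs_div, abs_two]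
        linarith
      have b3 : d n ≤ 1 := by
        simp only [hd]
        rw [div_le_one (by positivity)]
        have : (0 : ℝ) ≤ n := Nat.cast_nonneg n
        linarith
      have b4 := abs_sub_abs_le_abs_sub (ψ n (w z)) (cl η (w z))
      linarith
    · refine Eventually.of_forall fun z => ?_
      refine Tendsto.mul_const _ ?_
      refine (continuous_ofReal.tendsto _).comp ?_
      rw [tendsto_iff_dist_tendsto_zero]
      refine squeeze_zero (fun _ => dist_nonneg) (fun n => ?_) hdt
      rw [Real.dist_eq]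
      exact hdist n (w z)
  have l2 : Tendsto (fun n => ∫ z, (ψ' n (w z) : ℂ) * g z * φ z) atTop
      (𝓝 (∫ z, (clD η (w z) : ℂ) * g z * φ z)) := by
    have hgi : Integrable (fun z => g z * φ z) :=
      integrable_mul_of_compactSupport hg h1.continuous h2
    refine tendsto_integral_of_dominated_convergence
      (fun z => ‖g z * φ z‖) ?_ hgi.norm ?_ ?_
    · intro n
      have : (fun z => (ψ' n (w z) : ℂ) * g z * φ z) = fun z => (ψ' n (w z) : ℂ) * (g z * φ z) := by
        ext z
        ring
      rw [this]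
      exact (continuous_ofReal.comp ((hcont n).comp hwc)).aestronglyMeasurable.mul
        hgi.aestronglyMeasurable
    · intro n
      refine Eventually.of_forall fun z => ?_
      rw [mul_assoc, norm_mul, norm_real]
      exact mul_le_of_le_one_left (norm_nonneg _) (hbd n _)
    · refine Eventually.of_forall fun z => ?_
      refine (Tendsto.mul_const _ ?_).mul_const _
      refine (continuous_ofReal.tendsto _).comp ?_
      exact ((div_sa_tendsto (w z + η)).sub (div_sa_tendsto (w z - η))).div_const 2
  simp_rw [hid] at l1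
  exact tendsto_nhds_unique l1 l2.neg

/-- the weak derivative vanishes almost everywhere on the zero set -/
theorem WD.ae_zero {U : Set ℂ} {w : ℂ → ℝ} {g : ℂ → ℂ} 
    (hw : WD U (fun z => (w z : ℂ)) g) (hU : IsOpen U) (hwc : Continuous w)
    (hg : LocallyIntegrable g) : ∀ᵐ z, z ∈ U → w z = 0 → g z = 0 := by
  have key : WD U (fun _ => 0) (fun z => {z | w z = 0}.indicator g z) := by
    intro φ h1 h2 h3
    have h1' : ContDiff ℝ 1 φ := h1.of_le (by exact_mod_cast le_top)
    set d : ℕ → ℝ := fun n => 1 / ((n : ℝ) + 1) with hd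
    have hd0 : ∀ n, 0 < d n := fun n => by positivity
    have hdt : Tendsto d atTop (𝓝 0) := tendsto_one_div_add_atTop_nhds_zero_nat
    have hid : ∀ n, ∫ z, (cl (d n) (w z) : ℂ) * dbar φ z =
        - ∫ z, (clD (d n) (w z) : ℂ) * g z * φ z :=
      fun n => hw.clamp hU hwc hg (d n) φ h1 h2 h3
    have hdi : Integrable (dbar φ) :=
      (continuous_dbar h1').integrable_of_hasCompactSupport (hasCompactSupport_dbar h2)
    have hd1 : ∀ n, d n ≤ 1 := by
      intro n
      simp only [hd]
      rw [div_le_one (by positivity)]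
      have : (0 : ℝ) ≤ n := Nat.cast_nonneg n
      linarith
    have l1 : Tendsto (fun n => ∫ z, (cl (d n) (w z) : ℂ) * dbar φ z) atTop
        (𝓝 (∫ z, (0 : ℂ) * dbar φ z)) := by
      refine tendsto_integral_of_dominated_convergence
        (fun z => ‖dbar φ z‖) ?_ hdi.norm ?_ ?_
      · intro n
        exact ((continuous_ofReal.comp ((cl_continuous _).comp hwc)).mul
          (continuous_dbar h1')).aestronglyMeasurable
      · intro n
        refine Eventually.of_forall fun z => ?_
        rw [norm_mul, norm_real, Real.norm_eq_abs]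
        exact mul_le_of_le_one_left (norm_nonneg _) ((abs_cl_le (hd0 n).le _).trans (hd1 n))
      · refine Eventually.of_forall fun z => ?_
        refine Tendsto.mul_const _ ?_
        have : Tendsto (fun n => cl (d n) (w z)) atTop (𝓝 0) := by
          rw [tendsto_iff_dist_tendsto_zero]
          refine squeeze_zero (fun _ => dist_nonneg) (fun n => ?_) hdt
          rw [Real.dist_eq, sub_zero]
          exact abs_cl_le (hd0 n).le _
        have h0 := (continuous_ofReal.tendsto (0 : ℝ)).comp this
        simpa [Function.comp_def] using h0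
    have l2 : Tendsto (fun n => ∫ z, (clD (d n) (w z) : ℂ) * g z * φ z) atTop
        (𝓝 (∫ z, {z | w z = 0}.indicator g z * φ z)) := by
      have hgi : Integrable (fun z => g z * φ z) :=
        integrable_mul_of_compactSupport hg h1.continuous h2
      refine tendsto_integral_of_dominated_convergence
        (fun z => ‖g z * φ z‖) ?_ hgi.norm ?_ ?_
      · intro n
        have : (fun z => (clD (d n) (w z) : ℂ) * g z * φ z) =
            fun z => (clD (d n) (w z) : ℂ) * (g z * φ z) := by
          ext z
          ring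
        rw [this]
        refine AEStronglyMeasurable.mul ?_ hgi.aestronglyMeasurable
        exact (measurable_ofReal.comp ((measurable_clD _).comp hwc.measurable)).aestronglyMeasurable
      · intro n
        refine Eventually.of_forall fun z => ?_
        rw [mul_assoc, norm_mul, norm_real]
        exact mul_le_of_le_one_left (norm_nonneg _) (abs_clD_le _ _)
      · refine Eventually.of_forall fun z => ?_
        refine Tendsto.mul_const _ ?_
        by_cases hz : w z = 0
        · rw [indicator_of_mem (show z ∈ {z | w z = 0} from hz)]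
          refine tendsto_const_nhds.congr fun n => ?_
          rw [hz, clD_of_lt (by rw [abs_zero]; exact hd0 n)]
          simp
        · rw [indicator_of_notMem (show z ∉ {z | w z = 0} from hz)]
          refine tendsto_const_nhds.congr' ?_
          filter_upwards [hdt.eventually (gt_mem_nhds (abs_pos.2 hz))] with n hn
          rw [clD_of_gt (hd0 n).le hn]
          simp
    simp_rw [hid] at l1
    exact tendsto_nhds_unique l1 l2.neg
  have h0 : WD U (fun _ => 0) (fun _ => 0) := by
    intro φ _ _ _
    simp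
  have hms : MeasurableSet {z | w z = 0} := (isClosed_singleton.preimage hwc).measurableSet
  have hi : LocallyIntegrable (fun z => {z | w z = 0}.indicator g z) := hg.indicator hms
  have h1 := key.unique hU h0 hi (locallyIntegrable_zero)
  filter_upwards [h1] with z hz hzU hz0
  have := hz hzU
  rwa [indicator_of_mem (show z ∈ {z | w z = 0} from hz0)] at this

end Pool.Agent.LibHelper41.Remov
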