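import Pool.Agent.Lib_helper41.Remov.PosArea2

set_option autoImplicit false

namespace Pool.Agent.LibHelper41.Remov

open MeasureTheory Metric Set Filter Topology Complex
open scoped ContDiff ComplexConjugate

theorem comp_wd_local {E U : Set ℂ} (hE : IsCompact E) (hE0 : volume E = 0) (hrem : Rem E)
    (hU : IsOpen U) {χ : ℂ → ℝ} (hχ : ContDiff ℝ ∞ χ) (hχc : HasCompactSupport χ)
    (hχU : tsupport χ ⊆ U) (hχr : ∀ z, χ z ∈ Icc (0 : ℝ) 1)
    {p : ℂ → ℝ} (hpc : Continuous p) (hp : ContDiffOn ℝ 1 (fun z => (p z : ℂ)) (U \ E))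
    (hfin : ∫⁻ z in tsupport χ \ E, ENNReal.ofReal (‖dbar (fun z => (p z : ℂ)) z‖ ^ 2) < ⊤) :
    MemLp (Eᶜ.indicator (dbar fun z => ((χ z * p z : ℝ) : ℂ))) 2 volume ∧
    WD univ (fun z => ((χ z * p z : ℝ) : ℂ)) (Eᶜ.indicator (dbar fun z => ((χ z * p z : ℝ) : ℂ))) := by
  have hEo : IsOpen Eᶜ := hE.isClosed.isOpen_compl
  have hUE : IsOpen (U \ E) := hU.sdiff hE.isClosed
  have hχC : ContDiff ℝ 1 (fun z => (χ z : ℂ)) :=
    (ofRealCLM.contDiff.comp hχ).of_le (by exact_mod_cast le_top)
  have hχCc : HasCompactSupport (fun z => (χ z : ℂ)) :=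
    hχc.comp_left (g := fun t : ℝ => (t : ℂ)) (by simp)
  have hpC : Continuous (fun z => (p z : ℂ)) := continuous_ofReal.comp hpc
  have hfun : (fun z => ((χ z * p z : ℝ) : ℂ)) = fun z => (χ z : ℂ) * (p z : ℂ) := by
    ext z
    push_cast
    rfl
  have hzero : ∀ z, z ∉ tsupport χ → (fun z => ((χ z * p z : ℝ) : ℂ)) =ᶠ[𝓝 z] fun _ => 0 := by
    intro z hz
    filter_upwards [(isClosed_tsupport χ).isOpen_compl.mem_nhds hz] with x hx
    rw [image_eq_zero_of_notMem_tsupport hx]
    simp
  have hd : ∀ z ∈ Eᶜ, z ∈ tsupport χ → dbar (fun z => ((χ z * p z : ℝ) : ℂ)) z =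
      dbar (fun z => (χ z : ℂ)) z * (p z : ℂ) + (χ z : ℂ) * dbar (fun z => (p z : ℂ)) z := by
    intro z hz hzs
    rw [hfun]
    exact dbar_mul (hχC.differentiable (by norm_num) z)
      ((hp.differentiableOn (by norm_num)).differentiableAt (hUE.mem_nhds ⟨hχU hzs, hz⟩))
  have hS : MeasurableSet (tsupport χ \ E) :=
    (isClosed_tsupport χ).measurableSet.diff hE.isClosed.measurableSet
  have hm : Measurable (dbar fun z => (p z : ℂ)) := measurable_dbar _
  have m1 : MemLp ((tsupport χ \ E).indicator (dbar fun z => (p z : ℂ))) 2 volume := by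
    rw [memLp_indicator_iff_restrict hS]
    refine ⟨hm.aestronglyMeasurable, ?_⟩
    rw [eLpNorm_lt_top_iff_lintegral_rpow_enorm_lt_top two_ne_zero ENNReal.ofNat_ne_top]
    refine lt_of_eq_of_lt ?_ hfin
    refine setLIntegral_congr_fun hS fun z hz => ?_
    rw [ENNReal.toReal_ofNat, ENNReal.rpow_ofNat, ← ofReal_norm, ← ENNReal.ofReal_pow (norm_nonneg _)]
  have m2 : MemLp (fun z => dbar (fun z => (χ z : ℂ)) z * (p z : ℂ)) 2 volume :=
    ((continuous_dbar hχC).mul hpC).memLp_of_hasCompactSupport (hasCompactSupport_dbar hχCc).mul_right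
  have m3 : MemLp (Eᶜ.indicator (dbar fun z => ((χ z * p z : ℝ) : ℂ))) 2 volume := by
    have m4 : MemLp (fun z => ‖dbar (fun z => (χ z : ℂ)) z * (p z : ℂ)‖ +
        ‖(tsupport χ \ E).indicator (dbar fun z => (p z : ℂ)) z‖) 2 volume := m2.norm.add m1.norm
    refine m4.of_le ((measurable_dbar _).indicator hE.isClosed.measurableSet.compl).aestronglyMeasurable
      (Eventually.of_forall fun z => ?_)
    rw [Real.norm_eq_abs, abs_of_nonneg (by positivity)]
    by_cases hz : z ∈ Eᶜ
    · rw [indicator_of_mem hz]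
      by_cases hz2 : z ∈ tsupport χ
      · rw [hd z hz hz2]
        refine (norm_add_le _ _).trans (add_le_add le_rfl ?_)
        rw [indicator_of_mem (show z ∈ tsupport χ \ E from ⟨hz2, hz⟩), norm_mul, norm_real,
          Real.norm_eq_abs, abs_of_nonneg (hχr z).1]
        exact mul_le_of_le_one_left (norm_nonneg _) (hχr z).2
      · rw [dbar_congr (hzero z hz2), dbar_const, norm_zero]
        positivity
    · rw [indicator_of_notMem hz, norm_zero]
      positivity
  refine ⟨m3, hrem.wd hE.isClosed hE0 (hχ.continuous.mul hpc) hχc.mul_right m3 ?_⟩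
  have h5 : ContDiffOn ℝ 1 (fun z => ((χ z * p z : ℝ) : ℂ)) Eᶜ := by
    intro z hz
    refine ContDiffAt.contDiffWithinAt ?_
    by_cases hz2 : z ∈ tsupport χ
    · rw [hfun]
      exact hχC.contDiffAt.mul (hp.contDiffAt (hUE.mem_nhds ⟨hχU hz2, hz⟩))
    · exact contDiffAt_const.congr_of_eventuallyEq (hzero z hz2)
  refine (WD.of_contDiffOn hEo h5).congr (fun _ _ => rfl) (Eventually.of_forall fun z hz => ?_)
  rw [indicator_of_mem hz]

/-- local version of conformal removability -/
theorem conf_local {E U : Set ℂ} (hE : IsCompact E) (hE0 : volume E = 0) (hrem : Rem E)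
    (hU : IsOpen U) (f : ℂ ≃ₜ ℂ) (hf : DifferentiableOn ℂ f (U \ E)) : DifferentiableOn ℂ f U := by
  have hUE : IsOpen (U \ E) := hU.sdiff hE.isClosed
  intro x hx
  obtain ⟨χ, hχ, hχc, hχU, hχr, W, hW, hKW, hWU, hχ1⟩ := exists_smooth_cutoff
    (isCompact_singleton (x := x)) hU (singleton_subset_iff.2 hx)
  have hxW : x ∈ W := hKW rfl
  have hfc : ContDiffOn ℝ 1 (fun z => f z) (U \ E) := (hf.contDiffOn (n := 1) hUE).restrict_scalars ℝ
  have hfd : ∀ z ∈ U \ E, DifferentiableAt ℂ f z := fun z hz => hf.differentiableAt (hUE.mem_nhds hz)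
  have hS : MeasurableSet (tsupport χ \ E) :=
    (isClosed_tsupport χ).measurableSet.diff hE.isClosed.measurableSet
  have hSE : tsupport χ \ E ⊆ U \ E := fun z hz => ⟨hχU hz.1, hz.2⟩
  have harea : ∫⁻ z in tsupport χ \ E, ENNReal.ofReal (‖deriv f z‖ ^ 2) < ⊤ := by
    rw [lintegral_deriv_sq hUE hf f.injective.injOn hS hSE]
    refine lt_of_le_of_lt (measure_mono (image_mono sdiff_subset)) ?_
    exact (hχc.isCompact.image f.continuous).measure_lt_top
  have hre : ContDiffOn ℝ 1 (fun z => ((f z).re : ℂ)) (U \ E) :=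
    (ofRealCLM.contDiff.comp reCLM.contDiff).comp_contDiffOn hfc
  have him : ContDiffOn ℝ 1 (fun z => ((f z).im : ℂ)) (U \ E) :=
    (ofRealCLM.contDiff.comp imCLM.contDiff).comp_contDiffOn hfc
  have hfre : ∀ z ∈ U \ E, ∀ v, fderiv ℝ (fun z => ((f z).re : ℂ)) z v =
      ((deriv f z * v).re : ℂ) := by
    intro z hz v
    have h1 : HasFDerivAt (fun z => f z) (fderiv ℝ f z) z :=
      ((hfd z hz).restrictScalars ℝ).hasFDerivAt
    have h2 := ((ofRealCLM.comp reCLM).hasFDerivAt (x := f z)).comp z h1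
    have h3 : (fun z => ((f z).re : ℂ)) = (ofRealCLM.comp reCLM) ∘ (fun z => f z) := by
      ext z
      simp
    rw [h3, h2.fderiv]
    simp [fderiv_real_of_complex (hfd z hz)]
  have hfim : ∀ z ∈ U \ E, ∀ v, fderiv ℝ (fun z => ((f z).im : ℂ)) z v =
      ((deriv f z * v).im : ℂ) := by
    intro z hz v
    have h1 : HasFDerivAt (fun z => f z) (fderiv ℝ f z) z :=
      ((hfd z hz).restrictScalars ℝ).hasFDerivAt
    have h2 := ((ofRealCLM.comp imCLM).hasFDerivAt (x := f z)).comp z h1
    have h3 : (fun z => ((f z).im : ℂ)) = (ofRealCLM.comp imCLM) ∘ (fun z => f z) := by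
      ext z
      simp
    rw [h3, h2.fderiv]
    simp [fderiv_real_of_complex (hfd z hz)]
  have hdre : ∀ z ∈ U \ E, dbar (fun z => ((f z).re : ℂ)) z = conj (deriv f z) / 2 := by
    intro z hz
    unfold dbar
    rw [hfre z hz, hfre z hz]
    apply Complex.ext <;> simp
  have hdim : ∀ z ∈ U \ E, dbar (fun z => ((f z).im : ℂ)) z = I * conj (deriv f z) / 2 := by
    intro z hz
    unfold dbar
    rw [hfim z hz, hfim z hz]
    apply Complex.ext <;> simp
  have b1 : ∫⁻ z in tsupport χ \ E, ENNReal.ofReal (‖dbar (fun z => ((f z).re : ℂ)) z‖ ^ 2) < ⊤ := by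
    refine lt_of_le_of_lt (setLIntegral_mono' hS fun z hz => ?_) harea
    refine ENNReal.ofReal_le_ofReal ?_
    rw [hdre z (hSE hz), norm_div, norm_conj, norm_ofNat]
    gcongr
    have := norm_nonneg (deriv f z)
    linarith
  have b2 : ∫⁻ z in tsupport χ \ E, ENNReal.ofReal (‖dbar (fun z => ((f z).im : ℂ)) z‖ ^ 2) < ⊤ := by
    refine lt_of_le_of_lt (setLIntegral_mono' hS fun z hz => ?_) harea
    refine ENNReal.ofReal_le_ofReal ?_
    rw [hdim z (hSE hz), norm_div, norm_mul, norm_I, one_mul, norm_conj, norm_ofNat]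
    gcongr
    have := norm_nonneg (deriv f z)
    linarith
  obtain ⟨L1, w1⟩ := comp_wd_local hE hE0 hrem hU hχ hχc hχU hχr
    (continuous_re.comp f.continuous) hre b1
  obtain ⟨L2, w2⟩ := comp_wd_local hE hE0 hrem hU hχ hχc hχU hχr
    (continuous_im.comp f.continuous) him b2
  have c1 : Continuous fun z => ((χ z * (f z).re : ℝ) : ℂ) :=
    continuous_ofReal.comp (hχ.continuous.mul (continuous_re.comp f.continuous))
  have c2 : Continuous fun z => ((χ z * (f z).im : ℝ) : ℂ) :=
    continuous_ofReal.comp (hχ.continuous.mul (continuous_im.comp f.continuous))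
  have w3 := w1.add (w2.const_mul I) c1 (continuous_const.mul c2)
    (locallyIntegrable_of_memLp_two L1) ((locallyIntegrable_of_memLp_two L2).smul I)
  have hEae : ∀ᵐ z : ℂ, z ∉ E := by
    rw [ae_iff]
    simpa using hE0
  have w4 : WD W (fun z => f z) (fun _ => 0) := by
    refine (w3.mono (subset_univ W)).congr (fun z hz => ?_) ?_
    · rw [hχ1 z hz, one_mul, one_mul, mul_comm I]
      exact re_add_im _
    · filter_upwards [hEae] with z hzE hzW
      have hz : z ∈ Eᶜ := hzE
      have hz' : z ∈ U \ E := ⟨hWU hzW, hzE⟩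
      rw [indicator_of_mem hz, indicator_of_mem hz]
      have e1 : dbar (fun z => ((χ z * (f z).re : ℝ) : ℂ)) z = dbar (fun z => ((f z).re : ℂ)) z := by
        refine dbar_congr ?_
        filter_upwards [hW.mem_nhds hzW] with x hx
        rw [hχ1 x hx, one_mul]
      have e2 : dbar (fun z => ((χ z * (f z).im : ℝ) : ℂ)) z = dbar (fun z => ((f z).im : ℂ)) z := by
        refine dbar_congr ?_
        filter_upwards [hW.mem_nhds hzW] with x hx
        rw [hχ1 x hx, one_mul]
      simp only [Function.comp_apply]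
      rw [e1, e2, hdre z hz', hdim z hz']
      linear_combination (conj (deriv f z) / 2) * I_sq
  have hfW : DifferentiableOn ℂ f W :=
    w4.differentiableOn f.continuous hW (Eventually.of_forall fun _ _ => rfl)
  exact (hfW.differentiableAt (hW.mem_nhds hxW)).differentiableWithinAt

theorem sphere_rem (c : ℂ) {r : ℝ} (hr : 0 < r) :
    IsCompact (sphere c r) ∧ volume (sphere c r) = 0 ∧ Rem (sphere c r) := by
  have h0 : volume (sphere c r) = 0 := Measure.addHaar_sphere _ _ _
  refine ⟨isCompact_sphere c r, h0, ?_⟩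
  refine calib' (ι := Unit) (isCompact_sphere c r) h0 (fun _ => c) (fun _ => r) (fun _ => hr.le)
    (fun _ => ?_) ?_
  · rw [Set.disjoint_left]
    intro z hz1 hz2
    rw [mem_ball] at hz1
    rw [mem_sphere] at hz2
    linarith
  · intro K hK _ hd
    have : K = ∅ := by
      rw [eq_empty_iff_forall_notMem]
      intro z hz
      exact Set.disjoint_left.1 (hd ()) hz (sphere_subset_closedBall (hK hz))
    rw [this]
    exact rem_empty

/-- compact subsets of the boundary -/
theorem circle_rem_sub {Ω E : Set ℂ} (hΩ : IsOpen Ω) (hE : IsCompact E) (hEf : E ⊆ frontier Ω)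
    (hc : ∀ x ∈ Ωᶜ, connectedComponentIn Ωᶜ x = {x} ∨
        ∃ c : ℂ, ∃ r : ℝ, 0 < r ∧ connectedComponentIn Ωᶜ x = closedBall c r)
    (hK : ∀ K ⊆ E, K.Nonempty → IsCompact K → Perfect K → IsTotallyDisconnected K →
      (∀ x ∈ K, connectedComponentIn Ωᶜ x = {x}) → Rem K) :
    volume E = 0 ∧ Rem E := by
  have hfc : frontier Ω ⊆ Ωᶜ := fun x hx hxΩ => by
    rw [hΩ.frontier_eq] at hx
    exact hx.2 hxΩ
  -- point components
  have hpoint : ∀ K ⊆ E, IsCompact K → (∀ x ∈ K, connectedComponentIn Ωᶜ x = {x}) →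
      volume K = 0 ∧ Rem K := by
    intro K hKE hKc hKp
    have htd : ∀ D ⊆ K, IsTotallyDisconnected D := by
      intro D hDK t htD ht x hx y hy
      have h1 := ht.subset_connectedComponentIn hx (htD.trans (hDK.trans (hKE.trans (hEf.trans hfc))))
      have h2 := h1 hy
      rw [hKp x (hDK (htD hx))] at h2
      exact h2.symm
    obtain ⟨V, D, hV, hD, hVD⟩ := exists_countable_union_perfect_of_isClosed hKc.isClosed
    have hDK : D ⊆ K := by rw [hVD]; exact subset_union_right
    have hDc : IsCompact D := hKc.of_isClosed_subset hD.closed hDK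
    have hRD : Rem D := by
      rcases D.eq_empty_or_nonempty with h | h
      · rw [h]; exact rem_empty
      · exact hK D (hDK.trans hKE) h hDc hD (htd D hDK) fun x hx => hKp x (hDK hx)
    have hK0 : volume K = 0 := by
      rw [hVD]
      exact measure_union_null (hV.measure_zero _) (volume_zero_of_rem hDc hRD)
    refine ⟨hK0, ?_⟩
    have : Countable V := hV.to_subtype
    refine calib' hKc hK0 (fun v : V => (v : ℂ)) (fun _ => 0) (fun _ => le_rfl) (fun _ => ?_) ?_
    · rw [ball_zero]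
      exact disjoint_bot_left
    · intro K' hK' _ hd
      refine hRD.mono fun x hx => ?_
      have h1 := hK' hx
      rw [hVD] at h1
      rcases h1 with h1 | h1
      · have h2 := hd ⟨x, h1⟩
        exact absurd (mem_closedBall_self le_rfl) (Set.disjoint_left.1 h2 hx)
      · exact h1
  have : Countable (Balls Ω) := (balls_countable Ω).to_subtype
  have hch : ∀ B : Balls Ω, ∃ c : ℂ, ∃ r : ℝ, 0 < r ∧ (B : Set ℂ) = closedBall c r := by
    rintro ⟨B, x, hx, hB, c, r, hr, h⟩
    exact ⟨c, r, hr, h⟩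
  choose c r hr hB using hch
  have hdis : ∀ B : Balls Ω, Disjoint (ball (c B) (r B)) E := by
    intro B
    have hBΩ : ball (c B) (r B) ⊆ Ωᶜ := by
      refine ball_subset_closedBall.trans ?_
      rw [← hB B]
      obtain ⟨x, hx, hxB, -⟩ := B.2
      rw [← hxB]
      exact connectedComponentIn_subset _ _
    rw [Set.disjoint_left]
    intro z hz hzf
    have h1 : z ∈ closure Ω := frontier_subset_closure (hEf hzf)
    obtain ⟨y, hy1, hy2⟩ := mem_closure_iff.1 h1 _ isOpen_ball hz
    exact hBΩ hy1 hy2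
  have hpt : ∀ K ⊆ E, (∀ B : Balls Ω, Disjoint K (closedBall (c B) (r B))) →
      ∀ x ∈ K, connectedComponentIn Ωᶜ x = {x} := by
    intro K hKE hKd x hx
    have hxc : x ∈ Ωᶜ := hfc (hEf (hKE hx))
    rcases hc x hxc with h | ⟨a, s, hs, h⟩
    · exact h
    · have hmem : connectedComponentIn Ωᶜ x ∈ Balls Ω := ⟨x, hxc, rfl, a, s, hs, h⟩
      have h1 := hKd ⟨_, hmem⟩
      rw [← hB ⟨_, hmem⟩] at h1
      exact absurd (mem_connectedComponentIn hxc) (Set.disjoint_left.1 h1 hx)
  have h0 : volume E = 0 := by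
    have hU : MeasurableSet (⋃ B : Balls Ω, closedBall (c B) (r B)) :=
      MeasurableSet.iUnion fun B => isClosed_closedBall.measurableSet
    have h1 : volume (E ∩ ⋃ B : Balls Ω, closedBall (c B) (r B)) = 0 := by
      rw [inter_iUnion]
      refine measure_iUnion_null fun B => ?_
      refine measure_mono_null ?_ (Measure.addHaar_sphere volume (c B) (r B))
      rintro z ⟨hz1, hz2⟩
      have h2 : z ∉ ball (c B) (r B) := fun h => Set.disjoint_left.1 (hdis B) h hz1
      rw [mem_ball, not_lt] at h2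
      exact le_antisymm hz2 h2
    have h2 : volume (E \ ⋃ B : Balls Ω, closedBall (c B) (r B)) = 0 := by
      by_contra hne
      have hms : MeasurableSet (E \ ⋃ B : Balls Ω, closedBall (c B) (r B)) :=
        hE.isClosed.measurableSet.diff hU
      obtain ⟨K, hKs, hKc, hKpos⟩ := hms.exists_lt_isCompact (μ := volume) (pos_iff_ne_zero.2 hne)
      have hKf : K ⊆ E := hKs.trans sdiff_subset
      have hKd : ∀ B : Balls Ω, Disjoint K (closedBall (c B) (r B)) := by
        intro B
        rw [Set.disjoint_left]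
        intro z hz hzB
        exact (hKs hz).2 (mem_iUnion.2 ⟨B, hzB⟩)
      exact hKpos.ne' (hpoint K hKf hKc (hpt K hKf hKd)).1
    rw [← inter_union_sdiff E (⋃ B : Balls Ω, closedBall (c B) (r B))]
    exact measure_union_null h1 h2
  refine ⟨h0, calib' hE h0 c r (fun B => (hr B).le) hdis fun K hKf hKc hKd => ?_⟩
  exact (hpoint K hKf hKc (hpt K hKf hKd)).2

end Pool.Agent.LibHelper41.Remov
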