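import Pool.Agent.Lib_helper41.Remov.Weyl

set_option autoImplicit false

namespace Pool.Agent.LibHelper41.Remov

open MeasureTheory Metric Set Filter Topology Complex
open scoped ContDiff ComplexConjugate

theorem comp_wd {E : Set ℂ} (hE : IsCompact E) (hE0 : volume E = 0) (hrem : Rem E)
    {χ : ℂ → ℝ} (hχ : ContDiff ℝ ∞ χ) (hχc : HasCompactSupport χ) (hχr : ∀ z, χ z ∈ Icc (0 : ℝ) 1)
    {p : ℂ → ℝ} (hpc : Continuous p) (hp : ContDiffOn ℝ 1 (fun z => (p z : ℂ)) Eᶜ)
    (hfin : ∫⁻ z in tsupport χ \ E, ENNReal.ofReal (‖dbar (fun z => (p z : ℂ)) z‖ ^ 2) < ⊤) :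
    MemLp (Eᶜ.indicator (dbar fun z => ((χ z * p z : ℝ) : ℂ))) 2 volume ∧
    WD univ (fun z => ((χ z * p z : ℝ) : ℂ)) (Eᶜ.indicator (dbar fun z => ((χ z * p z : ℝ) : ℂ))) := by
  have hEo : IsOpen Eᶜ := hE.isClosed.isOpen_compl
  have hχC : ContDiff ℝ 1 (fun z => (χ z : ℂ)) :=
    (ofRealCLM.contDiff.comp hχ).of_le (by exact_mod_cast le_top)
  have hχCc : HasCompactSupport (fun z => (χ z : ℂ)) :=
    hχc.comp_left (g := fun t : ℝ => (t : ℂ)) (by simp)
  have hpC : Continuous (fun z => (p z : ℂ)) := continuous_ofReal.comp hpc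
  have hfun : (fun z => ((χ z * p z : ℝ) : ℂ)) = fun z => (χ z : ℂ) * (p z : ℂ) := by
    ext z
    push_cast
    rfl
  have hd : ∀ z ∈ Eᶜ, dbar (fun z => ((χ z * p z : ℝ) : ℂ)) z =
      dbar (fun z => (χ z : ℂ)) z * (p z : ℂ) + (χ z : ℂ) * dbar (fun z => (p z : ℂ)) z := by
    intro z hz
    rw [hfun]
    exact dbar_mul (hχC.differentiable (by norm_num) z)
      ((hp.differentiableOn (by norm_num)).differentiableAt (hEo.mem_nhds hz))
  have hS : MeasurableSet (tsupport χ \ E) :=
    (isClosed_tsupport χ).measurableSet.diff hE.isClosed.measurableSet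
  have hm : Measurable (dbar fun z => (p z : ℂ)) := measurable_dbar _
  have m1 : MemLp ((tsupport χ \ E).indicator (dbar fun z => (p z : ℂ))) 2 volume := by
    rw [memLp_indicator_iff_restrict hS]
    refine ⟨hm.aestronglyMeasurable, ?_⟩
    rw [eLpNorm_lt_top_iff_lintegral_rpow_enorm_lt_top two_ne_zero ENNReal.ofNat_ne_top]
    refine lt_of_eq_of_lt ?_ hfin
    refine setLIntegral_congr_fun hS fun z hz => ?_
    rw [ENNReal.toReal_ofNat, ENNReal.rpow_ofNat, ← ofReal_norm, ← ENNReal.ofReal_pow (norm_nonneg _)]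
  have m2 : MemLp (fun z => dbar (fun z => (χ z : ℂ)) z * (p z : ℂ)) 2 volume :=
    ((continuous_dbar hχC).mul hpC).memLp_of_hasCompactSupport (hasCompactSupport_dbar hχCc).mul_right
  have m3 : MemLp (Eᶜ.indicator (dbar fun z => ((χ z * p z : ℝ) : ℂ))) 2 volume := by
    have m4 : MemLp (fun z => ‖dbar (fun z => (χ z : ℂ)) z * (p z : ℂ)‖ +
        ‖(tsupport χ \ E).indicator (dbar fun z => (p z : ℂ)) z‖) 2 volume := m2.norm.add m1.norm
    refine m4.of_le ((measurable_dbar _).indicator hE.isClosed.measurableSet.compl).aestronglyMeasurable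
      (Eventually.of_forall fun z => ?_)
    rw [Real.norm_eq_abs, abs_of_nonneg (by positivity)]
    by_cases hz : z ∈ Eᶜ
    · rw [indicator_of_mem hz, hd z hz]
      refine (norm_add_le _ _).trans (add_le_add le_rfl ?_)
      by_cases hz2 : z ∈ tsupport χ
      · rw [indicator_of_mem (show z ∈ tsupport χ \ E from ⟨hz2, hz⟩), norm_mul, norm_real,
          Real.norm_eq_abs, abs_of_nonneg (hχr z).1]
        exact mul_le_of_le_one_left (norm_nonneg _) (hχr z).2
      · rw [image_eq_zero_of_notMem_tsupport hz2]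
        simp
    · rw [indicator_of_notMem hz, norm_zero]
      positivity
  refine ⟨m3, hrem.wd hE.isClosed hE0 (hχ.continuous.mul hpc) hχc.mul_right m3 ?_⟩
  have h5 : ContDiffOn ℝ 1 (fun z => ((χ z * p z : ℝ) : ℂ)) Eᶜ := by
    rw [hfun]
    exact hχC.contDiffOn.mul hp
  refine (WD.of_contDiffOn hEo h5).congr (fun _ _ => rfl) (Eventually.of_forall fun z hz => ?_)
  rw [indicator_of_mem hz]

/-- a compact null set which is removable in the Sobolev sense is conformally removable -/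
theorem conf_of_rem {E : Set ℂ} (hE : IsCompact E) (hE0 : volume E = 0) (hrem : Rem E)
    (f : ℂ ≃ₜ ℂ) (hf : DifferentiableOn ℂ f Eᶜ) : Differentiable ℂ f := by
  have hEo : IsOpen Eᶜ := hE.isClosed.isOpen_compl
  obtain ⟨R, hR⟩ := hE.isBounded.subset_closedBall 0
  obtain ⟨χ, hχ, hχc, -, hχr, W, hW, hKW, -, hχ1⟩ := exists_smooth_cutoff
    (isCompact_closedBall (0 : ℂ) R) isOpen_univ (subset_univ _)
  have hEW : E ⊆ W := hR.trans hKW
  have hfc : ContDiffOn ℝ 1 (fun z => f z) Eᶜ := (hf.contDiffOn (n := 1) hEo).restrict_scalars ℝ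
  have hfd : ∀ z ∈ Eᶜ, DifferentiableAt ℂ f z := fun z hz => hf.differentiableAt (hEo.mem_nhds hz)
  have hS : MeasurableSet (tsupport χ \ E) :=
    (isClosed_tsupport χ).measurableSet.diff hE.isClosed.measurableSet
  have hSE : tsupport χ \ E ⊆ Eᶜ := fun z hz => hz.2
  have harea : ∫⁻ z in tsupport χ \ E, ENNReal.ofReal (‖deriv f z‖ ^ 2) < ⊤ := by
    rw [lintegral_deriv_sq hEo hf f.injective.injOn hS hSE]
    refine lt_of_le_of_lt (measure_mono (image_mono sdiff_subset)) ?_
    exact (hχc.isCompact.image f.continuous).measure_lt_top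
  have hre : ContDiffOn ℝ 1 (fun z => ((f z).re : ℂ)) Eᶜ :=
    (ofRealCLM.contDiff.comp reCLM.contDiff).comp_contDiffOn hfc
  have him : ContDiffOn ℝ 1 (fun z => ((f z).im : ℂ)) Eᶜ :=
    (ofRealCLM.contDiff.comp imCLM.contDiff).comp_contDiffOn hfc
  have hfre : ∀ z ∈ Eᶜ, ∀ v, fderiv ℝ (fun z => ((f z).re : ℂ)) z v = ((deriv f z * v).re : ℂ) := by
    intro z hz v
    have h1 : HasFDerivAt (fun z => f z) (fderiv ℝ f z) z :=
      ((hfd z hz).restrictScalars ℝ).hasFDerivAt
    have h2 := ((ofRealCLM.comp reCLM).hasFDerivAt (x := f z)).comp z h1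
    have h3 : (fun z => ((f z).re : ℂ)) = (ofRealCLM.comp reCLM) ∘ (fun z => f z) := by
      ext z
      simp
    rw [h3, h2.fderiv]
    simp [fderiv_real_of_complex (hfd z hz)]
  have hfim : ∀ z ∈ Eᶜ, ∀ v, fderiv ℝ (fun z => ((f z).im : ℂ)) z v = ((deriv f z * v).im : ℂ) := by
    intro z hz v
    have h1 : HasFDerivAt (fun z => f z) (fderiv ℝ f z) z :=
      ((hfd z hz).restrictScalars ℝ).hasFDerivAt
    have h2 := ((ofRealCLM.comp imCLM).hasFDerivAt (x := f z)).comp z h1
    have h3 : (fun z => ((f z).im : ℂ)) = (ofRealCLM.comp imCLM) ∘ (fun z => f z) := by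
      ext z
      simp
    rw [h3, h2.fderiv]
    simp [fderiv_real_of_complex (hfd z hz)]
  have hdre : ∀ z ∈ Eᶜ, dbar (fun z => ((f z).re : ℂ)) z = conj (deriv f z) / 2 := by
    intro z hz
    unfold dbar
    rw [hfre z hz, hfre z hz]
    apply Complex.ext <;> simp
  have hdim : ∀ z ∈ Eᶜ, dbar (fun z => ((f z).im : ℂ)) z = I * conj (deriv f z) / 2 := by
    intro z hz
    unfold dbar
    rw [hfim z hz, hfim z hz]
    apply Complex.ext <;> simp
  have b1 : ∫⁻ z in tsupport χ \ E, ENNReal.ofReal (‖dbar (fun z => ((f z).re : ℂ)) z‖ ^ 2) < ⊤ := by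
    refine lt_of_le_of_lt (setLIntegral_mono' hS fun z hz => ?_) harea
    refine ENNReal.ofReal_le_ofReal ?_
    rw [hdre z (hSE hz), norm_div, norm_conj, norm_ofNat]
    gcongr
    have := norm_nonneg (deriv f z)
    linarith
  have b2 : ∫⁻ z in tsupport χ \ E, ENNReal.ofReal (‖dbar (fun z => ((f z).im : ℂ)) z‖ ^ 2) < ⊤ := by
    refine lt_of_le_of_lt (setLIntegral_mono' hS fun z hz => ?_) harea
    refine ENNReal.ofReal_le_ofReal ?_
    rw [hdim z (hSE hz), norm_div, norm_mul, norm_I, one_mul, norm_conj, norm_ofNat]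
    gcongr
    have := norm_nonneg (deriv f z)
    linarith
  obtain ⟨L1, w1⟩ := comp_wd hE hE0 hrem hχ hχc hχr (continuous_re.comp f.continuous) hre b1
  obtain ⟨L2, w2⟩ := comp_wd hE hE0 hrem hχ hχc hχr (continuous_im.comp f.continuous) him b2
  have c1 : Continuous fun z => ((χ z * (f z).re : ℝ) : ℂ) :=
    continuous_ofReal.comp (hχ.continuous.mul (continuous_re.comp f.continuous))
  have c2 : Continuous fun z => ((χ z * (f z).im : ℝ) : ℂ) :=
    continuous_ofReal.comp (hχ.continuous.mul (continuous_im.comp f.continuous))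
  have w3 := w1.add (w2.const_mul I) c1 (continuous_const.mul c2)
    (locallyIntegrable_of_memLp_two L1) ((locallyIntegrable_of_memLp_two L2).smul I)
  have hEae : ∀ᵐ z : ℂ, z ∉ E := by
    rw [ae_iff]
    simpa using hE0
  have w4 : WD W (fun z => f z) (fun _ => 0) := by
    refine (w3.mono (subset_univ W)).congr (fun z hz => ?_) ?_
    · rw [hχ1 z hz, one_mul, one_mul, mul_comm I]
      exact re_add_im _
    · filter_upwards [hEae] with z hzE hzW
      have hz : z ∈ Eᶜ := hzE
      rw [indicator_of_mem hz, indicator_of_mem hz]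
      have e1 : dbar (fun z => ((χ z * (f z).re : ℝ) : ℂ)) z = dbar (fun z => ((f z).re : ℂ)) z := by
        refine dbar_congr ?_
        filter_upwards [hW.mem_nhds hzW] with x hx
        rw [hχ1 x hx, one_mul]
      have e2 : dbar (fun z => ((χ z * (f z).im : ℝ) : ℂ)) z = dbar (fun z => ((f z).im : ℂ)) z := by
        refine dbar_congr ?_
        filter_upwards [hW.mem_nhds hzW] with x hx
        rw [hχ1 x hx, one_mul]
      simp only [Function.comp_apply]
      rw [e1, e2, hdre z hz, hdim z hz]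
      linear_combination (conj (deriv f z) / 2) * I_sq
  have hfW : DifferentiableOn ℂ f W :=
    w4.differentiableOn f.continuous hW (Eventually.of_forall fun _ _ => rfl)
  intro z
  by_cases hz : z ∈ E
  · exact hfW.differentiableAt (hW.mem_nhds (hEW hz))
  · exact hfd z hz

end Pool.Agent.LibHelper41.Remov
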