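import Pool.Agent.Lib_helper41.Remov.WD

set_option autoImplicit false

namespace Pool.Agent.LibHelper41.Remov

open MeasureTheory Metric Set Filter Topology Complex
open scoped ContDiff Convolution

/-- a shrinking sequence of bumps -/
noncomputable def bb (n : ℕ) : ContDiffBump (0 : ℂ) where
  rIn := 1 / ((n : ℝ) + 2)
  rOut := 1 / ((n : ℝ) + 1)
  rIn_pos := by positivity
  rIn_lt_rOut := by
    apply one_div_lt_one_div_of_lt <;> [positivity; linarith]

/-- the normalised bumps -/
noncomputable def rho (n : ℕ) : ℂ → ℝ := (bb n).normed volume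

theorem rho_contDiff (n : ℕ) : ContDiff ℝ ∞ (rho n) := (bb n).contDiff_normed

theorem rho_nonneg (n : ℕ) (z : ℂ) : 0 ≤ rho n z := (bb n).nonneg_normed z

theorem rho_neg (n : ℕ) (z : ℂ) : rho n (-z) = rho n z := (bb n).normed_neg z

theorem rho_compact (n : ℕ) : HasCompactSupport (rho n) := (bb n).hasCompactSupport_normed

theorem rho_tsupport (n : ℕ) : tsupport (rho n) = closedBall 0 (1 / ((n : ℝ) + 1)) :=
  (bb n).tsupport_normed_eq

theorem rho_integral (n : ℕ) : ∫ z, rho n z = 1 := (bb n).integral_normed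

theorem rho_out_tendsto : Tendsto (fun n => (bb n).rOut) atTop (𝓝 0) :=
  tendsto_one_div_add_atTop_nhds_zero_nat

/-- complex mollification -/
noncomputable def CM (n : ℕ) (u : ℂ → ℂ) (z : ℂ) : ℂ := ∫ t, u t * (rho n (z - t) : ℂ)

/-- real mollification -/
noncomputable def RM (n : ℕ) (w : ℂ → ℝ) (z : ℂ) : ℝ := ∫ t, w t * rho n (z - t)

theorem CM_ofReal (n : ℕ) (w : ℂ → ℝ) (z : ℂ) :
    CM n (fun t => (w t : ℂ)) z = (RM n w z : ℂ) := by
  unfold CM RM
  rw [← integral_complex_ofReal]
  congr 1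
  ext t
  push_cast
  rfl

theorem RM_eq_conv (n : ℕ) (w : ℂ → ℝ) (z : ℂ) :
    RM n w z = (rho n ⋆[ContinuousLinearMap.lsmul ℝ ℝ, volume] w) z := by
  rw [convolution_lsmul_swap]
  unfold RM
  congr 1
  ext t
  rw [smul_eq_mul, mul_comm]

theorem rhoC_contDiff (n : ℕ) : ContDiff ℝ ∞ (fun z => (rho n z : ℂ)) :=
  ofRealCLM.contDiff.comp (rho_contDiff n)

theorem rhoC_compact (n : ℕ) : HasCompactSupport (fun z => (rho n z : ℂ)) :=
  (rho_compact n).comp_left (g := fun t : ℝ => (t : ℂ)) (by simp)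

theorem CM_eq_conv (n : ℕ) (u : ℂ → ℂ) :
    CM n u = u ⋆[ContinuousLinearMap.mul ℝ ℂ, volume] (fun z => (rho n z : ℂ)) := by
  funext z
  rfl

theorem CM_contDiff (n : ℕ) {u : ℂ → ℂ} (hu : LocallyIntegrable u) : ContDiff ℝ ∞ (CM n u) := by
  rw [CM_eq_conv]
  exact (rhoC_compact n).contDiff_convolution_right _ hu (rhoC_contDiff n)

theorem fderiv_CM (n : ℕ) {u : ℂ → ℂ} (hu : LocallyIntegrable u) (z v : ℂ) :
    fderiv ℝ (CM n u) z v = ∫ t, u t * fderiv ℝ (fun z => (rho n z : ℂ)) (z - t) v := by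
  have h1 : ContDiff ℝ 1 (fun z => (rho n z : ℂ)) :=
    (rhoC_contDiff n).of_le (by exact_mod_cast le_top)
  have h := (rhoC_compact n).hasFDerivAt_convolution_right (ContinuousLinearMap.mul ℝ ℂ) hu h1 z
  rw [← CM_eq_conv] at h
  rw [h.fderiv]
  exact convolution_precompR_apply (ContinuousLinearMap.mul ℝ ℂ) hu
    ((rhoC_compact n).fderiv (𝕜 := ℝ)) (h1.continuous_fderiv one_ne_zero) z v

theorem integrable_conv {u : ℂ → ℂ} (hu : LocallyIntegrable u) {k : ℂ → ℂ}
    (hk : Continuous k) (hc : HasCompactSupport k) (z : ℂ) :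
    Integrable (fun t => u t * k (z - t)) :=
  hc.convolutionExists_right (ContinuousLinearMap.mul ℝ ℂ) hu hk z

theorem dbar_CM (n : ℕ) {u : ℂ → ℂ} (hu : LocallyIntegrable u) (z : ℂ) :
    dbar (CM n u) z = ∫ t, u t * dbar (fun z => (rho n z : ℂ)) (z - t) := by
  have h1 : ContDiff ℝ 1 (fun z => (rho n z : ℂ)) :=
    (rhoC_contDiff n).of_le (by exact_mod_cast le_top)
  have i1 := integrable_conv hu (continuous_fderiv_apply h1 1)
    (hasCompactSupport_fderiv_apply (rhoC_compact n) 1) z
  have i2 := integrable_conv hu (continuous_fderiv_apply h1 I)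
    (hasCompactSupport_fderiv_apply (rhoC_compact n) I) z
  unfold dbar
  rw [fderiv_CM n hu, fderiv_CM n hu, ← integral_const_mul, ← integral_add i1 (i2.const_mul I),
    ← integral_div]
  congr 1
  ext t
  ring

theorem dbar_comp_sub {F : ℂ → ℂ} (hF : Differentiable ℝ F) (z t : ℂ) :
    dbar (fun t => F (z - t)) t = - dbar F (z - t) := by
  unfold dbar
  have h1 : HasFDerivAt (fun t : ℂ => z - t) (-(ContinuousLinearMap.id ℝ ℂ)) t := by
    simpa using (hasFDerivAt_id (𝕜 := ℝ) t).const_sub z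
  have h : fderiv ℝ (fun t => F (z - t)) t = - fderiv ℝ F (z - t) := by
    have h2 := ((hF (z - t)).hasFDerivAt.comp t h1).fderiv
    rw [show (fun t => F (z - t)) = F ∘ (fun t => z - t) from rfl, h2]
    ext v
    simp
  rw [h]
  simp only [neg_apply]
  ring

/-- the mollified function satisfies the equation in the classical sense -/
theorem dbar_CM_of_WD {U : Set ℂ} {u g : ℂ → ℂ} (hw : WD U u g) (hu : LocallyIntegrable u)
    (n : ℕ) {z : ℂ} (hz : closedBall z (1 / ((n : ℝ) + 1)) ⊆ U) :
    dbar (CM n u) z = CM n g z := by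
  rw [dbar_CM n hu]
  have h1 : ContDiff ℝ ∞ (fun t => (rho n (z - t) : ℂ)) :=
    (rhoC_contDiff n).comp (contDiff_const.sub contDiff_id)
  have hts : tsupport (fun t => (rho n (z - t) : ℂ)) ⊆ closedBall z (1 / ((n : ℝ) + 1)) := by
    refine closure_minimal ?_ isClosed_closedBall
    intro t ht
    have h2 : z - t ∈ tsupport (rho n) := by
      refine subset_tsupport _ ?_
      intro hcon
      exact ht (by simp [hcon])
    rw [rho_tsupport] at h2
    rw [mem_closedBall, dist_eq_norm] at h2 ⊢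
    rw [sub_zero] at h2
    rwa [norm_sub_rev]
  have h2 : HasCompactSupport (fun t => (rho n (z - t) : ℂ)) :=
    (isCompact_closedBall z _).of_isClosed_subset (isClosed_tsupport _) hts
  have h3 := hw _ h1 h2 (hts.trans hz)
  have h4 : ∀ t, dbar (fun t => (rho n (z - t) : ℂ)) t =
      - dbar (fun z => (rho n z : ℂ)) (z - t) := fun t =>
    dbar_comp_sub ((rhoC_contDiff n).differentiable (by simp)) z t
  simp_rw [h4, mul_neg, integral_neg] at h3
  unfold CM
  exact neg_injective h3

theorem RM_tendsto {w : ℂ → ℝ} (hw : Continuous w) (z : ℂ) :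
    Tendsto (Function.uncurry fun n : ℕ => RM n w) (atTop ×ˢ 𝓝 z) (𝓝 (w z)) := by
  have h := ContDiffBump.convolution_tendsto_right (μ := (volume : Measure ℂ))
    (φ := fun p : ℕ × ℂ => bb p.1) (g := fun _ => w) (k := fun p : ℕ × ℂ => p.2) (x₀ := z)
    (z₀ := w z) (l := (atTop : Filter ℕ) ×ˢ 𝓝 z) (rho_out_tendsto.comp tendsto_fst)
    (Eventually.of_forall fun _ => hw.aestronglyMeasurable)
    ((hw.tendsto z).comp tendsto_snd) tendsto_snd
  refine h.congr ?_
  rintro ⟨n, x⟩
  exact (RM_eq_conv n w x).symm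

theorem RM_tendsto' {w : ℂ → ℝ} (hw : Continuous w) (z : ℂ) :
    Tendsto (fun n => RM n w z) atTop (𝓝 (w z)) := by
  have h1 := RM_tendsto hw z
  have h2 : Tendsto (fun n : ℕ => (n, z)) atTop (atTop ×ˢ 𝓝 z) :=
    tendsto_id.prodMk tendsto_const_nhds
  have h3 := h1.comp h2
  simpa only [Function.comp_def, Function.uncurry_apply_pair] using h3

theorem norm_RM_smul_le {h : ℂ → ℂ} {C : ℝ} (hC : ∀ z, ‖h z‖ ≤ C) (n : ℕ) (t : ℂ) :
    ‖∫ z, h z * (rho n (z - t) : ℂ)‖ ≤ C := by
  have hi : Integrable (fun z => C * rho n (z - t)) := by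
    have := (bb n).integrable_normed (μ := (volume : Measure ℂ))
    exact (this.comp_sub_right t).const_mul C
  have h1 : ∀ z, ‖h z * (rho n (z - t) : ℂ)‖ ≤ C * rho n (z - t) := by
    intro z
    rw [norm_mul, norm_real, Real.norm_of_nonneg (rho_nonneg n _)]
    exact mul_le_mul_of_nonneg_right (hC z) (rho_nonneg n _)
  refine (norm_integral_le_of_norm_le hi (Eventually.of_forall h1)).trans (le_of_eq ?_)
  rw [integral_const_mul, integral_sub_right_eq_self (fun z => rho n z) t, rho_integral, mul_one]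

theorem lim_aux {w : ℂ → ℝ} {φ : ℂ → ℂ} {ψ ψ' : ℝ → ℝ} (hwc : Continuous w)
    (hψ : ∀ t, HasDerivAt ψ (ψ' t) t) {C : ℝ} (hC : ∀ t, |ψ' t| ≤ C) (hψ1 : ContDiff ℝ 1 ψ)
    (hRM : ∀ n, ContDiff ℝ 1 (RM n w)) (h1 : ContDiff ℝ ∞ φ) (h2 : HasCompactSupport φ) :
    Tendsto (fun n => ∫ z, (ψ (RM n w z) : ℂ) * dbar φ z) atTop
      (𝓝 (∫ z, (ψ (w z) : ℂ) * dbar φ z)) := by
  have h1' : ContDiff ℝ 1 φ := h1.of_le (by exact_mod_cast le_top)
  have hC0 : 0 ≤ C := (abs_nonneg _).trans (hC 0)
  -- bound on the support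
  obtain ⟨M, hM⟩ : ∃ M : ℝ, ∀ z ∈ cthickening 1 (tsupport φ), |w z| ≤ M := by
    obtain ⟨M, hM⟩ := (h2.isCompact.cthickening (r := 1)).exists_bound_of_continuousOn
      hwc.continuousOn
    exact ⟨M, fun z hz => hM z hz⟩
  have hRMb : ∀ n, ∀ z ∈ tsupport φ, |RM n w z| ≤ M := by
    intro n z hz
    have hi : Integrable (fun t => M * rho n (z - t)) := by
      have := (bb n).integrable_normed (μ := (volume : Measure ℂ))
      exact (this.comp_sub_left z).const_mul M
    have h1 : ∀ t, ‖w t * rho n (z - t)‖ ≤ M * rho n (z - t) := by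
      intro t
      rw [norm_mul, Real.norm_of_nonneg (rho_nonneg n _)]
      by_cases hr : rho n (z - t) = 0
      · rw [hr]; simp
      · refine mul_le_mul_of_nonneg_right ?_ (rho_nonneg n _)
        have h2 : z - t ∈ tsupport (rho n) := subset_tsupport _ hr
        rw [rho_tsupport, mem_closedBall, dist_zero_right] at h2
        refine hM t (closedBall_subset_cthickening hz 1 ?_)
        rw [mem_closedBall, dist_comm, dist_eq_norm]
        refine h2.trans ?_
        rw [div_le_one (by positivity)]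
        have : (0 : ℝ) ≤ n := Nat.cast_nonneg n
        linarith
    have h3 := norm_integral_le_of_norm_le hi (Eventually.of_forall h1)
    rw [integral_const_mul, integral_sub_left_eq_self (fun z => rho n z) volume z, rho_integral,
      mul_one] at h3
    exact h3
  have hψL : ∀ s, |ψ s| ≤ |ψ 0| + C * |s| := by
    intro s
    have hlip : ‖ψ s - ψ 0‖ ≤ C * ‖s - 0‖ :=
      (convex_univ : Convex ℝ (univ : Set ℝ)).norm_image_sub_le_of_norm_hasDerivWithin_le
        (fun x _ => (hψ x).hasDerivWithinAt) (fun x _ => hC x) (mem_univ _) (mem_univ _)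
    rw [sub_zero, Real.norm_eq_abs, Real.norm_eq_abs] at hlip
    have := abs_sub_abs_le_abs_sub (ψ s) (ψ 0)
    linarith
  have hdi : Integrable (dbar φ) :=
    (continuous_dbar h1').integrable_of_hasCompactSupport (hasCompactSupport_dbar h2)
  refine tendsto_integral_of_dominated_convergence
    (fun z => (|ψ 0| + C * M) * ‖dbar φ z‖) ?_ (hdi.norm.const_mul _) ?_ ?_
  · intro n
    exact ((continuous_ofReal.comp (hψ1.continuous.comp (hRM n).continuous)).mul
      (continuous_dbar h1')).aestronglyMeasurable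
  · intro n
    refine Eventually.of_forall fun z => ?_
    rw [norm_mul, norm_real]
    by_cases hz : z ∈ tsupport φ
    · refine mul_le_mul_of_nonneg_right ?_ (norm_nonneg _)
      refine (hψL _).trans ?_
      have := mul_le_mul_of_nonneg_left (hRMb n z hz) hC0
      linarith
    · rw [dbar_eq_zero_of_notMem hz]
      simp
  · refine Eventually.of_forall fun z => ?_
    refine Tendsto.mul_const _ ?_
    have a1 : Tendsto (fun n => RM n w z) atTop (𝓝 (w z)) := RM_tendsto' hwc z
    have a2 : Tendsto (fun n => ψ (RM n w z)) atTop (𝓝 (ψ (w z))) :=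
      (hψ1.continuous.tendsto (w z)).comp a1
    exact (continuous_ofReal.tendsto (ψ (w z))).comp a2

/-- chain rule, integrable version -/
theorem WD.comp_aux {U : Set ℂ} {w : ℂ → ℝ} {g : ℂ → ℂ} {ψ ψ' : ℝ → ℝ}
    (hw : WD U (fun z => (w z : ℂ)) g) (hU : IsOpen U) (hwc : Continuous w) (hg : Integrable g)
    (hψ : ∀ t, HasDerivAt ψ (ψ' t) t) (hψ' : Continuous ψ') {C : ℝ} (hC : ∀ t, |ψ' t| ≤ C) :
    WD U (fun z => (ψ (w z) : ℂ)) (fun z => (ψ' (w z) : ℂ) * g z) := by
  intro φ h1 h2 h3
  have hψ1 : ContDiff ℝ 1 ψ := contDiff_one_iff_deriv.2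
    ⟨fun t => (hψ t).differentiableAt, by
      rw [show deriv ψ = ψ' from funext fun t => (hψ t).deriv]; exact hψ'⟩
  have h1' : ContDiff ℝ 1 φ := h1.of_le (by exact_mod_cast le_top)
  have hwl : LocallyIntegrable (fun z => (w z : ℂ)) :=
    (continuous_ofReal.comp hwc).locallyIntegrable
  have hRM : ∀ n, ContDiff ℝ 1 (RM n w) := by
    intro n
    have h := CM_contDiff n hwl
    have e : RM n w = fun z => (CM n (fun z => (w z : ℂ)) z).re := by
      funext z
      rw [CM_ofReal, ofReal_re]
    rw [e]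
    exact (reCLM.contDiff.comp h).of_le (by exact_mod_cast le_top)
  -- the distance from the support
  obtain ⟨δ, hδ, hδU⟩ : ∃ δ : ℝ, 0 < δ ∧ ∀ z ∈ tsupport φ, closedBall z δ ⊆ U := by
    obtain ⟨δ, hδ, h⟩ := h2.isCompact.exists_cthickening_subset_open hU h3
    refine ⟨δ, hδ, fun z hz => le_trans ?_ h⟩
    exact closedBall_subset_cthickening hz δ
  have hev : ∀ᶠ n : ℕ in atTop, 1 / ((n : ℝ) + 1) ≤ δ :=
    (tendsto_one_div_add_atTop_nhds_zero_nat.eventually (gt_mem_nhds hδ)).mono fun n hn => hn.le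
  -- the identity for the mollified function
  set hn : ℕ → ℂ → ℂ := fun n z => (ψ' (RM n w z) : ℂ) * φ z with hhn
  have hid : ∀ᶠ n : ℕ in atTop, ∫ z, (ψ (RM n w z) : ℂ) * dbar φ z =
      - ∫ t, g t * ∫ z, hn n z * (rho n (z - t) : ℂ) := by
    filter_upwards [hev] with n hn'
    have e1 := integral_mul_dbar (F := fun z => (ψ (RM n w z) : ℂ))
      (ofRealCLM.contDiff.comp (hψ1.comp (hRM n))) h1' h2
    rw [e1]
    congr 1
    have e2 : ∀ z, dbar (fun z => (ψ (RM n w z) : ℂ)) z * φ z = ∫ t, hn n z * (g t * (rho n (z - t) : ℂ)) := by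
      intro z
      rw [integral_const_mul]
      by_cases hz : z ∈ tsupport φ
      · have e3 := dbar_CM_of_WD hw hwl n ((closedBall_subset_closedBall hn').trans (hδU z hz))
        have e4 : CM n (fun z => (w z : ℂ)) = fun z => (RM n w z : ℂ) :=
          funext fun z => CM_ofReal n w z
        rw [e4] at e3
        have e5 : dbar (fun z => (ψ (RM n w z) : ℂ)) z =
            (ψ' (RM n w z) : ℂ) * dbar (fun z => (RM n w z : ℂ)) z := by
          have hd : DifferentiableAt ℝ (RM n w) z := (hRM n).differentiable (by norm_num) z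
          have f1 : HasFDerivAt (fun z => (RM n w z : ℂ)) (ofRealCLM.comp (fderiv ℝ (RM n w) z)) z :=
            ofRealCLM.hasFDerivAt.comp z hd.hasFDerivAt
          have f2 : HasFDerivAt (fun z => (ψ (RM n w z) : ℂ))
              (ofRealCLM.comp (ψ' (RM n w z) • fderiv ℝ (RM n w) z)) z :=
            ofRealCLM.hasFDerivAt.comp z ((hψ (RM n w z)).comp_hasFDerivAt z hd.hasFDerivAt)
          unfold dbar
          rw [f1.fderiv, f2.fderiv]
          simp
          ring
        rw [e5, e3, hhn]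
        unfold CM
        ring
      · rw [image_eq_zero_of_notMem_tsupport hz, hhn]
        simp [image_eq_zero_of_notMem_tsupport hz]
    simp_rw [e2]
    rw [integral_integral_swap]
    · congr 1
      ext t
      rw [← integral_const_mul]
      congr 1
      ext z
      ring
    · -- integrability on the product
      have hci : Integrable (hn n) := by
        refine Continuous.integrable_of_hasCompactSupport ?_ (h2.mul_left)
        exact (continuous_ofReal.comp (hψ'.comp (hRM n).continuous)).mul h1.continuous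
      have hp : Integrable (fun p : ℂ × ℂ => hn n p.1 * g p.2) (volume.prod volume) :=
        hci.mul_prod hg
      have hcont : Continuous (fun p : ℂ × ℂ => (rho n (p.1 - p.2) : ℂ)) :=
        continuous_ofReal.comp ((rho_contDiff n).continuous.comp (continuous_fst.sub continuous_snd))
      obtain ⟨B, hB⟩ := (rho_compact n).exists_bound_of_continuous (rho_contDiff n).continuous
      have := hp.mul_bdd (c := B) hcont.aestronglyMeasurable (Eventually.of_forall fun p => by
        rw [norm_real]; exact hB _)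
      refine this.congr (Eventually.of_forall fun p => ?_)
      simp only [Function.uncurry]
      ring
  -- pass to the limit
  have hCφ : ∃ B, ∀ z, ‖φ z‖ ≤ B := h2.exists_bound_of_continuous h1.continuous
  obtain ⟨B, hB⟩ := hCφ
  have hC0 : 0 ≤ C := (abs_nonneg _).trans (hC 0)
  have hB0 : 0 ≤ B := (norm_nonneg _).trans (hB 0)
  have hnb : ∀ n z, ‖hn n z‖ ≤ C * B := by
    intro n z
    rw [hhn]
    simp only [norm_mul, norm_real]
    exact mul_le_mul (hC _) (hB z) (norm_nonneg _) hC0
  have hptw : ∀ t, Tendsto (fun n => ∫ z, hn n z * (rho n (z - t) : ℂ)) atTop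
      (𝓝 ((ψ' (w t) : ℂ) * φ t)) := by
    intro t
    have hcg : Tendsto (Function.uncurry hn) (atTop ×ˢ 𝓝 t) (𝓝 ((ψ' (w t) : ℂ) * φ t)) := by
      have a1 := RM_tendsto hwc t
      have a2 : Tendsto (fun p : ℕ × ℂ => (ψ' (RM p.1 w p.2) : ℂ)) (atTop ×ˢ 𝓝 t)
          (𝓝 (ψ' (w t) : ℂ)) :=
        ((continuous_ofReal.comp hψ').tendsto _).comp a1
      have a3 : Tendsto (fun p : ℕ × ℂ => φ p.2) (atTop ×ˢ 𝓝 t) (𝓝 (φ t)) :=
        (h1.continuous.tendsto t).comp tendsto_snd
      exact a2.mul a3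
    have h := ContDiffBump.convolution_tendsto_right (μ := (volume : Measure ℂ))
      (φ := bb) (g := hn) (k := fun _ => t) (x₀ := t) (l := atTop) rho_out_tendsto
      (Eventually.of_forall fun n =>
        ((continuous_ofReal.comp (hψ'.comp (hRM n).continuous)).mul
          h1.continuous).aestronglyMeasurable) hcg tendsto_const_nhds
    refine h.congr fun n => ?_
    rw [convolution_lsmul_swap]
    congr 1
    ext z
    rw [real_smul, mul_comm, ← neg_sub z t]
    congr 2
    exact (bb n).normed_neg _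
  have hlim2 : Tendsto (fun n => ∫ t, g t * ∫ z, hn n z * (rho n (z - t) : ℂ)) atTop
      (𝓝 (∫ t, g t * ((ψ' (w t) : ℂ) * φ t))) := by
    refine tendsto_integral_of_dominated_convergence (fun t => ‖g t‖ * (C * B)) ?_
      (hg.norm.mul_const _) ?_ ?_
    · intro n
      refine hg.aestronglyMeasurable.mul ?_
      have hcont : Continuous (fun p : ℂ × ℂ => hn n p.2 * (rho n (p.2 - p.1) : ℂ)) := by
        have c1 : Continuous (hn n) :=
          (continuous_ofReal.comp (hψ'.comp (hRM n).continuous)).mul h1.continuous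
        have c2 : Continuous (rho n) := (rho_contDiff n).continuous
        fun_prop
      exact (hcont.stronglyMeasurable.integral_prod_right').aestronglyMeasurable
    · intro n
      refine Eventually.of_forall fun t => ?_
      rw [norm_mul]
      exact mul_le_mul_of_nonneg_left (norm_RM_smul_le (hnb n) n t) (norm_nonneg _)
    · refine Eventually.of_forall fun t => ?_
      exact (hptw t).const_mul (g t)
  have hlim1 : Tendsto (fun n => ∫ z, (ψ (RM n w z) : ℂ) * dbar φ z) atTop
      (𝓝 (∫ z, (ψ (w z) : ℂ) * dbar φ z)) := by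
    exact lim_aux hwc hψ hC hψ1 hRM h1 h2
  have h5 := hlim1.congr' hid
  have h6 := tendsto_nhds_unique h5 hlim2.neg
  rw [h6]
  congr 2
  ext z
  ring

end Pool.Agent.LibHelper41.Remov
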