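import Pool.Agent.Lib_helper41.Remov.Refl3

set_option autoImplicit false

namespace Pool.Agent.LibHelper41.Remov

open MeasureTheory Metric Set Filter Topology Complex
open scoped ContDiff ComplexConjugate

theorem tendsto_eLpNorm_two_zero {G : ℕ → ℂ → ℂ} {H : ℂ → ℝ}
    (hGm : ∀ n, AEStronglyMeasurable (G n) volume) (hH : MemLp H 2 volume)
    (hb : ∀ n, ∀ᵐ z, ‖G n z‖ ≤ H z)
    (hlim : ∀ᵐ z, Tendsto (fun n => G n z) atTop (𝓝 0)) :
    Tendsto (fun n => eLpNorm (G n) 2 volume) atTop (𝓝 0) := by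
  have h1 : Tendsto (fun n => ∫⁻ z, ‖G n z‖ₑ ^ (2 : ENNReal).toReal) atTop
      (𝓝 (∫⁻ z : ℂ, (0 : ENNReal))) := by
    refine tendsto_lintegral_of_dominated_convergence' (fun z => ‖H z‖ₑ ^ (2 : ENNReal).toReal)
      ?_ ?_ ?_ ?_
    · intro n
      exact (hGm n).enorm.pow_const _
    · intro n
      filter_upwards [hb n] with z hz
      gcongr
      rw [← ofReal_norm, ← ofReal_norm]
      exact ENNReal.ofReal_le_ofReal (hz.trans (le_abs_self _))
    · exact ((eLpNorm_lt_top_iff_lintegral_rpow_enorm_lt_top two_ne_zero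
        ENNReal.ofNat_ne_top).1 hH.2).ne
    · filter_upwards [hlim] with z hz
      have h2 : Tendsto (fun n => ‖G n z‖ₑ) atTop (𝓝 0) := by
        have := (continuous_enorm.tendsto (0 : ℂ)).comp hz
        simpa [Function.comp_def] using this
      have h3 := ((ENNReal.continuous_rpow_const (y := (2 : ENNReal).toReal)).tendsto 0).comp h2
      simpa [Function.comp_def] using h3
  rw [lintegral_zero] at h1
  have h4 := ((ENNReal.continuous_rpow_const (y := 1 / (2 : ENNReal).toReal)).tendsto 0).comp h1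
  have h5 : (0 : ENNReal) ^ (1 / (2 : ENNReal).toReal) = 0 := by
    rw [ENNReal.zero_rpow_of_pos]
    simp
  rw [h5] at h4
  refine h4.congr fun n => ?_
  rw [eLpNorm_eq_lintegral_rpow_enorm_toReal two_ne_zero ENNReal.ofNat_ne_top]
  rfl

theorem one_ball {F : Set ℂ} (hF : IsClosed F) (hF0 : volume F = 0) {u : ℂ → ℝ} {g : ℂ → ℂ}
    (hu : Continuous u) (hg : MemLp g 2 volume) (hw : WD Fᶜ (fun z => (u z : ℂ)) g)
    {c : ℂ} {ρ : ℝ} (hρ : 0 ≤ ρ) (hb : Disjoint (ball c ρ) F) {O : Set ℂ} (hO : IsOpen O)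
    (hFO : closedBall c ρ ∩ F ⊆ O) {ε : ℝ} (hε : 0 < ε) :
    ∃ (u' : ℂ → ℝ) (g' : ℂ → ℂ) (V : Set ℂ), Continuous u' ∧ MemLp g' 2 volume ∧ IsOpen V ∧
      closedBall c ρ ∩ F ⊆ V ∧ (∀ z, |u' z - u z| ≤ ε) ∧
      eLpNorm (g' - g) 2 volume ≤ ENNReal.ofReal ε ∧ (∀ z, z ∉ O → u' z = u z) ∧
      WD (F \ V)ᶜ (fun z => (u' z : ℂ)) g' := by
  have hbF : ball c ρ ⊆ Fᶜ := fun z hz hzF => (Set.disjoint_left.1 hb) hz hzF
  obtain ⟨ub, gb, hubc, hgb, hube, hwb⟩ := exists_reflect hu hg hρ (hw.mono hbF)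
  set w : ℂ → ℝ := fun z => u z - ub z with hwdef
  set h : ℂ → ℂ := fun z => g z - gb z with hh
  have hwc : Continuous w := hu.sub hubc
  have hhL : MemLp h 2 volume := hg.sub hgb
  have hgl := locallyIntegrable_of_memLp_two hg
  have hgbl := locallyIntegrable_of_memLp_two hgb
  have hhl := locallyIntegrable_of_memLp_two hhL
  have huC : Continuous fun z => (u z : ℂ) := continuous_ofReal.comp hu
  have hubC : Continuous fun z => (ub z : ℂ) := continuous_ofReal.comp hubc
  have hW : WD Fᶜ (fun z => (w z : ℂ)) h := by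
    have := hw.sub (hwb.mono (subset_univ _)) huC hubC hgl hgbl
    refine this.congr (fun z _ => ?_) (Eventually.of_forall fun _ _ => rfl)
    simp [hwdef]
  have hT : IsCompact (closedBall c ρ ∩ F) := (isCompact_closedBall c ρ).inter_right hF
  obtain ⟨χ, hχ, hχc, hχO, hχr, W, hWo, hTW, hWO, hχ1⟩ := exists_smooth_cutoff hT hO hFO
  have hae0 := hW.ae_zero hF.isOpen_compl hwc hhl
  have hFae : ∀ᵐ z : ℂ, z ∉ F := by
    rw [ae_iff]
    simpa using hF0
  have hae : ∀ᵐ z, w z = 0 → h z = 0 := by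
    filter_upwards [hae0, hFae] with z h1 h2
    exact h1 h2
  have hχC : ContDiff ℝ ∞ (fun z => (χ z : ℂ)) := ofRealCLM.contDiff.comp hχ
  have hχC' : ContDiff ℝ 1 (fun z => (χ z : ℂ)) := hχC.of_le (by exact_mod_cast le_top)
  have hχCc : HasCompactSupport (fun z => (χ z : ℂ)) :=
    hχc.comp_left (g := fun t : ℝ => (t : ℂ)) (by simp)
  have hdχL : MemLp (dbar fun z => (χ z : ℂ)) 2 volume :=
    (continuous_dbar hχC').memLp_of_hasCompactSupport (hasCompactSupport_dbar hχCc)
  set d : ℕ → ℝ := fun n => 1 / ((n : ℝ) + 1) with hd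
  have hd0 : ∀ n, 0 < d n := fun n => by positivity
  have hdt : Tendsto d atTop (𝓝 0) := tendsto_one_div_add_atTop_nhds_zero_nat
  have hd1 : ∀ n, d n ≤ 1 := by
    intro n
    simp only [hd]
    rw [div_le_one (by positivity)]
    have : (0 : ℝ) ≤ n := Nat.cast_nonneg n
    linarith
  set G : ℕ → ℂ → ℂ := fun n z => (χ z : ℂ) * ((clD (d n) (w z) : ℂ) * h z) +
    (cl (d n) (w z) : ℂ) * dbar (fun z => (χ z : ℂ)) z with hG
  have hclDm : ∀ n, AEStronglyMeasurable (fun z => (clD (d n) (w z) : ℂ)) volume := fun n =>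
    (measurable_ofReal.comp ((measurable_clD _).comp hwc.measurable)).aestronglyMeasurable
  have hclc : ∀ n, Continuous (fun z => (cl (d n) (w z) : ℂ)) := fun n =>
    continuous_ofReal.comp ((cl_continuous _).comp hwc)
  have hclDL : ∀ n, MemLp (fun z => (clD (d n) (w z) : ℂ) * h z) 2 volume := by
    intro n
    refine hhL.of_le ((hclDm n).mul hhL.1) (Eventually.of_forall fun z => ?_)
    rw [norm_mul, norm_real]
    exact mul_le_of_le_one_left (norm_nonneg _) (abs_clD_le _ _)
  have hχn : ∀ z, ‖(χ z : ℂ)‖ ≤ 1 := fun z => by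
    rw [norm_real, Real.norm_eq_abs, abs_of_nonneg (hχr z).1]
    exact (hχr z).2
  have hGm : ∀ n, AEStronglyMeasurable (G n) volume := fun n =>
    (hχC.continuous.aestronglyMeasurable.mul (hclDL n).1).add
      ((hclc n).mul (continuous_dbar hχC')).aestronglyMeasurable
  have hHL : MemLp (fun z => ‖h z‖ + ‖dbar (fun z => (χ z : ℂ)) z‖) 2 volume :=
    hhL.norm.add hdχL.norm
  have hGb : ∀ n z, ‖G n z‖ ≤ ‖h z‖ + ‖dbar (fun z => (χ z : ℂ)) z‖ := by
    intro n z
    refine (norm_add_le _ _).trans (add_le_add ?_ ?_)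
    · rw [norm_mul, norm_mul, norm_real, norm_real]
      have h1 := abs_clD_le (d n) (w z)
      have h2 := hχn z
      rw [norm_real] at h2
      calc ‖χ z‖ * (‖clD (d n) (w z)‖ * ‖h z‖) ≤ 1 * (1 * ‖h z‖) := by gcongr; exact h1
        _ = ‖h z‖ := by ring
    · rw [norm_mul, norm_real]
      exact mul_le_of_le_one_left (norm_nonneg _) ((abs_cl_le (hd0 n).le _).trans (hd1 n))
  have hGlim : ∀ᵐ z, Tendsto (fun n => G n z) atTop (𝓝 0) := by
    filter_upwards [hae] with z hz
    have t1 : Tendsto (fun n => (clD (d n) (w z) : ℂ) * h z) atTop (𝓝 0) := by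
      by_cases hz0 : w z = 0
      · rw [hz hz0]
        simp
      · refine tendsto_const_nhds.congr' ?_
        filter_upwards [hdt.eventually (gt_mem_nhds (abs_pos.2 hz0))] with n hn
        rw [clD_of_gt (hd0 n).le hn]
        simp
    have t2 : Tendsto (fun n => (cl (d n) (w z) : ℂ)) atTop (𝓝 0) := by
      have : Tendsto (fun n => cl (d n) (w z)) atTop (𝓝 0) := by
        rw [tendsto_iff_dist_tendsto_zero]
        refine squeeze_zero (fun _ => dist_nonneg) (fun n => ?_) hdt
        rw [Real.dist_eq, sub_zero]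
        exact abs_cl_le (hd0 n).le _
      have h0 := (continuous_ofReal.tendsto (0 : ℝ)).comp this
      simpa [Function.comp_def] using h0
    have t3 := (t1.const_mul (χ z : ℂ)).add (t2.mul_const (dbar (fun z => (χ z : ℂ)) z))
    simpa using t3
  have hlim := tendsto_eLpNorm_two_zero hGm hHL (fun n => Eventually.of_forall (hGb n)) hGlim
  obtain ⟨n, hn1, hn2⟩ : ∃ n, eLpNorm (G n) 2 volume ≤ ENNReal.ofReal ε ∧ d n ≤ ε := by
    have e1 : ∀ᶠ n in atTop, eLpNorm (G n) 2 volume ≤ ENNReal.ofReal ε :=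
      (hlim.eventually (gt_mem_nhds (ENNReal.ofReal_pos.2 hε))).mono fun n hn => hn.le
    have e2 : ∀ᶠ n in atTop, d n ≤ ε := (hdt.eventually (gt_mem_nhds hε)).mono fun n hn => hn.le
    exact (e1.and e2).exists
  have hGL : MemLp (G n) 2 volume := hHL.of_le (hGm n) (Eventually.of_forall fun z => by
    rw [Real.norm_eq_abs, abs_of_nonneg (by positivity)]
    exact hGb n z)
  have hGl := locallyIntegrable_of_memLp_two hGL
  have hclDl := locallyIntegrable_of_memLp_two (hclDL n)
  set u' : ℂ → ℝ := fun z => u z - χ z * cl (d n) (w z) with hu'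
  set g' : ℂ → ℂ := fun z => g z - G n z with hg'
  have hu'c : Continuous u' := hu.sub (hχ.continuous.mul ((cl_continuous _).comp hwc))
  have hg'L : MemLp g' 2 volume := hg.sub hGL
  refine ⟨u', g', W ∩ {z | |w z| < d n}, hu'c, hg'L, ?_, ?_, ?_, ?_, ?_, ?_⟩
  · exact hWo.inter (isOpen_lt (by fun_prop) continuous_const)
  · intro z hz
    refine ⟨hTW hz, ?_⟩
    have : w z = 0 := by
      simp only [hwdef]
      rw [hube z hz.1, sub_self]
    rw [mem_ofPred_eq, this, abs_zero]
    exact hd0 n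
  · intro z
    simp only [hu']
    rw [sub_sub_cancel_left, abs_neg, abs_mul]
    have h1 := abs_cl_le (hd0 n).le (w z)
    have h2 := hχn z
    rw [norm_real, Real.norm_eq_abs] at h2
    calc |χ z| * |cl (d n) (w z)| ≤ 1 * d n := by gcongr
      _ ≤ ε := by linarith
  · have : g' - g = - G n := by
      ext z
      simp [hg']
    rw [this, eLpNorm_neg]
    exact hn1
  · intro z hz
    simp only [hu']
    have : χ z = 0 := image_eq_zero_of_notMem_tsupport fun h => hz (hχO h)
    rw [this, zero_mul, sub_zero]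
  · have hset : (F \ (W ∩ {z | |w z| < d n}))ᶜ = Fᶜ ∪ (W ∩ {z | |w z| < d n}) := by
      ext z
      simp only [mem_compl_iff, Set.mem_sdiff, mem_union]
      tauto
    rw [hset]
    refine WD.union ?_ ?_ hF.isOpen_compl (hWo.inter (isOpen_lt (by fun_prop) continuous_const))
      (continuous_ofReal.comp hu'c) (locallyIntegrable_of_memLp_two hg'L)
    · have a1 := (hW.clamp hF.isOpen_compl hwc hhl (d n)).mul_smooth hχC (hclc n) hclDl
      have a2 := hw.sub a1 huC (hχC.continuous.mul (hclc n)) hgl hGl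
      refine a2.congr (fun z _ => ?_) (Eventually.of_forall fun _ _ => rfl)
      simp [hu']
    · refine (hwb.mono (subset_univ _)).congr (fun z hz => ?_) (Eventually.of_forall fun z hz => ?_)
      · simp only [hu']
        rw [hχ1 z hz.1, cl_of_le (le_of_lt hz.2)]
        simp [hwdef]
      · simp only [hg', hG]
        have h1 : dbar (fun z => (χ z : ℂ)) z = 0 := by
          have : (fun z => (χ z : ℂ)) =ᶠ[𝓝 z] fun _ => 1 := by
            filter_upwards [hWo.mem_nhds hz.1] with x hx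
            rw [hχ1 x hx, ofReal_one]
          rw [dbar_congr this, dbar_const]
        rw [h1, hχ1 z hz.1, clD_of_lt hz.2]
        simp [hh]

end Pool.Agent.LibHelper41.Remov
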