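import Pool.Agent.Lib_helper41.Remov.Circle

set_option autoImplicit false

namespace Pool.Agent.LibHelper41.Remov

open MeasureTheory Metric Set Filter Topology Complex
open scoped ContDiff ComplexConjugate

theorem exists_density {K : Set ℂ} (hK : IsCompact K) (h0 : volume K ≠ 0) :
    ∃ x ∈ K, ∀ δ : ℝ, 0 < δ → ∀ᶠ r in 𝓝[>] (0 : ℝ),
      volume (closedBall x r \ K) ≤ ENNReal.ofReal (δ * r ^ 2) := by
  have h := Besicovitch.ae_tendsto_measure_inter_div (volume : Measure ℂ) K
  have hne : volume.restrict K ≠ 0 := by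
    rwa [Ne, Measure.restrict_eq_zero]
  have : (ae (volume.restrict K)).NeBot := ae_neBot.2 hne
  obtain ⟨x, hx1, hx2⟩ := (h.and (ae_restrict_mem hK.measurableSet)).exists
  refine ⟨x, hx2, fun δ hδ => ?_⟩
  set δ' : ℝ := min (δ / Real.pi) (1 / 2) with hδ'
  have hδ'0 : 0 < δ' := lt_min (div_pos hδ Real.pi_pos) (by norm_num)
  have hδ'1 : δ' ≤ 1 / 2 := min_le_right _ _
  have hlt : ENNReal.ofReal (1 - δ') < 1 := by
    rw [← ENNReal.ofReal_one]
    exact (ENNReal.ofReal_lt_ofReal_iff (by norm_num)).2 (by linarith)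
  filter_upwards [hx1.eventually (lt_mem_nhds hlt), self_mem_nhdsWithin] with r hr hr0
  rw [mem_Ioi] at hr0
  have hv : volume (closedBall x r) = ENNReal.ofReal (Real.pi * r ^ 2) := by
    rw [Complex.volume_closedBall, ← ENNReal.ofReal_pow hr0.le]
    rw [show (NNReal.pi : ENNReal) = ENNReal.ofReal Real.pi by
      rw [ENNReal.ofReal, ← NNReal.coe_real_pi, Real.toNNReal_coe]]
    rw [← ENNReal.ofReal_mul (by positivity), mul_comm]
  have hvpos : 0 < Real.pi * r ^ 2 := by positivity
  have hfin : volume (closedBall x r) ≠ ⊤ := by rw [hv]; exact ENNReal.ofReal_ne_top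
  have hv0 : volume (closedBall x r) ≠ 0 := by
    rw [hv]
    exact (ENNReal.ofReal_pos.2 hvpos).ne'
  have h1 : ENNReal.ofReal (1 - δ') * volume (closedBall x r) ≤ volume (K ∩ closedBall x r) := by
    rw [ENNReal.lt_div_iff_mul_lt (Or.inl hv0) (Or.inl hfin)] at hr
    exact hr.le
  have h2 : volume (closedBall x r ∩ K) + volume (closedBall x r \ K) = volume (closedBall x r) :=
    measure_inter_add_sdiff _ hK.measurableSet
  rw [inter_comm] at h1
  have h3 : volume (closedBall x r \ K) ≤ ENNReal.ofReal (δ' * (Real.pi * r ^ 2)) := by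
    have h4 : ENNReal.ofReal (1 - δ') * volume (closedBall x r) + volume (closedBall x r \ K) ≤
        volume (closedBall x r) := by
      calc _ ≤ volume (closedBall x r ∩ K) + volume (closedBall x r \ K) := by gcongr
        _ = _ := h2
    rw [hv, ← ENNReal.ofReal_mul (by linarith)] at h4
    have h5 : volume (closedBall x r \ K) ≤ ENNReal.ofReal (Real.pi * r ^ 2) -
        ENNReal.ofReal ((1 - δ') * (Real.pi * r ^ 2)) :=
      ENNReal.le_sub_of_add_le_left ENNReal.ofReal_ne_top h4
    refine h5.trans ?_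
    rw [← ENNReal.ofReal_sub _ (mul_nonneg (by linarith) hvpos.le)]
    refine ENNReal.ofReal_le_ofReal ?_
    linarith
  refine h3.trans (ENNReal.ofReal_le_ofReal ?_)
  have : δ' ≤ δ / Real.pi := min_le_left _ _
  calc δ' * (Real.pi * r ^ 2) ≤ δ / Real.pi * (Real.pi * r ^ 2) := by gcongr
    _ = δ * r ^ 2 := by field_simp

theorem exists_radii {K : Set ℂ} (hK : IsCompact K) (h0 : volume K ≠ 0) :
    ∃ x ∈ K, ∃ r : ℕ → ℝ, (∀ k, 0 < r k) ∧ (∀ k, 2 * r (k + 1) ≤ r k) ∧
      ∀ k, volume (closedBall x (2 * r k) \ K) ≤ ENNReal.ofReal ((1 / 4) ^ k * (r k) ^ 2) := by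
  obtain ⟨x, hx, hd⟩ := exists_density hK h0
  refine ⟨x, hx, ?_⟩
  have h1 : ∀ k : ℕ, ∃ R : ℝ, 0 < R ∧ ∀ r, 0 < r → r ≤ R →
      volume (closedBall x (2 * r) \ K) ≤ ENNReal.ofReal ((1 / 4) ^ k * r ^ 2) := by
    intro k
    have h2 := hd ((1 / 4) ^ k / 4) (by positivity)
    rw [eventually_nhdsWithin_iff, Metric.eventually_nhds_iff] at h2
    obtain ⟨ε, hε, h3⟩ := h2
    refine ⟨ε / 4, by positivity, fun r hr hrR => ?_⟩
    have h4 := h3 (y := 2 * r) (by
      rw [Real.dist_eq, sub_zero, abs_of_pos (by positivity)]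
      linarith) (by rw [mem_Ioi]; positivity)
    refine h4.trans (le_of_eq ?_)
    congr 1
    ring
  choose R hR hR2 using h1
  let r : ℕ → ℝ := fun n => Nat.rec (R 0) (fun k p => min (R (k + 1)) (p / 2)) n
  have hrs : ∀ k, r (k + 1) = min (R (k + 1)) (r k / 2) := fun k => rfl
  have hr0 : ∀ k, 0 < r k := by
    intro k
    induction k with
    | zero => exact hR 0
    | succ k ih => rw [hrs]; exact lt_min (hR _) (by positivity)
  have hrR : ∀ k, r k ≤ R k := by
    intro k
    cases k with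
    | zero => exact le_rfl
    | succ k => rw [hrs]; exact min_le_left _ _
  refine ⟨r, hr0, fun k => ?_, fun k => hR2 k _ (hr0 k) (hrR k)⟩
  have := min_le_right (R (k + 1)) (r k / 2)
  rw [← hrs] at this
  linarith

/-- a fixed bump -/
noncomputable def bmp : ContDiffBump (0 : ℂ) where
  rIn := 1 / 4
  rOut := 1 / 2
  rIn_pos := by norm_num
  rIn_lt_rOut := by norm_num

noncomputable def bC (z : ℂ) : ℂ := (bmp z : ℂ)

theorem bC_contDiff : ContDiff ℝ ∞ bC := ofRealCLM.contDiff.comp bmp.contDiff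

theorem bC_tsupport : tsupport bC ⊆ closedBall 0 (1 / 2) := by
  refine (closure_minimal ?_ (isClosed_tsupport bmp)).trans bmp.tsupport_eq.subset
  intro z hz
  refine subset_tsupport bmp ?_
  intro hcon
  exact hz (by simp [bC, hcon])

theorem bC_compact : HasCompactSupport bC :=
  (isCompact_closedBall (0 : ℂ) (1 / 2)).of_isClosed_subset (isClosed_tsupport _) bC_tsupport

theorem bC_energy_pos : 0 < ∫⁻ z, ‖dbar bC z‖ₑ ^ 2 := by
  have hc1 : ContDiff ℝ 1 bC := bC_contDiff.of_le (by exact_mod_cast le_top)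
  have hcont : Continuous (dbar bC) := continuous_dbar hc1
  rw [pos_iff_ne_zero]
  intro h
  rw [lintegral_eq_zero_iff (hcont.measurable.enorm.pow_const 2)] at h
  have h1 : dbar bC =ᵐ[volume] 0 := by
    filter_upwards [h] with z hz
    simpa using hz
  have h2 : dbar bC = 0 := (hcont.ae_eq_iff_eq volume continuous_zero).1 h1
  have h3 : Differentiable ℂ bC := fun z =>
    complex_of_dbar (hc1.differentiable (by norm_num) z) (congrFun h2 z)
  have h4 : Bornology.IsBounded (range bC) :=
    (bC_compact.isCompact_range bC_contDiff.continuous).isBounded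
  have h5 := h3.apply_eq_apply_of_bounded h4 0 2
  have h6 : bC 0 = 1 := by
    unfold bC
    rw [bmp.one_of_mem_closedBall (by rw [mem_closedBall, dist_self]; exact bmp.rIn_pos.le)]
    simp
  have h7 : bC 2 = 0 := by
    apply image_eq_zero_of_notMem_tsupport
    intro hcon
    have := bC_tsupport hcon
    rw [mem_closedBall_zero_iff] at this
    norm_num at this
  rw [h6, h7] at h5
  exact one_ne_zero h5

theorem lintegral_comp_affine {ρ : ℝ} (hρ : 0 < ρ) (c : ℂ) {F : ℂ → ENNReal}
    (hF : Measurable F) :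
    ∫⁻ w : ℂ, F (ρ * w + c) = ENNReal.ofReal ((ρ ^ 2)⁻¹) * ∫⁻ z, F z := by
  have hmap : Measure.map (fun w : ℂ => ρ * w + c) volume =
      ENNReal.ofReal |(ρ ^ 2)⁻¹| • (volume : Measure ℂ) := by
    have h1 : (fun w : ℂ => ρ * w + c) = (fun x => x + c) ∘ (fun w : ℂ => ρ • w) := by
      ext w
      simp
    rw [h1, ← Measure.map_map (measurable_add_const c) (measurable_const_smul ρ),
      Measure.map_addHaar_smul volume hρ.ne', finrank_real_complex, Measure.map_smul,
      map_add_right_eq_self]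
  have hm : Measurable (fun w : ℂ => ρ * w + c) := by fun_prop
  rw [← lintegral_map hF hm, hmap, lintegral_smul_measure, smul_eq_mul,
    abs_of_pos (by positivity)]

theorem tail_bound {T a : ℕ → ℝ} (ha : Antitone a) (h0 : ∀ k, 0 ≤ T k) (h1 : ∀ k, T k ≤ a k)
    (hone : ∀ j k, T j ≠ 0 → T k ≠ 0 → j = k) (n : ℕ) :
    |(∑' k, T k) - ∑ k ∈ Finset.range n, T k| ≤ a n := by
  have han : 0 ≤ a n := (h0 n).trans (h1 n)
  by_cases hex : ∃ j, T j ≠ 0
  · obtain ⟨j, hj⟩ := hex
    have hz : ∀ k, k ≠ j → T k = 0 := fun k hk => by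
      by_contra hne
      exact hk (hone k j hne hj)
    rw [tsum_eq_single j hz]
    by_cases hjn : j < n
    · rw [Finset.sum_eq_single_of_mem j (Finset.mem_range.2 hjn) (fun k _ hk => hz k hk), sub_self,
        abs_zero]
      exact han
    · have : ∑ k ∈ Finset.range n, T k = 0 := by
        refine Finset.sum_eq_zero fun k hk => hz k ?_
        rintro rfl
        exact hjn (Finset.mem_range.1 hk)
      rw [this, sub_zero, abs_of_nonneg (h0 j)]
      exact (h1 j).trans (ha (not_lt.1 hjn))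
  · have hex' : ∀ k, T k = 0 := fun k => by
      by_contra h
      exact hex ⟨k, h⟩
    simp only [hex', tsum_zero, Finset.sum_const_zero, sub_self, abs_zero]
    exact han

end Pool.Agent.LibHelper41.Remov
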