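import Pool.Agent.Lib_helper41.Remov.PosArea

set_option autoImplicit false

namespace Pool.Agent.LibHelper41.Remov

open MeasureTheory Metric Set Filter Topology Complex
open scoped ContDiff ComplexConjugate

/-- data for the construction -/
structure Hump (K : Set ℂ) where
  x : ℂ
  hx : x ∈ K
  r : ℕ → ℝ
  r_pos : ∀ k, 0 < r k
  r_half : ∀ k, 2 * r (k + 1) ≤ r k
  small : ∀ k, volume (closedBall x (2 * r k) \ K) ≤ ENNReal.ofReal ((1 / 4) ^ k * (r k) ^ 2)

namespace Hump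

variable {K : Set ℂ} (H : Hump K)

noncomputable def y (k : ℕ) : ℂ := H.x + ((3 / 2 * H.r k : ℝ) : ℂ)
noncomputable def s (k : ℕ) : ℝ := H.r k / 2
noncomputable def d (k : ℕ) : ℂ := -(((H.s k)⁻¹ : ℝ) : ℂ) * H.y k
noncomputable def B (k : ℕ) : Set ℂ := ball (H.y k) (H.s k)
noncomputable def a (k : ℕ) : ℝ := Real.sqrt (1 / ((k : ℝ) + 1))
noncomputable def T (k : ℕ) (z : ℂ) : ℝ := a k * bmp ((((H.s k)⁻¹ : ℝ) : ℂ) * z + H.d k)
noncomputable def U (z : ℂ) : ℝ := ∑' k, H.T k z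

theorem s_pos (k : ℕ) : 0 < H.s k := half_pos (H.r_pos k)

theorem a_nonneg (k : ℕ) : 0 ≤ a k := Real.sqrt_nonneg _

theorem a_antitone : Antitone a := by
  intro i j hij
  unfold a
  have : (i : ℝ) ≤ j := by exact_mod_cast hij
  refine Real.sqrt_le_sqrt ?_
  exact one_div_le_one_div_of_le (by positivity) (by linarith)

theorem a_le_one (k : ℕ) : a k ≤ 1 := by
  have h := a_antitone (Nat.zero_le k)
  simpa [a] using h

theorem a_sq (k : ℕ) : a k ^ 2 = 1 / ((k : ℝ) + 1) := by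
  unfold a
  rw [Real.sq_sqrt (by positivity)]

theorem a_tendsto : Tendsto a atTop (𝓝 0) := by
  have h := (tendsto_one_div_add_atTop_nhds_zero_nat (𝕜 := ℝ)).sqrt
  rw [Real.sqrt_zero] at h
  exact h

theorem aff (k : ℕ) (z : ℂ) :
    (((H.s k)⁻¹ : ℝ) : ℂ) * z + H.d k = (((H.s k)⁻¹ : ℝ) : ℂ) * (z - H.y k) := by
  unfold d
  ring

theorem not_mem_of {k : ℕ} {z : ℂ} (hz : z ∉ H.B k) :
    (((H.s k)⁻¹ : ℝ) : ℂ) * z + H.d k ∉ tsupport bC := by
  intro hcon
  have h1 := bC_tsupport hcon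
  rw [mem_closedBall_zero_iff, aff, norm_mul, norm_real, Real.norm_eq_abs,
    abs_of_pos (inv_pos.2 (H.s_pos k)), inv_mul_le_iff₀ (H.s_pos k)] at h1
  refine hz ?_
  unfold B
  rw [mem_ball_iff_norm]
  have := H.s_pos k
  linarith

theorem T_eq (k : ℕ) (z : ℂ) :
    (H.T k z : ℂ) = (a k : ℂ) * bC ((((H.s k)⁻¹ : ℝ) : ℂ) * z + H.d k) := by
  unfold T bC
  push_cast
  rfl

theorem T_zero {k : ℕ} {z : ℂ} (hz : z ∉ H.B k) : H.T k z = 0 := by
  have h := H.T_eq k z
  rw [image_eq_zero_of_notMem_tsupport (H.not_mem_of hz), mul_zero] at h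
  exact_mod_cast h

theorem T_nonneg (k : ℕ) (z : ℂ) : 0 ≤ H.T k z := mul_nonneg (a_nonneg k) bmp.nonneg

theorem T_le (k : ℕ) (z : ℂ) : H.T k z ≤ a k := mul_le_of_le_one_right (a_nonneg k) bmp.le_one

theorem T_contDiff (k : ℕ) : ContDiff ℝ ∞ (H.T k) := by
  unfold T
  exact contDiff_const.mul (bmp.contDiff.comp ((contDiff_const.mul contDiff_id).add contDiff_const))

theorem dbar_T (k : ℕ) (z : ℂ) : dbar (fun z => (H.T k z : ℂ)) z =
    (a k : ℂ) * ((((H.s k)⁻¹ : ℝ) : ℂ) * dbar bC ((((H.s k)⁻¹ : ℝ) : ℂ) * z + H.d k)) := by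
  have h1 : (fun z => (H.T k z : ℂ)) =
      fun z => (a k : ℂ) * bC ((((H.s k)⁻¹ : ℝ) : ℂ) * z + H.d k) := funext (H.T_eq k)
  have h2 : Differentiable ℝ bC := bC_contDiff.differentiable (by simp)
  rw [h1, dbar_const_mul _ (differentiableAt_comp_affine _ _ _ (h2 _)), dbar_comp_affine _ _ _ (h2 _)]

theorem dbar_T_zero {k : ℕ} {z : ℂ} (hz : z ∉ H.B k) : dbar (fun z => (H.T k z : ℂ)) z = 0 := by
  rw [dbar_T, dbar_eq_zero_of_notMem (H.not_mem_of hz)]
  simp

theorem B_sub {k : ℕ} {z : ℂ} (hz : z ∈ H.B k) : H.r k < ‖z - H.x‖ ∧ ‖z - H.x‖ < 2 * H.r k := by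
  have h1 : ‖z - H.y k‖ < H.r k / 2 := by
    have := mem_ball_iff_norm.1 hz
    exact this
  have h2 : ‖H.y k - H.x‖ = 3 / 2 * H.r k := by
    unfold y
    rw [add_sub_cancel_left, norm_real, Real.norm_eq_abs, abs_of_pos]
    have := H.r_pos k
    positivity
  have h3 : z - H.x = (z - H.y k) + (H.y k - H.x) := by ring
  constructor
  · have h4 := norm_sub_norm_le (H.y k - H.x) (-(z - H.y k))
    rw [norm_neg, sub_neg_eq_add, add_comm (H.y k - H.x), ← h3, h2] at h4
    linarith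
  · rw [h3]
    have h4 := norm_add_le (z - H.y k) (H.y k - H.x)
    rw [h2] at h4
    linarith

theorem r_lt {j k : ℕ} (h : j < k) : 2 * H.r k ≤ H.r j := by
  induction k, h using Nat.le_induction with
  | base => exact H.r_half j
  | succ k hk ih =>
    have h1 := H.r_half k
    have h2 := H.r_pos k
    have h3 := H.r_pos (k + 1)
    linarith

theorem B_unique {j k : ℕ} {z : ℂ} (hj : z ∈ H.B j) (hk : z ∈ H.B k) : j = k := by
  have h1 := H.B_sub hj
  have h2 := H.B_sub hk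
  rcases lt_trichotomy j k with h | h | h
  · have := H.r_lt h
    linarith
  · exact h
  · have := H.r_lt h
    linarith

theorem r_tendsto : Tendsto H.r atTop (𝓝 0) := by
  have h1 : ∀ k, H.r k ≤ H.r 0 * (1 / 2) ^ k := by
    intro k
    induction k with
    | zero => simp
    | succ k ih =>
      have := H.r_half k
      rw [pow_succ]
      linarith
  have h2 : Tendsto (fun k : ℕ => H.r 0 * (1 / 2 : ℝ) ^ k) atTop (𝓝 0) := by
    have := (tendsto_pow_atTop_nhds_zero_of_lt_one (r := (1 / 2 : ℝ)) (by norm_num)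
      (by norm_num)).const_mul (H.r 0)
    simpa using this
  exact squeeze_zero (fun k => (H.r_pos k).le) h1 h2

theorem U_unif : TendstoUniformly (fun n z => ∑ k ∈ Finset.range n, H.T k z) H.U atTop := by
  rw [Metric.tendstoUniformly_iff]
  intro ε hε
  filter_upwards [a_tendsto.eventually (gt_mem_nhds hε)] with n hn z
  rw [Real.dist_eq]
  refine lt_of_le_of_lt (tail_bound a_antitone (fun k => H.T_nonneg k z) (fun k => H.T_le k z) ?_ n)
    hn
  intro j k hj hk
  by_contra hne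
  have h1 : z ∈ H.B j := by
    by_contra h
    exact hj (H.T_zero h)
  have h2 : z ∈ H.B k := by
    by_contra h
    exact hk (H.T_zero h)
  exact hne (H.B_unique h1 h2)

theorem U_continuous : Continuous H.U :=
  H.U_unif.continuous (Frequently.of_forall fun _ =>
    continuous_finsetSum _ fun k _ => (H.T_contDiff k).continuous)

theorem U_compact : HasCompactSupport H.U := by
  refine HasCompactSupport.intro (isCompact_closedBall H.x (2 * H.r 0)) fun z hz => ?_
  have h1 : ∀ k, H.T k z = 0 := by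
    intro k
    refine H.T_zero fun h => hz ?_
    have h2 := (H.B_sub h).2
    have h3 : H.r k ≤ H.r 0 := by
      rcases Nat.eq_zero_or_pos k with rfl | hk
      · exact le_rfl
      · have h4 := H.r_lt hk
        have h5 := H.r_pos k
        linarith
    rw [mem_closedBall_iff_norm]
    linarith
  unfold U
  simp [h1]

theorem U_eq_of_mem {k : ℕ} {z : ℂ} (hz : z ∈ H.B k) : H.U z = H.T k z := by
  unfold U
  refine tsum_eq_single k fun j hj => H.T_zero fun h => hj (H.B_unique h hz)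

theorem U_local {z : ℂ} (hz : z ≠ H.x) :
    ∃ n, H.U =ᶠ[𝓝 z] fun w => ∑ k ∈ Finset.range n, H.T k w := by
  have h0 : 0 < ‖z - H.x‖ := norm_pos_iff.2 (sub_ne_zero.2 hz)
  have h1 : ∀ᶠ n in atTop, H.r n < ‖z - H.x‖ / 4 :=
    H.r_tendsto.eventually (gt_mem_nhds (by positivity))
  obtain ⟨n, hn⟩ := h1.exists
  refine ⟨n, ?_⟩
  filter_upwards [ball_mem_nhds z (half_pos h0)] with w hw
  unfold U
  refine tsum_eq_sum fun k hk => H.T_zero fun hB => ?_
  have hk' : n ≤ k := by simpa using hk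
  have h2 := (H.B_sub hB).2
  have h3 : H.r k ≤ H.r n := by
    rcases hk'.eq_or_lt with rfl | hk
    · exact le_rfl
    · have h4 := H.r_lt hk
      have h5 := H.r_pos k
      linarith
  rw [mem_ball_iff_norm] at hw
  have h4 : ‖z - H.x‖ ≤ ‖w - H.x‖ + ‖w - z‖ := by
    have : z - H.x = (w - H.x) - (w - z) := by ring
    rw [this]
    exact norm_sub_le _ _
  linarith

theorem U_contDiffOn : ContDiffOn ℝ 1 (fun z => (H.U z : ℂ)) Kᶜ := by
  intro z hz
  have hzx : z ≠ H.x := fun h => hz (h ▸ H.hx)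
  obtain ⟨n, hn⟩ := H.U_local hzx
  have h1 : ContDiff ℝ 1 fun w => ∑ k ∈ Finset.range n, H.T k w :=
    ContDiff.sum fun k _ => (H.T_contDiff k).of_le (by exact_mod_cast le_top)
  have h2 : ContDiffAt ℝ 1 H.U z := h1.contDiffAt.congr_of_eventuallyEq hn
  exact (ofRealCLM.contDiff.contDiffAt.comp z h2).contDiffWithinAt

theorem dbar_U_of_mem {k : ℕ} {z : ℂ} (hz : z ∈ H.B k) :
    dbar (fun z => (H.U z : ℂ)) z = dbar (fun z => (H.T k z : ℂ)) z := by
  refine dbar_congr ?_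
  filter_upwards [isOpen_ball.mem_nhds hz] with w hw
  rw [H.U_eq_of_mem hw]

theorem dbar_U_of_not_mem {z : ℂ} (hzx : z ≠ H.x) (hz : ∀ k, z ∉ H.B k) :
    dbar (fun z => (H.U z : ℂ)) z = 0 := by
  obtain ⟨n, hn⟩ := H.U_local hzx
  have h1 : (fun z => (H.U z : ℂ)) =ᶠ[𝓝 z] fun w => ∑ k ∈ Finset.range n, (H.T k w : ℂ) := by
    filter_upwards [hn] with w hw
    rw [hw]
    push_cast
    rfl
  rw [dbar_congr h1, dbar_sum]
  · exact Finset.sum_eq_zero fun k _ => H.dbar_T_zero (hz k)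
  · intro k _
    exact (ofRealCLM.differentiableAt.comp z ((H.T_contDiff k).differentiable (by simp) z))

theorem B_meas (k : ℕ) : MeasurableSet (H.B k) := measurableSet_ball

theorem B_subset (k : ℕ) : H.B k ⊆ closedBall H.x (2 * H.r k) := by
  intro z hz
  rw [mem_closedBall_iff_norm]
  exact (H.B_sub hz).2.le

theorem energy_T (k : ℕ) : ∫⁻ z in H.B k, ‖dbar (fun z => (H.T k z : ℂ)) z‖ₑ ^ 2 =
    ENNReal.ofReal (1 / ((k : ℝ) + 1)) * ∫⁻ z, ‖dbar bC z‖ₑ ^ 2 := by
  have hs := H.s_pos k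
  have h1 : ∫⁻ z in H.B k, ‖dbar (fun z => (H.T k z : ℂ)) z‖ₑ ^ 2 =
      ∫⁻ z, ‖dbar (fun z => (H.T k z : ℂ)) z‖ₑ ^ 2 := by
    rw [← lintegral_indicator (H.B_meas k)]
    refine lintegral_congr fun z => ?_
    by_cases hz : z ∈ H.B k
    · rw [indicator_of_mem hz]
    · rw [indicator_of_notMem hz, H.dbar_T_zero hz]
      simp
  have hm : Measurable fun z => ‖dbar bC z‖ₑ ^ 2 := (measurable_dbar bC).enorm.pow_const 2
  have h2 := lintegral_comp_affine (inv_pos.2 hs) (H.d k) hm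
  have h3 : ∀ z, ‖dbar (fun z => (H.T k z : ℂ)) z‖ₑ ^ 2 =
      ENNReal.ofReal (1 / ((k : ℝ) + 1) * ((H.s k)⁻¹) ^ 2) *
        ‖dbar bC ((((H.s k)⁻¹ : ℝ) : ℂ) * z + H.d k)‖ₑ ^ 2 := by
    intro z
    rw [dbar_T, ← mul_assoc, enorm_mul, mul_pow, ← a_sq]
    congr 1
    rw [← ofReal_norm, ← ENNReal.ofReal_pow (norm_nonneg _)]
    congr 1
    rw [norm_mul, norm_real, norm_real, Real.norm_eq_abs, Real.norm_eq_abs, abs_of_nonneg (a_nonneg k),
      abs_of_pos (inv_pos.2 hs)]
    ring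
  rw [h1]
  simp_rw [h3]
  rw [lintegral_const_mul' _ _ ENNReal.ofReal_ne_top, h2, ← mul_assoc,
    ← ENNReal.ofReal_mul (by positivity)]
  congr 2
  field_simp

theorem exists_L : ∃ L : ℝ, 0 ≤ L ∧ ∀ z, ‖dbar bC z‖ ≤ L := by
  have hc1 : ContDiff ℝ 1 bC := bC_contDiff.of_le (by exact_mod_cast le_top)
  obtain ⟨C, hC⟩ := (hasCompactSupport_dbar bC_compact).exists_bound_of_continuous
    (continuous_dbar hc1)
  exact ⟨|C|, abs_nonneg _, fun z => (hC z).trans (le_abs_self C)⟩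

theorem energy_off (hKmeas : MeasurableSet K) : ∫⁻ z, ‖Kᶜ.indicator (dbar fun z => (H.U z : ℂ)) z‖ₑ ^ 2 < ⊤ := by
  obtain ⟨L, hL0, hL⟩ := exists_L
  have hpt : ∀ z, ‖Kᶜ.indicator (dbar fun z => (H.U z : ℂ)) z‖ₑ ^ 2 ≤
      ∑' k, (H.B k \ K).indicator (fun _ => ENNReal.ofReal ((L / H.s k) ^ 2)) z := by
    intro z
    by_cases hz : z ∈ Kᶜ
    · rw [indicator_of_mem hz]
      by_cases hex : ∃ k, z ∈ H.B k
      · obtain ⟨k, hk⟩ := hex
        refine le_trans ?_ (ENNReal.le_tsum k)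
        rw [indicator_of_mem (show z ∈ H.B k \ K from ⟨hk, hz⟩), H.dbar_U_of_mem hk, ← ofReal_norm,
          ← ENNReal.ofReal_pow (norm_nonneg _)]
        refine ENNReal.ofReal_le_ofReal ?_
        have h1 : ‖dbar (fun z => (H.T k z : ℂ)) z‖ ≤ L / H.s k := by
          rw [dbar_T, norm_mul, norm_mul, norm_real, norm_real, Real.norm_eq_abs, Real.norm_eq_abs,
            abs_of_nonneg (a_nonneg k), abs_of_pos (inv_pos.2 (H.s_pos k))]
          have h2 := hL ((((H.s k)⁻¹ : ℝ) : ℂ) * z + H.d k)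
          have h3 := inv_pos.2 (H.s_pos k)
          calc a k * ((H.s k)⁻¹ * ‖dbar bC ((((H.s k)⁻¹ : ℝ) : ℂ) * z + H.d k)‖)
              ≤ 1 * ((H.s k)⁻¹ * L) := by
                have := a_le_one k
                have := a_nonneg k
                gcongr
            _ = L / H.s k := by field_simp
        exact pow_le_pow_left₀ (norm_nonneg _) h1 2
      · have hzx : z ≠ H.x := fun h => hz (h ▸ H.hx)
        rw [H.dbar_U_of_not_mem hzx (fun k hk => hex ⟨k, hk⟩)]
        simp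
    · rw [indicator_of_notMem hz]
      simp
  refine lt_of_le_of_lt (lintegral_mono hpt) ?_
  rw [lintegral_tsum]
  · have h1 : ∀ k, ∫⁻ z, (H.B k \ K).indicator (fun _ => ENNReal.ofReal ((L / H.s k) ^ 2)) z ≤
        ENNReal.ofReal (4 * L ^ 2 * (1 / 4) ^ k) := by
      intro k
      have hs := H.s_pos k
      have hr := H.r_pos k
      refine (lintegral_indicator_const_le _ _).trans ?_
      have h2 : volume (H.B k \ K) ≤ ENNReal.ofReal ((1 / 4) ^ k * (H.r k) ^ 2) :=
        (measure_mono (sdiff_subset_sdiff_left (H.B_subset k))).trans (H.small k)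
      calc _ ≤ ENNReal.ofReal ((L / H.s k) ^ 2) * ENNReal.ofReal ((1 / 4) ^ k * (H.r k) ^ 2) := by
            gcongr
        _ = ENNReal.ofReal (4 * L ^ 2 * (1 / 4) ^ k) := by
            rw [← ENNReal.ofReal_mul (by positivity)]
            congr 1
            unfold s
            field_simp
            ring
    refine lt_of_le_of_lt (ENNReal.tsum_le_tsum h1) ?_
    rw [← ENNReal.ofReal_tsum_of_nonneg (fun k => by positivity)]
    · exact ENNReal.ofReal_lt_top
    · exact (summable_geometric_of_lt_one (by norm_num) (by norm_num)).mul_left _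
  · intro k
    have : MeasurableSet (H.B k \ K) := (H.B_meas k).diff hKmeas
    exact (measurable_const.indicator this).aemeasurable

end Hump

theorem tsum_harmonic_top : ∑' k : ℕ, ENNReal.ofReal (1 / ((k : ℝ) + 1)) = ⊤ := by
  by_contra h
  have h1 := ENNReal.summable_toReal h
  have h2 : Summable fun k : ℕ => 1 / ((k : ℝ) + 1) := by
    refine h1.congr fun k => ?_
    rw [ENNReal.toReal_ofReal (by positivity)]
  have h3 : Summable fun k : ℕ => 1 / ((k + 1 : ℕ) : ℝ) := by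
    refine h2.congr fun k => ?_
    push_cast
    rfl
  exact Real.not_summable_one_div_natCast ((summable_nat_add_iff 1).1 h3)

theorem Hump.not_rem {K : Set ℂ} (H : Hump K) (hK : IsClosed K) (hR : Rem K) : False := by
  have hKm := hK.measurableSet
  have hm : Measurable (Kᶜ.indicator (dbar fun z => (H.U z : ℂ))) :=
    (measurable_dbar _).indicator hKm.compl
  have hL2 : MemLp (Kᶜ.indicator (dbar fun z => (H.U z : ℂ))) 2 volume := by
    refine ⟨hm.aestronglyMeasurable, ?_⟩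
    rw [eLpNorm_lt_top_iff_lintegral_rpow_enorm_lt_top two_ne_zero ENNReal.ofNat_ne_top]
    simpa using H.energy_off hKm
  have hw : WD Kᶜ (fun z => (H.U z : ℂ)) (Kᶜ.indicator (dbar fun z => (H.U z : ℂ))) := by
    refine (WD.of_contDiffOn hK.isOpen_compl H.U_contDiffOn).congr (fun _ _ => rfl)
      (Eventually.of_forall fun z hz => ?_)
    rw [indicator_of_mem hz]
  obtain ⟨g', hg', hw'⟩ := hR H.U _ H.U_continuous H.U_compact hL2 hw
  have hg'fin : ∫⁻ z, ‖g' z‖ₑ ^ 2 < ⊤ := by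
    have := (eLpNorm_lt_top_iff_lintegral_rpow_enorm_lt_top two_ne_zero
      ENNReal.ofNat_ne_top).1 hg'.2
    simpa using this
  have hk : ∀ k, ∫⁻ z in H.B k, ‖g' z‖ₑ ^ 2 =
      ENNReal.ofReal (1 / ((k : ℝ) + 1)) * ∫⁻ z, ‖dbar bC z‖ₑ ^ 2 := by
    intro k
    rw [← H.energy_T k]
    have hT : ContDiff ℝ 1 (fun z => (H.T k z : ℂ)) :=
      ofRealCLM.contDiff.comp ((H.T_contDiff k).of_le (by exact_mod_cast le_top))
    have h1 : WD (H.B k) (fun z => (H.U z : ℂ)) (dbar fun z => (H.T k z : ℂ)) :=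
      (WD.of_contDiff hT).congr (fun z hz => by rw [H.U_eq_of_mem hz])
        (Eventually.of_forall fun _ _ => rfl)
    have h2 := (hw'.mono (subset_univ (H.B k))).unique isOpen_ball h1
      (locallyIntegrable_of_memLp_two hg') (continuous_dbar hT).locallyIntegrable
    refine setLIntegral_congr_fun_ae (H.B_meas k) ?_
    filter_upwards [h2] with z hz hzB
    rw [hz hzB]
  have hsum : ∑' k, ∫⁻ z in H.B k, ‖g' z‖ₑ ^ 2 ≤ ∫⁻ z, ‖g' z‖ₑ ^ 2 := by
    rw [← lintegral_iUnion H.B_meas]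
    · exact setLIntegral_le_lintegral _ _
    · intro i j hij
      rw [Function.onFun, Set.disjoint_left]
      intro z hi hj
      exact hij (H.B_unique hi hj)
  simp_rw [hk] at hsum
  rw [ENNReal.tsum_mul_right, tsum_harmonic_top, ENNReal.top_mul bC_energy_pos.ne'] at hsum
  exact absurd (lt_of_le_of_lt hsum hg'fin) (lt_irrefl _)

/-- removable compact sets have zero area -/
theorem volume_zero_of_rem {K : Set ℂ} (hK : IsCompact K) (hR : Rem K) : volume K = 0 := by
  by_contra h0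
  obtain ⟨x, hx, r, h1, h2, h3⟩ := exists_radii hK h0
  exact Hump.not_rem ⟨x, hx, r, h1, h2, h3⟩ hK.isClosed hR

end Pool.Agent.LibHelper41.Remov
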