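import Pool.Agent.Lib_helper41.Remov.Clamp

set_option autoImplicit false

namespace Pool.Agent.LibHelper41.Remov

open MeasureTheory Metric Set Filter Topology Complex
open scoped ContDiff ComplexConjugate

/-- determinant of a real linear map of the plane -/
theorem det_real_linear (L : ℂ →L[ℝ] ℂ) (a b : ℂ) (hL : ∀ h, L h = a * h + b * conj h) :
    L.det = normSq a - normSq b := by
  rw [ContinuousLinearMap.det, ← LinearMap.det_toMatrix Complex.basisOneI, Matrix.det_fin_two]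
  simp only [LinearMap.toMatrix_apply, Complex.coe_basisOneI_repr, Complex.coe_basisOneI,
    ContinuousLinearMap.coe_coe, hL]
  simp [normSq_apply]
  ring

/-- reflection in the unit circle -/
noncomputable def RR (w : ℂ) : ℂ := (conj w)⁻¹

theorem RR_RR (w : ℂ) : RR (RR w) = w := by simp [RR]

theorem norm_RR (w : ℂ) : ‖RR w‖ = ‖w‖⁻¹ := by simp [RR]

theorem RR_of_norm_eq_one {w : ℂ} (h : ‖w‖ = 1) : RR w = w := by
  unfold RR
  have h1 : w * conj w = 1 := by rw [mul_conj, normSq_eq_norm_sq, h]; simp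
  exact (eq_inv_of_mul_eq_one_left h1).symm

theorem hasFDerivAt_RR {w : ℂ} (hw : w ≠ 0) :
    HasFDerivAt RR ((-((RR w) ^ 2)) • (conjCLE : ℂ →L[ℝ] ℂ)) w := by
  have hw' : conj w ≠ 0 := (map_ne_zero _).2 hw
  have h1 : HasFDerivAt (fun z : ℂ => z⁻¹) _ (conj w) :=
    ((hasDerivAt_inv hw').hasFDerivAt).restrictScalars ℝ
  have h2 : HasFDerivAt (fun z : ℂ => conj z) (conjCLE : ℂ →L[ℝ] ℂ) w :=
    conjCLE.hasFDerivAt
  have h3 := h1.comp w h2
  refine h3.congr_fderiv ?_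
  ext h
  simp [RR, mul_comm]

theorem fderiv_RR {w : ℂ} (hw : w ≠ 0) (h : ℂ) :
    fderiv ℝ RR w h = -((RR w) ^ 2) * conj h := by
  rw [(hasFDerivAt_RR hw).fderiv]
  simp

theorem measurableSet_S : MeasurableSet {w : ℂ | w ≠ 0 ∧ ‖w‖ < 1} :=
  ((isOpen_ne (x := (0:ℂ))).inter (isOpen_lt continuous_norm continuous_const)).measurableSet

theorem RR_image : RR '' {w | w ≠ 0 ∧ ‖w‖ < 1} = {z | 1 < ‖z‖} := by
  ext z
  constructor
  · rintro ⟨w, ⟨h1, h2⟩, rfl⟩
    rw [mem_ofPred_eq, norm_RR]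
    exact (one_lt_inv₀ (norm_pos_iff.2 h1)).2 h2
  · intro hz
    rw [mem_ofPred_eq] at hz
    refine ⟨RR z, ⟨?_, ?_⟩, RR_RR z⟩
    · have : z ≠ 0 := by
        rintro rfl
        simp at hz
        linarith
      simpa [RR] using this
    · rw [norm_RR]
      exact inv_lt_one_of_one_lt₀ hz

theorem RR_inj (s : Set ℂ) : InjOn RR s := by
  intro a _ b _ h
  rw [← RR_RR a, h, RR_RR]

theorem det_RR {w : ℂ} : |(((-((RR w) ^ 2)) • (conjCLE : ℂ →L[ℝ] ℂ)) : ℂ →L[ℝ] ℂ).det| =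
    (‖w‖⁻¹) ^ 4 := by
  rw [det_real_linear _ 0 (-((RR w) ^ 2)) (fun h => by simp)]
  rw [normSq_zero, zero_sub, abs_neg, normSq_neg, map_pow, normSq_eq_norm_sq, norm_RR,
    abs_of_nonneg (by positivity)]
  ring

theorem integral_RR (F : ℂ → ℂ) :
    ∫ z in {z : ℂ | 1 < ‖z‖}, F z =
      ∫ w in {w : ℂ | w ≠ 0 ∧ ‖w‖ < 1}, ((‖w‖⁻¹) ^ 4 : ℝ) • F (RR w) := by
  rw [← RR_image, integral_image_eq_integral_abs_det_fderiv_smul volume measurableSet_S
    (fun w hw => (hasFDerivAt_RR hw.1).hasFDerivWithinAt) (RR_inj _)]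
  refine setIntegral_congr_fun measurableSet_S fun w hw => ?_
  simp only [det_RR]

theorem lintegral_RR (F : ℂ → ENNReal) :
    ∫⁻ z in {z : ℂ | 1 < ‖z‖}, F z =
      ∫⁻ w in {w : ℂ | w ≠ 0 ∧ ‖w‖ < 1}, ENNReal.ofReal ((‖w‖⁻¹) ^ 4) * F (RR w) := by
  rw [← RR_image, lintegral_image_eq_lintegral_abs_det_fderiv_mul volume measurableSet_S
    (fun w hw => (hasFDerivAt_RR hw.1).hasFDerivWithinAt) (RR_inj _)]
  refine setLIntegral_congr_fun measurableSet_S fun w hw => ?_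
  simp only [det_RR]

/-- the transformed test function -/
noncomputable def Psi (φ : ℂ → ℂ) (w : ℂ) : ℂ := φ (RR w) * (RR w) ^ 2

theorem contDiffAt_RR {w : ℂ} (hw : w ≠ 0) : ContDiffAt ℝ ∞ RR w := by
  have hw' : conj w ≠ 0 := (map_ne_zero _).2 hw
  have h1 : ContDiffAt ℝ ∞ (fun z : ℂ => conj z) w := conjCLE.contDiff.contDiffAt
  exact h1.inv hw'

theorem contDiff_Psi {φ : ℂ → ℂ} (hφ : ContDiff ℝ ∞ φ) (hc : HasCompactSupport φ) :
    ContDiff ℝ ∞ (Psi φ) := by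
  rw [contDiff_iff_contDiffAt]
  intro w
  rcases eq_or_ne w 0 with rfl | hw
  · obtain ⟨R, hR⟩ := hc.isCompact.isBounded.subset_closedBall 0
    have hR1 : (0 : ℝ) < |R| + 1 := by positivity
    have : Psi φ =ᶠ[𝓝 0] fun _ => 0 := by
      filter_upwards [ball_mem_nhds (0 : ℂ) (inv_pos.2 hR1)] with z hz
      unfold Psi
      rcases eq_or_ne z 0 with rfl | hz0
      · simp [RR]
      · have h1 : |R| + 1 < ‖RR z‖ := by
          rw [norm_RR]
          rw [mem_ball_zero_iff] at hz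
          exact (lt_inv_comm₀ (norm_pos_iff.2 hz0) hR1).1 hz
        have h2 : φ (RR z) = 0 := by
          apply image_eq_zero_of_notMem_tsupport
          intro hcon
          have := hR hcon
          rw [mem_closedBall_zero_iff] at this
          have := le_abs_self R
          linarith
        rw [h2, zero_mul]
    exact contDiffAt_const.congr_of_eventuallyEq this
  · exact (hφ.contDiffAt.comp w (contDiffAt_RR hw)).mul ((contDiffAt_RR hw).pow 2)

theorem dz_RR {w : ℂ} (hw : w ≠ 0) : dz RR w = 0 := by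
  unfold dz
  rw [fderiv_RR hw, fderiv_RR hw]
  simp only [map_one, conj_I]
  linear_combination (-(RR w) ^ 2 / 2) * I_sq

theorem dz_comp_RR {φ : ℂ → ℂ} {w : ℂ} (hw : w ≠ 0) (hφ : DifferentiableAt ℝ φ (RR w)) :
    dz (fun z => φ (RR z)) w = -(w⁻¹) ^ 2 * dbar φ (RR w) := by
  have h1 : ∀ h, fderiv ℝ (fun z => φ (RR z)) w h =
      -(dz φ (RR w)) * (RR w) ^ 2 * conj h - dbar φ (RR w) * (w⁻¹) ^ 2 * h := by
    intro h
    have h2 := (hφ.hasFDerivAt.comp w (hasFDerivAt_RR hw)).fderiv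
    have h3 : fderiv ℝ (fun z => φ (RR z)) w h = fderiv ℝ φ (RR w) (fderiv ℝ RR w h) := by
      have : (fun z => φ (RR z)) = φ ∘ RR := rfl
      rw [this, h2, (hasFDerivAt_RR hw).fderiv]
      rfl
    rw [h3, fderiv_expand, fderiv_RR hw]
    simp only [map_mul, map_neg, map_pow, conj_conj]
    have : conj (RR w) = w⁻¹ := by simp [RR]
    rw [this]
    ring
  unfold dz
  rw [h1, h1]
  simp only [map_one, conj_I, dz, dbar]
  linear_combination (((fderiv ℝ φ (RR w)) 1 + I * (fderiv ℝ φ (RR w)) I) / 4 * (w⁻¹) ^ 2 -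
    ((fderiv ℝ φ (RR w)) 1 - I * (fderiv ℝ φ (RR w)) I) / 4 * (RR w) ^ 2) * I_sq

theorem dz_Psi {φ : ℂ → ℂ} {w : ℂ} (hw : w ≠ 0) (hφ : Differentiable ℝ φ) :
    dz (Psi φ) w = -(w⁻¹) ^ 2 * dbar φ (RR w) * (RR w) ^ 2 := by
  have hR : DifferentiableAt ℝ RR w := (hasFDerivAt_RR hw).differentiableAt
  have h1 : dz (fun z => RR z ^ 2) w = 0 := by
    have : (fun z => RR z ^ 2) = fun z => RR z * RR z := by
      ext z
      ring
    rw [this, dz_mul hR hR, dz_RR hw]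
    ring
  have h2 : Psi φ = fun z => (fun z => φ (RR z)) z * (fun z => RR z ^ 2) z := rfl
  have h3 : DifferentiableAt ℝ (fun z => φ (RR z)) w := (hφ (RR w)).comp w hR
  have h4 : DifferentiableAt ℝ (fun z => RR z ^ 2) w := hR.pow 2
  rw [h2, dz_mul h3 h4, h1, dz_comp_RR hw (hφ _)]
  ring

theorem norm_inv_four {w : ℂ} : (((‖w‖⁻¹) ^ 4 : ℝ) : ℂ) = (w⁻¹) ^ 2 * (RR w) ^ 2 := by
  have h2 : w * conj w = ((‖w‖ ^ 2 : ℝ) : ℂ) := by rw [mul_conj, normSq_eq_norm_sq]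
  have h3 : (w⁻¹) * (RR w) = (((‖w‖ ^ 2)⁻¹ : ℝ) : ℂ) := by
    unfold RR
    rw [← mul_inv, h2]
    push_cast
    rfl
  rw [← mul_pow, h3]
  push_cast
  ring

/-- the pointwise identity of the change of variables -/
theorem cov_dbar {φ : ℂ → ℂ} {w : ℂ} (hw : w ≠ 0) (hφ : Differentiable ℝ φ) (c : ℂ) :
    ((‖w‖⁻¹) ^ 4 : ℝ) • (c * dbar φ (RR w)) = -(c * dz (Psi φ) w) := by
  rw [dz_Psi hw hφ, real_smul, norm_inv_four]
  ring

/-- the reflected derivative -/
noncomputable def gbar (g : ℂ → ℂ) (z : ℂ) : ℂ := -conj (g (RR z)) * (RR z) ^ 2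

theorem cov_g {φ : ℂ → ℂ} {w : ℂ} (hw : w ≠ 0) (g : ℂ → ℂ) :
    ((‖w‖⁻¹) ^ 4 : ℝ) • (gbar g (RR w) * φ (RR w)) = -(conj (g w) * Psi φ w) := by
  rw [real_smul, norm_inv_four]
  unfold gbar Psi
  rw [RR_RR]
  field_simp

/-- conjugate form of the weak equation for real functions -/
theorem WD.conj_form {U : Set ℂ} {u : ℂ → ℝ} {g : ℂ → ℂ} (hw : WD U (fun z => (u z : ℂ)) g)
    {ψ : ℂ → ℂ} (h1 : ContDiff ℝ ∞ ψ) (h2 : HasCompactSupport ψ) (h3 : tsupport ψ ⊆ U) :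
    ∫ z, (u z : ℂ) * dz ψ z = - ∫ z, conj (g z) * ψ z := by
  have h1' : ContDiff ℝ ∞ (fun z => conj (ψ z)) := conjCLE.contDiff.comp h1
  have h2' : HasCompactSupport (fun z => conj (ψ z)) :=
    h2.comp_left (g := fun z => conj z) (by simp)
  have h3' : tsupport (fun z => conj (ψ z)) ⊆ U := by
    refine (closure_minimal ?_ (isClosed_tsupport ψ)).trans h3
    intro z hz
    refine subset_tsupport ψ ?_
    intro hcon
    exact hz (by simp [hcon])
  have h := hw _ h1' h2' h3'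
  have hd : ∀ z, dbar (fun z => conj (ψ z)) z = conj (dz ψ z) := by
    intro z
    have hf : ∀ v, fderiv ℝ (fun z => conj (ψ z)) z v = conj (fderiv ℝ ψ z v) := by
      intro v
      have h4 : HasFDerivAt ψ (fderiv ℝ ψ z) z := ((h1.differentiable (by simp)) z).hasFDerivAt
      have h5 := (conjCLE.toContinuousLinearMap.hasFDerivAt (x := ψ z)).comp z h4
      have h6 : (fun z => conj (ψ z)) = (conjCLE : ℂ →L[ℝ] ℂ) ∘ ψ := by
        ext z
        simp
      rw [h6, h5.fderiv]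
      simp
    unfold dbar dz
    rw [hf, hf]
    have : conj (2 : ℂ) = 2 := by exact_mod_cast conj_ofReal 2
    simp [this]
  simp_rw [hd] at h
  have h7 := congrArg conj h
  rw [map_neg, ← integral_conj, ← integral_conj] at h7
  simpa using h7

end Pool.Agent.LibHelper41.Remov
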