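import Pool.Agent.Lib_helper41.Remov.Refl1

set_option autoImplicit false

namespace Pool.Agent.LibHelper41.Remov

open MeasureTheory Metric Set Filter Topology Complex
open scoped ContDiff ComplexConjugate

/-- radial cutoffs -/
noncomputable def cut (n : ℕ) (w : ℂ) : ℝ := Real.smoothTransition (n * (1 - ‖w‖ ^ 2) - 1)

theorem cut_contDiff (n : ℕ) : ContDiff ℝ ∞ (cut n) := by
  unfold cut
  exact Real.smoothTransition.contDiff.comp
    ((contDiff_const.mul (contDiff_const.sub (contDiff_norm_sq ℝ))).sub contDiff_const)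

theorem cut_nonneg (n : ℕ) (w : ℂ) : 0 ≤ cut n w := Real.smoothTransition.nonneg _

theorem cut_le_one (n : ℕ) (w : ℂ) : cut n w ≤ 1 := Real.smoothTransition.le_one _

theorem cut_zero {n : ℕ} {w : ℂ} (h : n * (1 - ‖w‖ ^ 2) ≤ 1) : cut n w = 0 :=
  Real.smoothTransition.zero_of_nonpos (by linarith)

theorem cut_one {n : ℕ} {w : ℂ} (h : 2 ≤ n * (1 - ‖w‖ ^ 2)) : cut n w = 1 :=
  Real.smoothTransition.one_of_one_le (by linarith)

theorem cut_tsupport {n : ℕ} : tsupport (cut n) ⊆ ball 0 1 := by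
  have h1 : tsupport (cut n) ⊆ {w : ℂ | 1 ≤ n * (1 - ‖w‖ ^ 2)} := by
    refine closure_minimal ?_ (isClosed_le continuous_const (by fun_prop))
    intro w hw
    by_contra hcon
    exact hw (cut_zero (not_le.1 hcon).le)
  intro w hw
  have := h1 hw
  rw [mem_ofPred_eq] at this
  rw [mem_ball_zero_iff]
  by_contra hcon
  have h2 : 1 - ‖w‖ ^ 2 ≤ 0 := by nlinarith
  have h3 : (n : ℝ) * (1 - ‖w‖ ^ 2) ≤ 0 := mul_nonpos_of_nonneg_of_nonpos (Nat.cast_nonneg _) h2
  linarith

theorem cut_compact {n : ℕ} : HasCompactSupport (cut n) :=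
  (isCompact_closedBall (0 : ℂ) 1).of_isClosed_subset (isClosed_tsupport _)
    ((cut_tsupport).trans ball_subset_closedBall)

theorem exists_smoothTransition_bound : ∃ C : ℝ, 0 ≤ C ∧ ∀ t, |deriv Real.smoothTransition t| ≤ C := by
  have hc : Continuous (deriv Real.smoothTransition) :=
    (Real.smoothTransition.contDiff (n := 1)).continuous_deriv le_rfl
  obtain ⟨C, hC⟩ := isCompact_Icc.exists_bound_of_continuousOn (s := Icc (0 : ℝ) 1) hc.continuousOn
  refine ⟨|C|, abs_nonneg _, fun t => ?_⟩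
  by_cases ht : t ∈ Icc (0 : ℝ) 1
  · exact (hC t ht).trans (le_abs_self C)
  · have : deriv Real.smoothTransition t = 0 := by
      rw [mem_Icc, not_and_or, not_le, not_le] at ht
      rcases ht with ht | ht
      · have : Real.smoothTransition =ᶠ[𝓝 t] fun _ => 0 := by
          filter_upwards [gt_mem_nhds ht] with s hs
          exact Real.smoothTransition.zero_of_nonpos hs.le
        rw [this.deriv_eq, deriv_const]
      · have : Real.smoothTransition =ᶠ[𝓝 t] fun _ => 1 := by
          filter_upwards [lt_mem_nhds ht] with s hs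
          exact Real.smoothTransition.one_of_one_le hs.le
        rw [this.deriv_eq, deriv_const]
    rw [this, abs_zero]
    positivity

/-- the complex cutoffs -/
noncomputable def cutC (n : ℕ) (w : ℂ) : ℂ := (cut n w : ℂ)

theorem cutC_contDiff (n : ℕ) : ContDiff ℝ ∞ (cutC n) := ofRealCLM.contDiff.comp (cut_contDiff n)

theorem fderiv_cutC (n : ℕ) (w h : ℂ) : fderiv ℝ (cutC n) w h =
    -((n * deriv Real.smoothTransition (n * (1 - ‖w‖ ^ 2) - 1) : ℝ) : ℂ) *
      (conj w * h + w * conj h) := by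
  have h1 : HasFDerivAt (fun z : ℂ => ‖z‖ ^ 2) _ w := (hasStrictFDerivAt_norm_sq w).hasFDerivAt
  have h2 : HasFDerivAt (fun z : ℂ => (n : ℝ) * (1 - ‖z‖ ^ 2) - 1) _ w :=
    ((h1.const_sub 1).const_mul (n : ℝ)).sub_const 1
  have h3 : HasDerivAt Real.smoothTransition
      (deriv Real.smoothTransition (n * (1 - ‖w‖ ^ 2) - 1)) (n * (1 - ‖w‖ ^ 2) - 1) :=
    ((Real.smoothTransition.contDiff (n := 1)).differentiable (by norm_num) _).hasDerivAt
  have h4 := h3.comp_hasFDerivAt w h2
  have h5 := (ofRealCLM.hasFDerivAt (x := cut n w)).comp w h4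
  have h6 : cutC n = ofRealCLM ∘ cut n := by
    ext z
    rfl
  rw [h6, h5.fderiv]
  have h7 : conj w * h + w * conj h = ((2 * (conj w * h).re : ℝ) : ℂ) := by
    rw [← add_conj]
    simp
  rw [h7]
  simp [innerSL_apply_apply]
  ring

theorem dbar_cutC (n : ℕ) (w : ℂ) : dbar (cutC n) w =
    -((n * deriv Real.smoothTransition (n * (1 - ‖w‖ ^ 2) - 1) : ℝ) : ℂ) * w := by
  unfold dbar
  rw [fderiv_cutC, fderiv_cutC]
  simp only [map_one, conj_I]
  linear_combination (-((n * deriv Real.smoothTransition (n * (1 - ‖w‖ ^ 2) - 1) : ℝ) : ℂ) / 2 *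
    (conj w - w)) * I_sq

theorem dz_cutC (n : ℕ) (w : ℂ) : dz (cutC n) w =
    -((n * deriv Real.smoothTransition (n * (1 - ‖w‖ ^ 2) - 1) : ℝ) : ℂ) * conj w := by
  unfold dz
  rw [fderiv_cutC, fderiv_cutC]
  simp only [map_one, conj_I]
  linear_combination (((n * deriv Real.smoothTransition (n * (1 - ‖w‖ ^ 2) - 1) : ℝ) : ℂ) / 2 *
    (conj w - w)) * I_sq

/-- the boundary combination vanishes linearly at the circle -/
theorem exists_bound_G {φ : ℂ → ℂ} (hφ : ContDiff ℝ ∞ φ) (hc : HasCompactSupport φ) :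
    ∃ C : ℝ, 0 ≤ C ∧ ∀ w, ‖w‖ ≤ 1 → ‖w * φ w - conj w * Psi φ w‖ ≤ C * (1 - ‖w‖ ^ 2) := by
  set G : ℂ → ℂ := fun w => w * φ w - conj w * Psi φ w with hG
  have hGc : ContDiff ℝ ∞ G :=
    (contDiff_id.mul hφ).sub (conjCLE.contDiff.mul (contDiff_Psi hφ hc))
  have hGd : Differentiable ℝ G := hGc.differentiable (by simp)
  have hcont : Continuous (fderiv ℝ G) := (hGc.of_le (by exact_mod_cast le_top) :
    ContDiff ℝ 1 G).continuous_fderiv (by norm_num)
  obtain ⟨C, hC⟩ := (isCompact_closedBall (0 : ℂ) 1).exists_bound_of_continuousOn hcont.continuousOn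
  refine ⟨|C|, abs_nonneg _, fun w hw => ?_⟩
  obtain ⟨e, he1, he2⟩ : ∃ e : ℂ, ‖e‖ = 1 ∧ ‖w - e‖ = 1 - ‖w‖ := by
    rcases eq_or_ne w 0 with rfl | h0
    · exact ⟨1, by simp, by simp⟩
    · have h1 : ‖w‖ ≠ 0 := norm_ne_zero_iff.2 h0
      refine ⟨(‖w‖⁻¹ : ℝ) • w, ?_, ?_⟩
      · rw [norm_smul, norm_inv, norm_norm, inv_mul_cancel₀ h1]
      · have h2 : w - (‖w‖⁻¹ : ℝ) • w = (1 - ‖w‖⁻¹ : ℝ) • w := by
          rw [sub_smul, one_smul]
        rw [h2, norm_smul, Real.norm_eq_abs]
        have h3 : 1 ≤ ‖w‖⁻¹ := (one_le_inv₀ (norm_pos_iff.2 h0)).2 hw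
        rw [abs_of_nonpos (by linarith)]
        field_simp
        ring
  have hGe : G e = 0 := by
    simp only [hG]
    have h1 : RR e = e := RR_of_norm_eq_one he1
    have h2 : e * conj e = 1 := by rw [mul_conj, normSq_eq_norm_sq, he1]; simp
    unfold Psi
    rw [h1]
    linear_combination (-(φ e) * e) * h2
  have hb := (convex_closedBall (0 : ℂ) 1).norm_image_sub_le_of_norm_fderiv_le (𝕜 := ℝ) (f := G)
    (C := |C|) (fun x _ => hGd x) (fun x hx => (hC x hx).trans (le_abs_self C))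
    (x := e) (y := w) (by simp [he1]) (by simpa using hw)
  rw [hGe, sub_zero, he2] at hb
  refine hb.trans ?_
  have h0 := norm_nonneg w
  have : 1 - ‖w‖ ≤ 1 - ‖w‖ ^ 2 := by nlinarith
  exact mul_le_mul_of_nonneg_left this (abs_nonneg _)

/-- the boundary term -/
noncomputable def bt (φ : ℂ → ℂ) (n : ℕ) (w : ℂ) : ℂ :=
  φ w * dbar (cutC n) w - Psi φ w * dz (cutC n) w

theorem bt_bound {φ : ℂ → ℂ} (hφ : ContDiff ℝ ∞ φ) (hc : HasCompactSupport φ) :
    ∃ C : ℝ, 0 ≤ C ∧ ∀ n w, ‖w‖ ≤ 1 → ‖bt φ n w‖ ≤ C := by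
  obtain ⟨C₁, hC₁, h1⟩ := exists_bound_G hφ hc
  obtain ⟨C₂, hC₂, h2⟩ := exists_smoothTransition_bound
  refine ⟨2 * C₁ * C₂, by positivity, fun n w hw => ?_⟩
  have e : bt φ n w = -((n * deriv Real.smoothTransition (n * (1 - ‖w‖ ^ 2) - 1) : ℝ) : ℂ) *
      (w * φ w - conj w * Psi φ w) := by
    unfold bt
    rw [dbar_cutC, dz_cutC]
    ring
  rw [e, norm_mul, norm_neg, norm_real, Real.norm_eq_abs, abs_mul, Nat.abs_cast]
  have h0 : 0 ≤ 1 - ‖w‖ ^ 2 := by
    have := norm_nonneg w
    nlinarith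
  rcases le_or_gt ((n : ℝ) * (1 - ‖w‖ ^ 2)) 2 with h3 | h3
  · have h4 := h1 w hw
    have h5 := h2 (n * (1 - ‖w‖ ^ 2) - 1)
    have hn : (0 : ℝ) ≤ n := Nat.cast_nonneg n
    calc (n : ℝ) * |deriv Real.smoothTransition (n * (1 - ‖w‖ ^ 2) - 1)| *
        ‖w * φ w - conj w * Psi φ w‖ ≤ n * C₂ * (C₁ * (1 - ‖w‖ ^ 2)) := by gcongr
      _ = C₁ * C₂ * (n * (1 - ‖w‖ ^ 2)) := by ring
      _ ≤ C₁ * C₂ * 2 := by gcongr
      _ = 2 * C₁ * C₂ := by ring
  · have : deriv Real.smoothTransition (n * (1 - ‖w‖ ^ 2) - 1) = 0 := by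
      have : Real.smoothTransition =ᶠ[𝓝 (n * (1 - ‖w‖ ^ 2) - 1)] fun _ => 1 := by
        filter_upwards [lt_mem_nhds (show (1 : ℝ) < n * (1 - ‖w‖ ^ 2) - 1 by linarith)] with s hs
        exact Real.smoothTransition.one_of_one_le hs.le
      rw [this.deriv_eq, deriv_const]
    rw [this, abs_zero, mul_zero, zero_mul]
    positivity

theorem tendsto_n_mul {w : ℂ} (hw : ‖w‖ < 1) :
    Tendsto (fun n : ℕ => (n : ℝ) * (1 - ‖w‖ ^ 2)) atTop atTop := by
  have h0 : 0 < 1 - ‖w‖ ^ 2 := by
    have := norm_nonneg w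
    nlinarith
  exact tendsto_natCast_atTop_atTop.atTop_mul_const h0

theorem cutC_eventually {w : ℂ} (hw : ‖w‖ < 1) : ∀ᶠ n in atTop, cutC n w = 1 := by
  filter_upwards [(tendsto_n_mul hw).eventually_ge_atTop 2] with n hn
  unfold cutC
  rw [cut_one hn]
  simp

theorem bt_eventually (φ : ℂ → ℂ) {w : ℂ} (hw : ‖w‖ < 1) : ∀ᶠ n in atTop, bt φ n w = 0 := by
  filter_upwards [(tendsto_n_mul hw).eventually_gt_atTop 2] with n hn
  have : deriv Real.smoothTransition (n * (1 - ‖w‖ ^ 2) - 1) = 0 := by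
    have : Real.smoothTransition =ᶠ[𝓝 (n * (1 - ‖w‖ ^ 2) - 1)] fun _ => 1 := by
      filter_upwards [lt_mem_nhds (show (1 : ℝ) < n * (1 - ‖w‖ ^ 2) - 1 by linarith)] with s hs
      exact Real.smoothTransition.one_of_one_le hs.le
    rw [this.deriv_eq, deriv_const]
  unfold bt
  rw [dbar_cutC, dz_cutC, this]
  simp

theorem locallyIntegrable_conj {g : ℂ → ℂ} (hg : LocallyIntegrable g) :
    LocallyIntegrable (fun z => conj (g z)) :=
  hg.mono (Complex.continuous_conj.comp_aestronglyMeasurable hg.aestronglyMeasurable)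
    (Eventually.of_forall fun z => by simp)

theorem cutC_norm_le (n : ℕ) (w : ℂ) : ‖cutC n w‖ ≤ 1 := by
  unfold cutC
  rw [norm_real, Real.norm_eq_abs, abs_of_nonneg (cut_nonneg n w)]
  exact cut_le_one n w

theorem tendsto_cut_mul {F : ℂ → ℂ} (hF : IntegrableOn F (ball 0 1)) :
    Tendsto (fun n => ∫ w in ball (0 : ℂ) 1, cutC n w * F w) atTop
      (𝓝 (∫ w in ball (0 : ℂ) 1, F w)) := by
  refine tendsto_integral_of_dominated_convergence (fun w => ‖F w‖) ?_ hF.norm ?_ ?_
  · intro n
    exact (cutC_contDiff n).continuous.aestronglyMeasurable.mul hF.aestronglyMeasurable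
  · intro n
    refine Eventually.of_forall fun w => ?_
    rw [norm_mul]
    exact mul_le_of_le_one_left (norm_nonneg _) (cutC_norm_le n w)
  · filter_upwards [ae_restrict_mem measurableSet_ball] with w hw
    refine tendsto_const_nhds.congr' ?_
    filter_upwards [cutC_eventually (mem_ball_zero_iff.1 hw)] with n hn
    rw [hn, one_mul]

/-- Step 3 : the limiting identity -/
theorem disc_identity {u : ℂ → ℝ} {g : ℂ → ℂ} (hu : Continuous u) (hg : LocallyIntegrable g)
    (hw : WD (ball 0 1) (fun z => (u z : ℂ)) g) {φ : ℂ → ℂ} (hφ : ContDiff ℝ ∞ φ)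
    (hc : HasCompactSupport φ) :
    ∫ w in ball (0 : ℂ) 1, (u w : ℂ) * (dbar φ w - dz (Psi φ) w) =
      - ∫ w in ball (0 : ℂ) 1, (g w * φ w - conj (g w) * Psi φ w) := by
  have hφ' : ContDiff ℝ 1 φ := hφ.of_le (by exact_mod_cast le_top)
  have hΨ := contDiff_Psi hφ hc
  have hΨ' : ContDiff ℝ 1 (Psi φ) := hΨ.of_le (by exact_mod_cast le_top)
  have hX : ∀ n, ContDiff ℝ ∞ (cutC n) := cutC_contDiff
  have hX' : ∀ n, ContDiff ℝ 1 (cutC n) := fun n => (hX n).of_le (by exact_mod_cast le_top)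
  have hXc : ∀ n, HasCompactSupport (cutC n) := fun n =>
    cut_compact.comp_left (g := fun t : ℝ => (t : ℂ)) (by simp)
  have hXs : ∀ n, tsupport (cutC n) ⊆ ball 0 1 := fun n => by
    refine (closure_minimal ?_ (isClosed_tsupport (cut n))).trans cut_tsupport
    intro z hz
    refine subset_tsupport (cut n) ?_
    intro hcon
    exact hz (by simp [cutC, hcon])
  have hX0 : ∀ n w, w ∉ ball (0 : ℂ) 1 → cutC n w = 0 := fun n w hw =>
    image_eq_zero_of_notMem_tsupport fun h => hw (hXs n h)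
  have hbt0 : ∀ n w, w ∉ ball (0 : ℂ) 1 → bt φ n w = 0 := fun n w hw => by
    have h1 : w ∉ tsupport (cutC n) := fun h => hw (hXs n h)
    unfold bt
    rw [dbar_eq_zero_of_notMem h1, dz_eq_zero_of_notMem h1]
    simp
  have huC : Continuous (fun z => (u z : ℂ)) := continuous_ofReal.comp hu
  -- the identity for each `n`
  have hid : ∀ n, (∫ w in ball (0 : ℂ) 1, (u w : ℂ) * bt φ n w) +
      (∫ w in ball (0 : ℂ) 1, cutC n w * ((u w : ℂ) * (dbar φ w - dz (Psi φ) w))) =
      - ∫ w in ball (0 : ℂ) 1, cutC n w * (g w * φ w - conj (g w) * Psi φ w) := by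
    intro n
    have e1 := hw (fun z => cutC n z * φ z) ((hX n).mul hφ) (hXc n).mul_right
      (tsupport_mul_subset_left.trans (hXs n))
    have e2 := hw.conj_form (ψ := fun z => cutC n z * Psi φ z) ((hX n).mul hΨ) (hXc n).mul_right
      (tsupport_mul_subset_left.trans (hXs n))
    have d1 : ∀ z, dbar (fun z => cutC n z * φ z) z = dbar (cutC n) z * φ z + cutC n z * dbar φ z :=
      fun z => dbar_mul ((hX' n).differentiable (by norm_num) z)
        (hφ'.differentiable (by norm_num) z)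
    have d2 : ∀ z, dz (fun z => cutC n z * Psi φ z) z =
        dz (cutC n) z * Psi φ z + cutC n z * dz (Psi φ) z :=
      fun z => dz_mul ((hX' n).differentiable (by norm_num) z)
        (hΨ'.differentiable (by norm_num) z)
    simp_rw [d1] at e1
    simp_rw [d2] at e2
    have i1 : Integrable fun z => (u z : ℂ) * (dbar (cutC n) z * φ z + cutC n z * dbar φ z) := by
      refine integrable_mul_of_compactSupport huC.locallyIntegrable ?_ ?_
      · exact ((continuous_dbar (hX' n)).mul hφ.continuous).add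
          ((hX n).continuous.mul (continuous_dbar hφ'))
      · exact (hasCompactSupport_dbar (hXc n)).mul_right.add (hXc n).mul_right
    have i2 : Integrable fun z => (u z : ℂ) *
        (dz (cutC n) z * Psi φ z + cutC n z * dz (Psi φ) z) := by
      refine integrable_mul_of_compactSupport huC.locallyIntegrable ?_ ?_
      · exact ((continuous_dz (hX' n)).mul hΨ.continuous).add
          ((hX n).continuous.mul (continuous_dz hΨ'))
      · exact (hasCompactSupport_dz (hXc n)).mul_right.add (hXc n).mul_right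
    have i3 : Integrable fun z => g z * (cutC n z * φ z) :=
      integrable_mul_of_compactSupport hg ((hX n).continuous.mul hφ.continuous) (hXc n).mul_right
    have i4 : Integrable fun z => conj (g z) * (cutC n z * Psi φ z) :=
      integrable_mul_of_compactSupport (locallyIntegrable_conj hg)
        ((hX n).continuous.mul hΨ.continuous) (hXc n).mul_right
    have i5 : Integrable fun z => (u z : ℂ) * bt φ n z := by
      refine integrable_mul_of_compactSupport huC.locallyIntegrable ?_ ?_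
      · unfold bt
        exact (hφ.continuous.mul (continuous_dbar (hX' n))).sub
          (hΨ.continuous.mul (continuous_dz (hX' n)))
      · refine HasCompactSupport.intro (isCompact_closedBall (0 : ℂ) 1) fun z hz => ?_
        exact hbt0 n z fun h => hz (ball_subset_closedBall h)
    have i6 : Integrable fun z => cutC n z * ((u z : ℂ) * (dbar φ z - dz (Psi φ) z)) := by
      refine Continuous.integrable_of_hasCompactSupport ?_ (hXc n).mul_right
      exact (hX n).continuous.mul (huC.mul ((continuous_dbar hφ').sub (continuous_dz hΨ')))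
    rw [setIntegral_eq_integral_of_forall_compl_eq_zero (fun w hw => by rw [hbt0 n w hw, mul_zero]),
      setIntegral_eq_integral_of_forall_compl_eq_zero (fun w hw => by rw [hX0 n w hw, zero_mul]),
      setIntegral_eq_integral_of_forall_compl_eq_zero (fun w hw => by rw [hX0 n w hw, zero_mul]),
      ← integral_add i5 i6]
    have e3 : ∫ w, ((u w : ℂ) * bt φ n w +
        cutC n w * ((u w : ℂ) * (dbar φ w - dz (Psi φ) w))) =
        (∫ z, (u z : ℂ) * (dbar (cutC n) z * φ z + cutC n z * dbar φ z)) -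
        ∫ z, (u z : ℂ) * (dz (cutC n) z * Psi φ z + cutC n z * dz (Psi φ) z) := by
      rw [← integral_sub i1 i2]
      congr 1
      ext z
      unfold bt
      ring
    have e4 : ∫ w, cutC n w * (g w * φ w - conj (g w) * Psi φ w) =
        (∫ z, g z * (cutC n z * φ z)) - ∫ z, conj (g z) * (cutC n z * Psi φ z) := by
      rw [← integral_sub i3 i4]
      congr 1
      ext z
      ring
    rw [e3, e4, e1, e2]
    ring
  have hcontB : Continuous fun w => (u w : ℂ) * (dbar φ w - dz (Psi φ) w) :=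
    huC.mul ((continuous_dbar hφ').sub (continuous_dz hΨ'))
  have hB : IntegrableOn (fun w => (u w : ℂ) * (dbar φ w - dz (Psi φ) w)) (ball 0 1) :=
    (hcontB.locallyIntegrable.integrableOn_isCompact (isCompact_closedBall (0 : ℂ) 1)).mono_set
      ball_subset_closedBall
  have hC : IntegrableOn (fun w => g w * φ w - conj (g w) * Psi φ w) (ball 0 1) := by
    have a1 : IntegrableOn (fun w => g w * φ w) (closedBall 0 1) :=
      (hg.integrableOn_isCompact (isCompact_closedBall (0 : ℂ) 1)).mul_continuousOn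
        hφ.continuous.continuousOn (isCompact_closedBall (0 : ℂ) 1)
    have a2 : IntegrableOn (fun w => conj (g w) * Psi φ w) (closedBall 0 1) :=
      ((locallyIntegrable_conj hg).integrableOn_isCompact
        (isCompact_closedBall (0 : ℂ) 1)).mul_continuousOn
        hΨ.continuous.continuousOn (isCompact_closedBall (0 : ℂ) 1)
    exact (a1.sub a2).mono_set ball_subset_closedBall
  have tA : Tendsto (fun n => ∫ w in ball (0 : ℂ) 1, (u w : ℂ) * bt φ n w) atTop (𝓝 0) := by
    obtain ⟨C, hC0, hCb⟩ := bt_bound hφ hc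
    obtain ⟨M, hM⟩ := (isCompact_closedBall (0 : ℂ) 1).exists_bound_of_continuousOn huC.continuousOn
    have h0 : ∫ w in ball (0 : ℂ) 1, (fun _ : ℂ => (0 : ℂ)) w = 0 := by simp
    refine Eq.subst (motive := fun x => Tendsto (fun n => ∫ w in ball (0 : ℂ) 1,
      (u w : ℂ) * bt φ n w) atTop (𝓝 x)) h0 ?_
    refine tendsto_integral_of_dominated_convergence (fun _ => |M| * C) ?_ ?_ ?_ ?_
    · intro n
      refine (huC.mul ?_).aestronglyMeasurable
      unfold bt
      exact (hφ.continuous.mul (continuous_dbar (hX' n))).sub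
        (hΨ.continuous.mul (continuous_dz (hX' n)))
    · rw [integrable_const_iff]
      right
      rw [isFiniteMeasure_restrict]
      exact measure_ball_lt_top.ne
    · intro n
      filter_upwards [ae_restrict_mem measurableSet_ball] with w hw
      rw [norm_mul]
      have hw' : ‖w‖ ≤ 1 := (mem_ball_zero_iff.1 hw).le
      have b1 : ‖(u w : ℂ)‖ ≤ |M| := (hM w (by simpa using hw')).trans (le_abs_self M)
      exact mul_le_mul b1 (hCb n w hw') (norm_nonneg _) (abs_nonneg _)
    · filter_upwards [ae_restrict_mem measurableSet_ball] with w hw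
      refine tendsto_const_nhds.congr' ?_
      filter_upwards [bt_eventually φ (mem_ball_zero_iff.1 hw)] with n hn
      rw [hn, mul_zero]
  have tB := tendsto_cut_mul hB
  have tC := tendsto_cut_mul hC
  have tAB := tA.add tB
  simp_rw [hid] at tAB
  rw [zero_add] at tAB
  exact tendsto_nhds_unique tAB tC.neg

end Pool.Agent.LibHelper41.Remov
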