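import Pool.Agent.Lib_helper41.Remov.Refl2

set_option autoImplicit false

namespace Pool.Agent.LibHelper41.Remov

open MeasureTheory Metric Set Filter Topology Complex
open scoped ContDiff ComplexConjugate

/-- nearest point style retraction `z ↦ z / max(1,|z|²)` -/
noncomputable def retr (z : ℂ) : ℂ := (((max 1 (‖z‖ ^ 2))⁻¹ : ℝ) : ℂ) * z

theorem retr_continuous : Continuous retr := by
  unfold retr
  refine (continuous_ofReal.comp ?_).mul continuous_id
  refine Continuous.inv₀ (by fun_prop) fun z => ?_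
  have : (1 : ℝ) ≤ max 1 (‖z‖ ^ 2) := le_max_left _ _
  exact (lt_of_lt_of_le one_pos this).ne'

theorem retr_of_le {z : ℂ} (h : ‖z‖ ≤ 1) : retr z = z := by
  unfold retr
  rw [max_eq_left (by nlinarith [norm_nonneg z])]
  simp

theorem retr_of_ge {z : ℂ} (h : 1 ≤ ‖z‖) : retr z = RR z := by
  unfold retr RR
  have h0 : z ≠ 0 := by
    rintro rfl
    simp at h
    linarith
  have h1 : conj z ≠ 0 := (map_ne_zero _).2 h0
  rw [max_eq_right (by nlinarith), ← normSq_eq_norm_sq]
  rw [eq_comm, inv_eq_iff_eq_inv, mul_inv, ← ofReal_inv, inv_inv, ← mul_conj]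
  field_simp

theorem norm_retr_le (z : ℂ) : ‖retr z‖ ≤ 1 := by
  rcases le_total ‖z‖ 1 with h | h
  · rwa [retr_of_le h]
  · rw [retr_of_ge h, norm_RR]
    exact inv_le_one_of_one_le₀ h

/-- the reflected derivative, piecewise -/
noncomputable def gref (g : ℂ → ℂ) (z : ℂ) : ℂ := (ball (0 : ℂ) 1).indicator g z +
  {z : ℂ | 1 < ‖z‖}.indicator (gbar g) z

theorem measurableSet_A : MeasurableSet {z : ℂ | 1 < ‖z‖} :=
  (isOpen_lt continuous_const continuous_norm).measurableSet

theorem measurable_RR : Measurable RR := by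
  unfold RR
  exact (Complex.continuous_conj.measurable).inv

theorem compl_ball_ae : ((ball (0 : ℂ) 1)ᶜ : Set ℂ) =ᵐ[volume] {z : ℂ | 1 < ‖z‖} := by
  have h0 : volume (sphere (0 : ℂ) 1) = 0 := Measure.addHaar_sphere _ _ _
  rw [ae_eq_set]
  constructor
  · refine measure_mono_null ?_ h0
    rintro z ⟨h1, h2⟩
    rw [mem_compl_iff, mem_ball_zero_iff, not_lt] at h1
    rw [mem_ofPred_eq, not_lt] at h2
    rw [mem_sphere_zero_iff_norm]
    exact le_antisymm h2 h1
  · refine measure_mono_null ?_ h0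
    rintro z ⟨h1, h2⟩
    rw [mem_compl_iff, not_not, mem_ball_zero_iff] at h2
    rw [mem_ofPred_eq] at h1
    exact absurd h1 (not_lt.2 h2.le)

theorem S_ae : ({w : ℂ | w ≠ 0 ∧ ‖w‖ < 1} : Set ℂ) =ᵐ[volume] ball (0 : ℂ) 1 := by
  have h0 : volume ({0} : Set ℂ) = 0 := measure_singleton 0
  rw [ae_eq_set]
  constructor
  · refine measure_mono_null ?_ h0
    rintro z ⟨⟨h0, h1⟩, h2⟩
    exact absurd (mem_ball_zero_iff.2 h1) h2
  · refine measure_mono_null ?_ h0
    rintro z ⟨h1, h2⟩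
    by_contra hcon
    exact h2 ⟨hcon, mem_ball_zero_iff.1 h1⟩

theorem memLp_gref {g : ℂ → ℂ} (hgm : Measurable g) (hg : MemLp g 2 volume) :
    MemLp (gref g) 2 volume := by
  unfold gref
  refine (hg.indicator measurableSet_ball).add ?_
  have hm : Measurable (gbar g) := by
    unfold gbar
    exact ((Complex.continuous_conj.measurable.comp (hgm.comp measurable_RR)).neg).mul
      (measurable_RR.pow_const 2)
  rw [memLp_indicator_iff_restrict measurableSet_A]
  refine ⟨hm.aestronglyMeasurable, ?_⟩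
  rw [eLpNorm_lt_top_iff_lintegral_rpow_enorm_lt_top two_ne_zero ENNReal.ofNat_ne_top]
  rw [lintegral_RR]
  have h1 : ∫⁻ w in {w : ℂ | w ≠ 0 ∧ ‖w‖ < 1}, ENNReal.ofReal ((‖w‖⁻¹) ^ 4) *
      ‖gbar g (RR w)‖ₑ ^ (2 : ENNReal).toReal =
      ∫⁻ w in {w : ℂ | w ≠ 0 ∧ ‖w‖ < 1}, ‖g w‖ₑ ^ (2 : ENNReal).toReal := by
    refine setLIntegral_congr_fun measurableSet_S fun w hw => ?_
    have hw0 : ‖w‖ ≠ 0 := norm_ne_zero_iff.2 hw.1
    simp only [ENNReal.toReal_ofNat, ENNReal.rpow_ofNat]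
    have h2 : ‖gbar g (RR w)‖ = ‖g w‖ * ‖w‖ ^ 2 := by
      unfold gbar
      rw [RR_RR]
      simp
    rw [← ofReal_norm, ← ofReal_norm, ← ENNReal.ofReal_pow (norm_nonneg _),
      ← ENNReal.ofReal_pow (norm_nonneg _), ← ENNReal.ofReal_mul (by positivity), h2]
    congr 1
    field_simp
  rw [h1]
  have h3 := (eLpNorm_lt_top_iff_lintegral_rpow_enorm_lt_top two_ne_zero
    ENNReal.ofNat_ne_top).1 hg.2
  exact lt_of_le_of_lt (setLIntegral_le_lintegral _ _) h3

/-- reflection lemma for the unit disc -/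
theorem WD_reflect_unit {u : ℂ → ℝ} {g : ℂ → ℂ} (hu : Continuous u) (hgm : Measurable g)
    (hg : MemLp g 2 volume) (hw : WD (ball 0 1) (fun z => (u z : ℂ)) g) :
    WD univ (fun z => (u (retr z) : ℂ)) (gref g) := by
  intro φ h1 h2 _
  have hgl := locallyIntegrable_of_memLp_two hg
  have h1' : ContDiff ℝ 1 φ := h1.of_le (by exact_mod_cast le_top)
  have hd : Differentiable ℝ φ := h1.differentiable (by simp)
  have hΨ := contDiff_Psi h1 h2
  have hΨ' : ContDiff ℝ 1 (Psi φ) := hΨ.of_le (by exact_mod_cast le_top)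
  have huC : Continuous (fun z => (u z : ℂ)) := continuous_ofReal.comp hu
  have hub : Continuous (fun z => (u (retr z) : ℂ)) := huC.comp retr_continuous
  have key := disc_identity hu hgl hw h1 h2
  have e1 : ∫ z, (u (retr z) : ℂ) * dbar φ z =
      ∫ w in ball (0 : ℂ) 1, (u w : ℂ) * (dbar φ w - dz (Psi φ) w) := by
    have hi : Integrable (fun z => (u (retr z) : ℂ) * dbar φ z) :=
      integral_u_dbar_integrable hub h1 h2
    rw [← integral_add_compl measurableSet_ball hi]
    have a1 : ∫ z in ball (0 : ℂ) 1, (u (retr z) : ℂ) * dbar φ z =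
        ∫ z in ball (0 : ℂ) 1, (u z : ℂ) * dbar φ z := by
      refine setIntegral_congr_fun measurableSet_ball fun z hz => ?_
      rw [retr_of_le (mem_ball_zero_iff.1 hz).le]
    have a2 : ∫ z in (ball (0 : ℂ) 1)ᶜ, (u (retr z) : ℂ) * dbar φ z =
        ∫ z in ball (0 : ℂ) 1, -((u z : ℂ) * dz (Psi φ) z) := by
      rw [setIntegral_congr_set compl_ball_ae, integral_RR, ← setIntegral_congr_set S_ae]
      refine setIntegral_congr_fun measurableSet_S fun w hw => ?_
      have hn : 1 ≤ ‖RR w‖ := by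
        rw [norm_RR]
        exact (one_le_inv₀ (norm_pos_iff.2 hw.1)).2 hw.2.le
      rw [retr_of_ge hn, RR_RR]
      exact cov_dbar hw.1 hd _
    rw [a1, a2, ← integral_add]
    · congr 1
      ext z
      ring
    · exact (huC.mul (continuous_dbar h1')).locallyIntegrable.integrableOn_isCompact
        (isCompact_closedBall (0 : ℂ) 1) |>.mono_set ball_subset_closedBall
    · exact ((huC.mul (continuous_dz hΨ')).neg.locallyIntegrable.integrableOn_isCompact
        (isCompact_closedBall (0 : ℂ) 1)).mono_set ball_subset_closedBall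
  have e2 : ∫ z, gref g z * φ z =
      ∫ w in ball (0 : ℂ) 1, (g w * φ w - conj (g w) * Psi φ w) := by
    have hi : Integrable (fun z => gref g z * φ z) :=
      integrable_mul_of_compactSupport (locallyIntegrable_of_memLp_two (memLp_gref hgm hg))
        h1.continuous h2
    rw [← integral_add_compl measurableSet_ball hi]
    have a1 : ∫ z in ball (0 : ℂ) 1, gref g z * φ z =
        ∫ z in ball (0 : ℂ) 1, g z * φ z := by
      refine setIntegral_congr_fun measurableSet_ball fun z hz => ?_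
      unfold gref
      rw [indicator_of_mem hz, indicator_of_notMem, add_zero]
      rw [mem_ofPred_eq, not_lt]
      exact (mem_ball_zero_iff.1 hz).le
    have a2 : ∫ z in (ball (0 : ℂ) 1)ᶜ, gref g z * φ z =
        ∫ z in ball (0 : ℂ) 1, -(conj (g z) * Psi φ z) := by
      rw [setIntegral_congr_set compl_ball_ae, integral_RR, ← setIntegral_congr_set S_ae]
      refine setIntegral_congr_fun measurableSet_S fun w hw => ?_
      have hn : 1 < ‖RR w‖ := by
        rw [norm_RR]
        exact (one_lt_inv₀ (norm_pos_iff.2 hw.1)).2 hw.2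
      have h3 : gref g (RR w) = gbar g (RR w) := by
        unfold gref
        rw [indicator_of_mem (show RR w ∈ {z : ℂ | 1 < ‖z‖} from hn), indicator_of_notMem,
          zero_add]
        rw [mem_ball_zero_iff, not_lt]
        exact hn.le
      rw [h3]
      exact cov_g hw.1 g
    rw [a1, a2, ← integral_add]
    · congr 1
    · exact ((hgl.integrableOn_isCompact (isCompact_closedBall (0 : ℂ) 1)).mul_continuousOn
        h1.continuous.continuousOn (isCompact_closedBall (0 : ℂ) 1)).mono_set ball_subset_closedBall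
    · exact (((locallyIntegrable_conj hgl).integrableOn_isCompact
        (isCompact_closedBall (0 : ℂ) 1)).mul_continuousOn
        hΨ.continuous.continuousOn (isCompact_closedBall (0 : ℂ) 1)).neg.mono_set
        ball_subset_closedBall
  rw [e1, e2, key]

theorem integral_comp_affine {ρ : ℝ} (hρ : 0 < ρ) (c : ℂ) (F : ℂ → ℂ) :
    ∫ w, F (ρ * w + c) = ((ρ ^ 2)⁻¹ : ℝ) • ∫ z, F z := by
  have h1 : ∫ w : ℂ, F (ρ * w + c) = ∫ w : ℂ, (fun x => F (x + c)) (ρ • w) := by
    congr 1
  rw [h1, Measure.integral_comp_smul volume (fun x => F (x + c)) ρ, finrank_real_complex,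
    integral_add_right_eq_self]
  rw [abs_of_pos (by positivity)]

theorem WD.comp_affine {U : Set ℂ} {u g : ℂ → ℂ} (hw : WD U u g) {ρ : ℝ} (hρ : 0 < ρ) (c : ℂ) :
    WD {w | ρ * w + c ∈ U} (fun w => u (ρ * w + c)) (fun w => ρ * g (ρ * w + c)) := by
  intro φ h1 h2 h3
  have hρ0 : ρ ≠ 0 := hρ.ne'
  have hρC : (ρ : ℂ) ≠ 0 := ofReal_ne_zero.2 hρ0
  set d : ℂ := -((ρ⁻¹ : ℝ) : ℂ) * c with hd
  have hinv : ∀ w : ℂ, ((ρ⁻¹ : ℝ) : ℂ) * (ρ * w + c) + d = w := by
    intro w
    rw [hd]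
    push_cast
    field_simp
    ring
  set ψ : ℂ → ℂ := fun z => φ (((ρ⁻¹ : ℝ) : ℂ) * z + d) with hψ
  have haff : Continuous fun z : ℂ => ((ρ⁻¹ : ℝ) : ℂ) * z + d := by fun_prop
  have hψ1 : ContDiff ℝ ∞ ψ := h1.comp ((contDiff_const.mul contDiff_id).add contDiff_const)
  have hts : tsupport ψ ⊆ (fun w : ℂ => ρ * w + c) '' tsupport φ := by
    have hcl : IsClosed ((fun w : ℂ => ρ * w + c) '' tsupport φ) :=
      (h2.isCompact.image (by fun_prop)).isClosed
    refine closure_minimal ?_ hcl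
    intro z hz
    refine ⟨((ρ⁻¹ : ℝ) : ℂ) * z + d, subset_tsupport φ hz, ?_⟩
    simp only [hd]
    push_cast
    field_simp
    ring
  have hψ2 : HasCompactSupport ψ :=
    (h2.isCompact.image (f := fun w : ℂ => ρ * w + c) (by fun_prop)).of_isClosed_subset
      (isClosed_tsupport ψ) hts
  have hψ3 : tsupport ψ ⊆ U := by
    refine hts.trans ?_
    rintro z ⟨w, hw, rfl⟩
    exact h3 hw
  have key := hw ψ hψ1 hψ2 hψ3
  have hdb : ∀ z, dbar ψ z = ((ρ⁻¹ : ℝ) : ℂ) * dbar φ (((ρ⁻¹ : ℝ) : ℂ) * z + d) := fun z =>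
    dbar_comp_affine ρ⁻¹ d z ((h1.differentiable (by simp)) _)
  have e1 := integral_comp_affine hρ c (fun z => u z * dbar ψ z)
  have e2 := integral_comp_affine hρ c (fun z => g z * ψ z)
  simp_rw [hdb] at e1 key
  simp only [hψ, hinv] at e1 e2 key
  have e3 : ∫ w, u (ρ * w + c) * dbar φ w =
      ρ * ∫ w, u (ρ * w + c) * (((ρ⁻¹ : ℝ) : ℂ) * dbar φ w) := by
    rw [← integral_const_mul]
    congr 1
    ext w
    push_cast
    field_simp
  have e4 : ∫ w, ρ * g (ρ * w + c) * φ w = ρ * ∫ w, g (ρ * w + c) * φ w := by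
    rw [← integral_const_mul]
    congr 1
    ext w
    ring
  rw [e3, e4, e1, e2, key]
  simp only [smul_neg, mul_neg]

theorem memLp_comp_affine {G : ℂ → ℂ} (hG : MemLp G 2 volume) {ρ : ℝ} (hρ : 0 < ρ) (c : ℂ) :
    MemLp (fun w => G (ρ * w + c)) 2 volume := by
  have hmap : Measure.map (fun w : ℂ => ρ * w + c) volume =
      ENNReal.ofReal |(ρ ^ 2)⁻¹| • (volume : Measure ℂ) := by
    have h1 : (fun w : ℂ => ρ * w + c) = (fun x => x + c) ∘ (fun w : ℂ => ρ • w) := by
      ext w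
      simp
    rw [h1, ← Measure.map_map (measurable_add_const c) (measurable_const_smul ρ),
      Measure.map_addHaar_smul volume hρ.ne', finrank_real_complex, Measure.map_smul,
      map_add_right_eq_self]
  have hm : Measurable (fun w : ℂ => ρ * w + c) := by fun_prop
  have h2 : MemLp G 2 (Measure.map (fun w : ℂ => ρ * w + c) volume) := by
    rw [hmap]
    exact hG.smul_measure ENNReal.ofReal_ne_top
  exact (memLp_map_measure_iff h2.1 hm.aemeasurable).1 h2

/-- reflection lemma for a disc of radius `≥ 0` -/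
theorem exists_reflect {u : ℂ → ℝ} {g : ℂ → ℂ} (hu : Continuous u) (hg : MemLp g 2 volume)
    {c : ℂ} {ρ : ℝ} (hρ : 0 ≤ ρ) (hw : WD (ball c ρ) (fun z => (u z : ℂ)) g) :
    ∃ (ub : ℂ → ℝ) (gb : ℂ → ℂ), Continuous ub ∧ MemLp gb 2 volume ∧
      (∀ z ∈ closedBall c ρ, ub z = u z) ∧ WD univ (fun z => (ub z : ℂ)) gb := by
  rcases hρ.eq_or_lt with rfl | hρ
  · refine ⟨fun _ => u c, fun _ => 0, continuous_const, MemLp.zero', fun z hz => ?_, ?_⟩
    · rw [closedBall_zero, mem_singleton_iff] at hz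
      rw [hz]
    · have h := WD.of_contDiff (U := univ) (u := fun _ : ℂ => (u c : ℂ)) contDiff_const
      refine h.congr (fun _ _ => rfl) (Eventually.of_forall fun z _ => dbar_const _)
  · set g₀ : ℂ → ℂ := hg.1.mk g with hg₀
    have hg₀m : Measurable g₀ := hg.1.stronglyMeasurable_mk.measurable
    have hg₀e : g =ᵐ[volume] g₀ := hg.1.ae_eq_mk
    have hg₀L : MemLp g₀ 2 volume := (memLp_congr_ae hg₀e).1 hg
    have hw₀ : WD (ball c ρ) (fun z => (u z : ℂ)) g₀ :=
      hw.congr (fun _ _ => rfl) (hg₀e.mono fun z hz _ => hz)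
    set u₁ : ℂ → ℝ := fun w => u (ρ * w + c) with hu₁
    set g₁ : ℂ → ℂ := fun w => ρ * g₀ (ρ * w + c) with hg₁
    have hu₁c : Continuous u₁ := hu.comp (by fun_prop)
    have hg₁m : Measurable g₁ := by
      have : Measurable fun w : ℂ => ρ * w + c := by fun_prop
      exact (hg₀m.comp this).const_mul _
    have hg₁L : MemLp g₁ 2 volume := (memLp_comp_affine hg₀L hρ c).const_mul _
    have hw₁ : WD (ball 0 1) (fun z => (u₁ z : ℂ)) g₁ := by
      refine (hw₀.comp_affine hρ c).mono ?_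
      intro w hw
      rw [mem_ball_zero_iff] at hw
      rw [mem_ofPred_eq, mem_ball_iff_norm, add_sub_cancel_right, norm_mul, norm_real,
        Real.norm_eq_abs, abs_of_pos hρ]
      nlinarith
    have hr := WD_reflect_unit hu₁c hg₁m hg₁L hw₁
    have hρi : 0 < ρ⁻¹ := inv_pos.2 hρ
    have hr2 := hr.comp_affine hρi (-((ρ⁻¹ : ℝ) : ℂ) * c)
    refine ⟨fun z => u₁ (retr (((ρ⁻¹ : ℝ) : ℂ) * z + -((ρ⁻¹ : ℝ) : ℂ) * c)), _, ?_, ?_, ?_,
      hr2.mono (fun z _ => mem_univ _)⟩
    · exact hu₁c.comp (retr_continuous.comp (by fun_prop))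
    · exact (memLp_comp_affine (memLp_gref hg₁m hg₁L) hρi _).const_mul _
    · intro z hz
      rw [mem_closedBall_iff_norm] at hz
      have hn : ‖((ρ⁻¹ : ℝ) : ℂ) * z + -((ρ⁻¹ : ℝ) : ℂ) * c‖ ≤ 1 := by
        have : ((ρ⁻¹ : ℝ) : ℂ) * z + -((ρ⁻¹ : ℝ) : ℂ) * c = ((ρ⁻¹ : ℝ) : ℂ) * (z - c) := by ring
        rw [this, norm_mul, norm_real, Real.norm_eq_abs, abs_of_pos hρi,
          inv_mul_le_iff₀ hρ, mul_one]
        exact hz
      simp only [hu₁]
      rw [retr_of_le hn]
      congr 1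
      have : (ρ : ℂ) ≠ 0 := ofReal_ne_zero.2 hρ.ne'
      push_cast
      field_simp
      ring

end Pool.Agent.LibHelper41.Remov
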