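import Pool.Agent.Lib_helper41.Remov.PosArea2

set_option autoImplicit false

namespace Pool.Agent.LibHelper41.Remov

open MeasureTheory Set Complex Topology Filter
open scoped ContDiff
open Pool.Agent.LibHelper41

/-- `(p, q)` is the weak gradient of `u` on the open set `U`: the integrals of `u ∂φ/∂x` and of
`u ∂φ/∂y` are minus the integrals of `p φ` and of `q φ`, for every smooth real function `φ` with
compact support in `U`. -/
def IsWeakGradient (U : Set ℂ) (u p q : ℂ → ℝ) : Prop :=
  ∀ φ : ℂ → ℝ, ContDiff ℝ ∞ φ → HasCompactSupport φ → tsupport φ ⊆ U →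
    ∫ z, u z * fderiv ℝ φ z 1 = - ∫ z, p z * φ z ∧
    ∫ z, u z * fderiv ℝ φ z I = - ∫ z, q z * φ z

/-- `u` belongs to the Sobolev space `W^{1,2}(U)`. -/
def W12 (U : Set ℂ) (u : ℂ → ℝ) : Prop :=
  MemLp u 2 (volume.restrict U) ∧ ∃ p q : ℂ → ℝ,
    MemLp p 2 (volume.restrict U) ∧ MemLp q 2 (volume.restrict U) ∧ IsWeakGradient U u p q

/-- `K` is removable for continuous `W^{1,2}` functions. -/
def SobolevRemovable (K : Set ℂ) : Prop :=
  ∀ u : ℂ → ℝ, Continuous u → W12 Kᶜ u → W12 univ u

theorem weakGradient_of_WD {U : Set ℂ} {u : ℂ → ℝ} {g : ℂ → ℂ} (hg : LocallyIntegrable g)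
    (hu : Continuous u) (hw : WD U (fun z => (u z : ℂ)) g) :
    IsWeakGradient U u (fun z => 2 * (g z).re) (fun z => 2 * (g z).im) := by
  intro φ h1 h2 h3
  have h1' : ContDiff ℝ ∞ (fun z => (φ z : ℂ)) := ofRealCLM.contDiff.comp h1
  have h2' : HasCompactSupport (fun z => (φ z : ℂ)) :=
    h2.comp_left (g := fun t : ℝ => (t : ℂ)) (by simp)
  have h3' : tsupport (fun z => (φ z : ℂ)) ⊆ U := by
    refine le_trans ?_ h3
    refine closure_minimal ?_ (isClosed_tsupport φ)
    intro z hz
    refine subset_tsupport φ ?_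
    intro hcon
    exact hz (by simp [hcon])
  have h := hw _ h1' h2' h3'
  have hfd : ∀ z v, fderiv ℝ (fun z => (φ z : ℂ)) z v = (fderiv ℝ φ z v : ℂ) := by
    intro z v
    have h4 : HasFDerivAt φ (fderiv ℝ φ z) z := ((h1.differentiable (by simp)) z).hasFDerivAt
    have h5 := (ofRealCLM.hasFDerivAt (x := φ z)).comp z h4
    have h6 : (fun z => (φ z : ℂ)) = ofRealCLM ∘ φ := rfl
    rw [h6, h5.fderiv]
    rfl
  have i1 : Integrable (fun z => (u z : ℂ) * dbar (fun z => (φ z : ℂ)) z) :=
    integral_u_dbar_integrable (continuous_ofReal.comp hu) h1' h2'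
  have i2 : Integrable (fun z => g z * (φ z : ℂ)) :=
    integrable_mul_of_compactSupport hg h1'.continuous h2'
  have hre := congrArg Complex.re h
  have him := congrArg Complex.im h
  rw [neg_re] at hre
  rw [neg_im] at him
  have e1 : (∫ z, (u z : ℂ) * dbar (fun z => (φ z : ℂ)) z).re = ∫ z, u z * fderiv ℝ φ z 1 / 2 := by
    have := integral_re (𝕜 := ℂ) i1
    simp only [RCLike.re_eq_complex_re] at this
    rw [← this]
    congr 1
    ext z
    unfold dbar
    rw [hfd, hfd]
    simp
    ring
  have e2 : (∫ z, (u z : ℂ) * dbar (fun z => (φ z : ℂ)) z).im = ∫ z, u z * fderiv ℝ φ z I / 2 := by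
    have := integral_im (𝕜 := ℂ) i1
    simp only [RCLike.im_eq_complex_im] at this
    rw [← this]
    congr 1
    ext z
    unfold dbar
    rw [hfd, hfd]
    simp
    ring
  have e3 : (∫ z, g z * (φ z : ℂ)).re = ∫ z, (g z).re * φ z := by
    have := integral_re (𝕜 := ℂ) i2
    simp only [RCLike.re_eq_complex_re] at this
    rw [← this]
    congr 1
    ext z
    simp
  have e4 : (∫ z, g z * (φ z : ℂ)).im = ∫ z, (g z).im * φ z := by
    have := integral_im (𝕜 := ℂ) i2
    simp only [RCLike.im_eq_complex_im] at this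
    rw [← this]
    congr 1
    ext z
    simp
  have e1' : (∫ z, (fun z => (u z : ℂ)) z * dbar (fun z => (φ z : ℂ)) z).re =
      ∫ z, u z * fderiv ℝ φ z 1 / 2 := e1
  have e2' : (∫ z, (fun z => (u z : ℂ)) z * dbar (fun z => (φ z : ℂ)) z).im =
      ∫ z, u z * fderiv ℝ φ z I / 2 := e2
  rw [e1', e3, integral_div] at hre
  rw [e2', e4, integral_div] at him
  constructor
  · have : ∫ z, 2 * (g z).re * φ z = 2 * ∫ z, (g z).re * φ z := by
      rw [← integral_const_mul]
      congr 1
      ext z
      ring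
    rw [this]
    linarith
  · have : ∫ z, 2 * (g z).im * φ z = 2 * ∫ z, (g z).im * φ z := by
      rw [← integral_const_mul]
      congr 1
      ext z
      ring
    rw [this]
    linarith

theorem locallyIntegrable_ofReal {p : ℂ → ℝ} (hp : LocallyIntegrable p) :
    LocallyIntegrable (fun z => (p z : ℂ)) :=
  hp.mono (continuous_ofReal.comp_aestronglyMeasurable hp.aestronglyMeasurable)
    (Eventually.of_forall fun z => by simp)

theorem WD_of_weakGradient {U : Set ℂ} {u p q : ℂ → ℝ} (hp : LocallyIntegrable p)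
    (hq : LocallyIntegrable q) (hu : Continuous u) (hw : IsWeakGradient U u p q) :
    WD U (fun z => (u z : ℂ)) (fun z => ((p z : ℂ) + I * (q z : ℂ)) / 2) := by
  intro φ h1 h2 h3
  have hdiff : Differentiable ℝ φ := h1.differentiable (by simp)
  -- real and imaginary parts of the test function
  have ha1 : ContDiff ℝ ∞ (fun z => (φ z).re) := reCLM.contDiff.comp h1
  have hb1 : ContDiff ℝ ∞ (fun z => (φ z).im) := imCLM.contDiff.comp h1
  have ha2 : HasCompactSupport (fun z => (φ z).re) :=
    h2.comp_left (g := fun t : ℂ => t.re) (by simp)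
  have hb2 : HasCompactSupport (fun z => (φ z).im) :=
    h2.comp_left (g := fun t : ℂ => t.im) (by simp)
  have ha3 : tsupport (fun z => (φ z).re) ⊆ U := by
    refine le_trans ?_ h3
    refine closure_minimal ?_ (isClosed_tsupport φ)
    intro z hz
    refine subset_tsupport φ ?_
    intro hcon
    exact hz (by simp [hcon])
  have hb3 : tsupport (fun z => (φ z).im) ⊆ U := by
    refine le_trans ?_ h3
    refine closure_minimal ?_ (isClosed_tsupport φ)
    intro z hz
    refine subset_tsupport φ ?_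
    intro hcon
    exact hz (by simp [hcon])
  obtain ⟨ea1, ea2⟩ := hw _ ha1 ha2 ha3
  obtain ⟨eb1, eb2⟩ := hw _ hb1 hb2 hb3
  have hfa : ∀ z v, fderiv ℝ (fun z => (φ z).re) z v = (fderiv ℝ φ z v).re := by
    intro z v
    have h5 := (reCLM.hasFDerivAt (x := φ z)).comp z (hdiff z).hasFDerivAt
    have h6 : (fun z => (φ z).re) = reCLM ∘ φ := rfl
    rw [h6, h5.fderiv]
    rfl
  have hfb : ∀ z v, fderiv ℝ (fun z => (φ z).im) z v = (fderiv ℝ φ z v).im := by
    intro z v
    have h5 := (imCLM.hasFDerivAt (x := φ z)).comp z (hdiff z).hasFDerivAt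
    have h6 : (fun z => (φ z).im) = imCLM ∘ φ := rfl
    rw [h6, h5.fderiv]
    rfl
  have h1' : ContDiff ℝ 1 φ := h1.of_le (by exact_mod_cast le_top)
  -- integrability of all the real pieces
  have hint : ∀ v, Integrable (fun z => (u z : ℂ) * fderiv ℝ φ z v) := fun v =>
    integrable_mul_of_compactSupport (continuous_ofReal.comp hu).locallyIntegrable
      (continuous_fderiv_apply h1' v) (hasCompactSupport_fderiv_apply h2 v)
  have hintp : Integrable (fun z => (p z : ℂ) * φ z) :=
    integrable_mul_of_compactSupport (locallyIntegrable_ofReal hp) h1.continuous h2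
  have hintq : Integrable (fun z => (q z : ℂ) * φ z) :=
    integrable_mul_of_compactSupport (locallyIntegrable_ofReal hq) h1.continuous h2
  have key : ∀ (v : ℂ) (r : ℂ → ℝ), Integrable (fun z => (r z : ℂ) * φ z) →
      (∫ z, u z * fderiv ℝ (fun z => (φ z).re) z v = - ∫ z, r z * (φ z).re) →
      (∫ z, u z * fderiv ℝ (fun z => (φ z).im) z v = - ∫ z, r z * (φ z).im) →
      ∫ z, (u z : ℂ) * fderiv ℝ φ z v = - ∫ z, (r z : ℂ) * φ z := by
    intro v r hr k1 k2
    have i1 := integral_re (𝕜 := ℂ) (hint v)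
    have i2 := integral_im (𝕜 := ℂ) (hint v)
    have i3 := integral_re (𝕜 := ℂ) hr
    have i4 := integral_im (𝕜 := ℂ) hr
    simp only [RCLike.re_eq_complex_re, RCLike.im_eq_complex_im] at i1 i2 i3 i4
    apply Complex.ext
    · rw [neg_re, ← i1, ← i3]
      simp only [hfa] at k1
      simpa using k1
    · rw [neg_im, ← i2, ← i4]
      simp only [hfb] at k2
      simpa using k2
  have k1 := key 1 p hintp ea1 eb1
  have kI := key I q hintq ea2 eb2
  have e1 : ∫ z, (fun z => (u z : ℂ)) z * dbar φ z =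
      ((∫ z, (u z : ℂ) * fderiv ℝ φ z 1) + I * ∫ z, (u z : ℂ) * fderiv ℝ φ z I) / 2 := by
    rw [← integral_const_mul, ← integral_add (hint 1) ((hint I).const_mul I), ← integral_div]
    congr 1
    ext z
    unfold dbar
    ring
  have e2 : ∫ z, (fun z => ((p z : ℂ) + I * (q z : ℂ)) / 2) z * φ z =
      ((∫ z, (p z : ℂ) * φ z) + I * ∫ z, (q z : ℂ) * φ z) / 2 := by
    rw [← integral_const_mul, ← integral_add hintp (hintq.const_mul I), ← integral_div]
    congr 1
    ext z
    ring
  rw [e1, e2, k1, kI]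
  ring

theorem rem_of_sobolev {K : Set ℂ} (h : SobolevRemovable K) : Rem K := by
  intro u g hu hc hg hw
  have hW : W12 Kᶜ u := by
    refine ⟨(hu.memLp_of_hasCompactSupport hc).restrict _, _, _, ?_, ?_,
      weakGradient_of_WD (locallyIntegrable_of_memLp_two hg) hu hw⟩
    · exact (hg.re.const_mul 2).restrict _
    · exact (hg.im.const_mul 2).restrict _
  obtain ⟨-, p, q, hp, hq, hpq⟩ := h u hu hW
  rw [Measure.restrict_univ] at hp hq
  refine ⟨_, ?_, WD_of_weakGradient (hp.locallyIntegrable (by norm_num))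
    (hq.locallyIntegrable (by norm_num)) hu hpq⟩
  have h1 : MemLp (fun z => (p z : ℂ)) 2 volume := hp.ofReal
  have h2 : MemLp (fun z => (q z : ℂ)) 2 volume := hq.ofReal
  have h3 : MemLp (fun z => (2 : ℂ)⁻¹ * ((p z : ℂ) + I * (q z : ℂ))) 2 volume :=
    (h1.add (h2.const_mul I)).const_mul _
  refine h3.congr_norm h3.1 ?_ |>.ae_eq ?_
  · exact Eventually.of_forall fun _ => rfl
  · refine Eventually.of_forall fun z => ?_
    simp only
    ring

theorem sobolev_of_rem {K : Set ℂ} (hK : IsCompact K) (h0 : volume K = 0) (h : Rem K) :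
    SobolevRemovable K := by
  intro u hu hW
  obtain ⟨hu2, p, q, hp, hq, hpq⟩ := hW
  have hKo : IsOpen Kᶜ := hK.isClosed.isOpen_compl
  have hKm : MeasurableSet Kᶜ := hKo.measurableSet
  have hr : volume.restrict Kᶜ = volume := by
    refine Measure.restrict_eq_self_of_ae_mem ?_
    rw [ae_iff]
    simpa using h0
  rw [hr] at hu2 hp hq
  have hpl := hp.locallyIntegrable (μ := volume) (by norm_num)
  have hql := hq.locallyIntegrable (μ := volume) (by norm_num)
  have hw := WD_of_weakGradient hpl hql hu hpq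
  have h1 : MemLp (fun z => (p z : ℂ)) 2 volume := hp.ofReal
  have h2 : MemLp (fun z => (q z : ℂ)) 2 volume := hq.ofReal
  set g : ℂ → ℂ := fun z => ((p z : ℂ) + I * (q z : ℂ)) / 2 with hgdef
  have hg : MemLp g 2 volume := by
    have h3 : MemLp (fun z => (2 : ℂ)⁻¹ * ((p z : ℂ) + I * (q z : ℂ))) 2 volume :=
      (h1.add (h2.const_mul I)).const_mul _
    refine h3.ae_eq (Eventually.of_forall fun z => ?_)
    simp only [hgdef]
    ring
  have hgl := locallyIntegrable_of_memLp_two hg
  obtain ⟨χ, hχ, hχc, -, hχr, W, hWo, hKW, -, hχ1⟩ := exists_smooth_cutoff hK isOpen_univ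
    (subset_univ _)
  have hχC : ContDiff ℝ ∞ (fun z => (χ z : ℂ)) := ofRealCLM.contDiff.comp hχ
  have hχC' : ContDiff ℝ 1 (fun z => (χ z : ℂ)) := hχC.of_le (by exact_mod_cast le_top)
  have hχCc : HasCompactSupport (fun z => (χ z : ℂ)) :=
    hχc.comp_left (g := fun t : ℝ => (t : ℂ)) (by simp)
  have huC : Continuous (fun z => (u z : ℂ)) := continuous_ofReal.comp hu
  have w1 := hw.mul_smooth hχC huC hgl
  have hL : MemLp (fun z => (χ z : ℂ) * g z + (u z : ℂ) * dbar (fun z => (χ z : ℂ)) z) 2 volume := by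
    refine MemLp.add ?_ ?_
    · refine hg.of_le (hχC.continuous.aestronglyMeasurable.mul hg.1)
        (Eventually.of_forall fun z => ?_)
      rw [norm_mul, norm_real, Real.norm_eq_abs, abs_of_nonneg (hχr z).1]
      exact mul_le_of_le_one_left (norm_nonneg _) (hχr z).2
    · exact (huC.mul (continuous_dbar hχC')).memLp_of_hasCompactSupport
        (hasCompactSupport_dbar hχCc).mul_left
  have w2 : WD univ (fun z => ((χ z * u z : ℝ) : ℂ))
      (fun z => (χ z : ℂ) * g z + (u z : ℂ) * dbar (fun z => (χ z : ℂ)) z) := by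
    refine h.wd hK.isClosed h0 (hχ.continuous.mul hu) hχc.mul_right hL ?_
    refine w1.congr (fun z _ => ?_) (Eventually.of_forall fun _ _ => rfl)
    push_cast
    rfl
  have w3 : WD W (fun z => (u z : ℂ)) g := by
    refine (w2.mono (subset_univ W)).congr (fun z hz => ?_) (Eventually.of_forall fun z hz => ?_)
    · rw [hχ1 z hz, one_mul]
    · have h5 : dbar (fun z => (χ z : ℂ)) z = 0 := by
        have : (fun z => (χ z : ℂ)) =ᶠ[𝓝 z] fun _ => 1 := by
          filter_upwards [hWo.mem_nhds hz] with x hx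
          rw [hχ1 x hx, ofReal_one]
        rw [dbar_congr this, dbar_const]
      rw [hχ1 z hz, h5]
      simp
  have w4 := hw.union w3 hKo hWo huC hgl
  have hset : Kᶜ ∪ W = univ := by
    ext z
    simp only [mem_union, mem_compl_iff, mem_univ, iff_true]
    by_cases hz : z ∈ K
    · exact Or.inr (hKW hz)
    · exact Or.inl hz
  rw [hset] at w4
  have hfin := weakGradient_of_WD hgl hu w4
  refine ⟨by rwa [Measure.restrict_univ], _, _, ?_, ?_, hfin⟩
  · rw [Measure.restrict_univ]
    exact hg.re.const_mul 2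
  · rw [Measure.restrict_univ]
    exact hg.im.const_mul 2

end Pool.Agent.LibHelper41.Remov
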