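import Pool.Agent.Lib_helper41.Wirt

set_option autoImplicit false

namespace Pool.Agent.LibHelper41.Remov

open MeasureTheory Metric Set Filter Topology Complex
open scoped ContDiff

/-- `g` is the weak `∂/∂z̄`-derivative of `u` on `U` (tested against smooth functions with
compact support in `U`). -/
def WD (U : Set ℂ) (u g : ℂ → ℂ) : Prop :=
  ∀ φ : ℂ → ℂ, ContDiff ℝ ∞ φ → HasCompactSupport φ → tsupport φ ⊆ U →
    ∫ z, u z * dbar φ z = - ∫ z, g z * φ z

variable {U U₁ U₂ : Set ℂ} {u v g h : ℂ → ℂ}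

theorem WD.mono (hw : WD U₁ u g) (hU : U ⊆ U₁) : WD U u g :=
  fun φ h1 h2 h3 => hw φ h1 h2 (h3.trans hU)

theorem dbar_eq_zero_of_notMem {φ : ℂ → ℂ} {z : ℂ} (hz : z ∉ tsupport φ) : dbar φ z = 0 := by
  have h : φ =ᶠ[𝓝 z] fun _ => 0 := notMem_tsupport_iff_eventuallyEq.1 hz
  rw [dbar_congr h, dbar_const]

theorem dz_eq_zero_of_notMem {φ : ℂ → ℂ} {z : ℂ} (hz : z ∉ tsupport φ) : dz φ z = 0 := by
  have h : φ =ᶠ[𝓝 z] fun _ => 0 := notMem_tsupport_iff_eventuallyEq.1 hz
  rw [dz_congr h, dz_const]

theorem continuous_dbar {φ : ℂ → ℂ} (hφ : ContDiff ℝ 1 φ) : Continuous (dbar φ) := by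
  unfold dbar
  have h1 := continuous_fderiv_apply hφ 1
  have h2 := continuous_fderiv_apply hφ I
  fun_prop

theorem continuous_dz {φ : ℂ → ℂ} (hφ : ContDiff ℝ 1 φ) : Continuous (dz φ) := by
  unfold dz
  have h1 := continuous_fderiv_apply hφ 1
  have h2 := continuous_fderiv_apply hφ I
  fun_prop

theorem hasCompactSupport_dbar {φ : ℂ → ℂ} (hφ : HasCompactSupport φ) :
    HasCompactSupport (dbar φ) :=
  HasCompactSupport.intro hφ.isCompact fun _ hz => dbar_eq_zero_of_notMem hz

theorem hasCompactSupport_dz {φ : ℂ → ℂ} (hφ : HasCompactSupport φ) :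
    HasCompactSupport (dz φ) :=
  HasCompactSupport.intro hφ.isCompact fun _ hz => dz_eq_zero_of_notMem hz

theorem tsupport_dbar_subset {φ : ℂ → ℂ} : tsupport (dbar φ) ⊆ tsupport φ := by
  refine closure_minimal ?_ (isClosed_tsupport φ)
  intro z hz
  by_contra hcon
  exact hz (dbar_eq_zero_of_notMem hcon)

theorem contDiff_dbar_infty {φ : ℂ → ℂ} (h : ContDiff ℝ ∞ φ) : ContDiff ℝ ∞ (dbar φ) := by
  unfold dbar
  have h1 : ContDiff ℝ ∞ (fun z => fderiv ℝ φ z) := h.fderiv_right (by simp)
  fun_prop

theorem contDiff_dz_infty {φ : ℂ → ℂ} (h : ContDiff ℝ ∞ φ) : ContDiff ℝ ∞ (dz φ) := by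
  unfold dz
  have h1 : ContDiff ℝ ∞ (fun z => fderiv ℝ φ z) := h.fderiv_right (by simp)
  fun_prop

theorem integrable_mul_of_compactSupport {f φ : ℂ → ℂ} (hf : LocallyIntegrable f)
    (hφ : Continuous φ) (hc : HasCompactSupport φ) : Integrable (fun z => f z * φ z) := by
  have h := hf.integrable_smul_right_of_hasCompactSupport hφ hc
  simpa [mul_comm, smul_eq_mul] using h

/-- the integral of `∂̄` of a compactly supported `C¹` function is zero -/
theorem integral_dbar_eq_zero {F : ℂ → ℂ} (hF : ContDiff ℝ 1 F) (hc : HasCompactSupport F) :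
    ∫ z, dbar F z = 0 := by
  have key : ∀ v : ℂ, ∫ z, fderiv ℝ F z v = 0 := by
    intro v
    have h1 := integral_mul_fderiv_eq_neg_fderiv_mul_of_integrable (μ := (volume : Measure ℂ))
      (f := F) (g := fun _ : ℂ => (1 : ℂ)) (v := v)
      (by
        simp only [mul_one]
        exact (continuous_fderiv_apply hF v).integrable_of_hasCompactSupport
          (hasCompactSupport_fderiv_apply hc v))
      (by simp)
      (by
        simp only [mul_one]
        exact hF.continuous.integrable_of_hasCompactSupport hc)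
      (fun x _ => (hF.differentiable (by norm_num)).differentiableAt)
      (fun x _ => differentiableAt_const _)
    simp only [mul_one, fderiv_fun_const, Pi.zero_apply, zero_apply, mul_zero,
      integral_zero] at h1
    exact neg_eq_zero.1 h1.symm
  unfold dbar
  rw [integral_div, integral_add, integral_const_mul, key, key]
  · simp
  · exact (continuous_fderiv_apply hF 1).integrable_of_hasCompactSupport
          (hasCompactSupport_fderiv_apply hc 1)
  · exact ((continuous_fderiv_apply hF I).integrable_of_hasCompactSupport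
          (hasCompactSupport_fderiv_apply hc I)).const_mul _

/-- classical integration by parts -/
theorem integral_mul_dbar {F φ : ℂ → ℂ} (hF : ContDiff ℝ 1 F) (hφ : ContDiff ℝ 1 φ)
    (hc : HasCompactSupport φ) :
    ∫ z, F z * dbar φ z = - ∫ z, dbar F z * φ z := by
  have hc' : HasCompactSupport (fun z => F z * φ z) := hc.mul_left
  have h0 := integral_dbar_eq_zero (F := fun z => F z * φ z) (hF.mul hφ) hc'
  have h1 : ∀ z, dbar (fun z => F z * φ z) z = dbar F z * φ z + F z * dbar φ z := fun z =>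
    dbar_mul ((hF.differentiable (by norm_num)) z) ((hφ.differentiable (by norm_num)) z)
  simp_rw [h1] at h0
  rw [integral_add] at h0
  · exact eq_neg_of_add_eq_zero_right h0
  · exact ((continuous_dbar hF).mul hφ.continuous).integrable_of_hasCompactSupport hc.mul_left
  · exact (hF.continuous.mul (continuous_dbar hφ)).integrable_of_hasCompactSupport
      (hasCompactSupport_dbar hc).mul_left

theorem WD.of_contDiff (hu : ContDiff ℝ 1 u) : WD U u (dbar u) := fun φ h1 h2 _ =>
  integral_mul_dbar hu (h1.of_le (by exact_mod_cast le_top)) h2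

theorem WD.congr (hw : WD U u g) (hu : ∀ z ∈ U, u z = v z) (hg : ∀ᵐ z, z ∈ U → g z = h z) :
    WD U v h := by
  intro φ h1 h2 h3
  have e1 : ∫ z, v z * dbar φ z = ∫ z, u z * dbar φ z := by
    congr 1
    ext z
    by_cases hz : z ∈ tsupport φ
    · rw [hu z (h3 hz)]
    · rw [dbar_eq_zero_of_notMem hz]
      simp
  have e2 : ∫ z, h z * φ z = ∫ z, g z * φ z := by
    refine integral_congr_ae ?_
    filter_upwards [hg] with z hz
    by_cases hz' : z ∈ tsupport φ
    · rw [hz (h3 hz')]
    · rw [image_eq_zero_of_notMem_tsupport hz']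
      simp
  rw [e1, e2]
  exact hw φ h1 h2 h3

theorem WD.add (hw : WD U u g) (hw' : WD U v h) (hu : Continuous u) (hv : Continuous v)
    (hg : LocallyIntegrable g) (hh : LocallyIntegrable h) :
    WD U (fun z => u z + v z) (fun z => g z + h z) := by
  intro φ h1 h2 h3
  have h1' : ContDiff ℝ 1 φ := h1.of_le (by exact_mod_cast le_top)
  simp_rw [add_mul]
  rw [integral_add, integral_add, hw φ h1 h2 h3, hw' φ h1 h2 h3]
  · ring
  · exact integrable_mul_of_compactSupport hg h1.continuous h2
  · exact integrable_mul_of_compactSupport hh h1.continuous h2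
  · exact integrable_mul_of_compactSupport hu.locallyIntegrable (continuous_dbar h1')
      (hasCompactSupport_dbar h2)
  · exact integrable_mul_of_compactSupport hv.locallyIntegrable (continuous_dbar h1')
      (hasCompactSupport_dbar h2)

theorem WD.const_mul (hw : WD U u g) (c : ℂ) : WD U (fun z => c * u z) (fun z => c * g z) := by
  intro φ h1 h2 h3
  simp_rw [mul_assoc]
  rw [integral_const_mul, integral_const_mul, hw φ h1 h2 h3]
  ring

theorem WD.sub (hw : WD U u g) (hw' : WD U v h) (hu : Continuous u) (hv : Continuous v)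
    (hg : LocallyIntegrable g) (hh : LocallyIntegrable h) :
    WD U (fun z => u z - v z) (fun z => g z - h z) := by
  have h2 := hw.add (hw'.const_mul (-1)) hu (hv.const_smul (-1 : ℂ)) hg (hh.smul (-1 : ℂ))
  refine h2.congr (fun z _ => by ring) (Eventually.of_forall fun z _ => by ring)

/-- product rule with a smooth function -/
theorem WD.mul_smooth {χ : ℂ → ℂ} (hw : WD U u g) (hχ : ContDiff ℝ ∞ χ) (hu : Continuous u)
    (hg : LocallyIntegrable g) :
    WD U (fun z => χ z * u z) (fun z => χ z * g z + u z * dbar χ z) := by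
  intro φ h1 h2 h3
  have h1' : ContDiff ℝ 1 φ := h1.of_le (by exact_mod_cast le_top)
  have hχ' : ContDiff ℝ 1 χ := hχ.of_le (by exact_mod_cast le_top)
  have hc : HasCompactSupport (fun z => χ z * φ z) := h2.mul_left
  have hs : tsupport (fun z => χ z * φ z) ⊆ U := (tsupport_mul_subset_right).trans h3
  have h0 := hw (fun z => χ z * φ z) (hχ.mul h1) hc hs
  have h4 : ∀ z, dbar (fun z => χ z * φ z) z = dbar χ z * φ z + χ z * dbar φ z := fun z =>
    dbar_mul ((hχ'.differentiable (by norm_num)) z) ((h1'.differentiable (by norm_num)) z)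
  simp_rw [h4] at h0
  have i1 : Integrable (fun z => u z * (dbar χ z * φ z)) :=
    integrable_mul_of_compactSupport hu.locallyIntegrable
      ((continuous_dbar hχ').mul h1.continuous) h2.mul_left
  have i2 : Integrable (fun z => u z * (χ z * dbar φ z)) :=
    integrable_mul_of_compactSupport hu.locallyIntegrable
      (hχ.continuous.mul (continuous_dbar h1')) (hasCompactSupport_dbar h2).mul_left
  have i3 : Integrable (fun z => g z * (χ z * φ z)) :=
    integrable_mul_of_compactSupport hg (hχ.continuous.mul h1.continuous) h2.mul_left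
  have e1 : ∫ z, u z * (dbar χ z * φ z + χ z * dbar φ z) =
      (∫ z, u z * (dbar χ z * φ z)) + ∫ z, u z * (χ z * dbar φ z) := by
    rw [← integral_add i1 i2]
    congr 1
    ext z
    ring
  rw [e1] at h0
  have e2 : ∫ z, (χ z * g z + u z * dbar χ z) * φ z =
      (∫ z, g z * (χ z * φ z)) + ∫ z, u z * (dbar χ z * φ z) := by
    rw [← integral_add i3 i1]
    congr 1
    ext z
    ring
  rw [e2]
  have e3 : ∫ z, χ z * u z * dbar φ z = ∫ z, u z * (χ z * dbar φ z) := by
    congr 1
    ext z
    ring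
  rw [e3]
  linear_combination h0

theorem exists_smooth_cutoff {K V : Set ℂ} (hK : IsCompact K) (hV : IsOpen V) (hKV : K ⊆ V) :
    ∃ χ : ℂ → ℝ, ContDiff ℝ ∞ χ ∧ HasCompactSupport χ ∧ tsupport χ ⊆ V ∧
      (∀ z, χ z ∈ Icc (0 : ℝ) 1) ∧ ∃ W, IsOpen W ∧ K ⊆ W ∧ W ⊆ V ∧ ∀ z ∈ W, χ z = 1 := by
  obtain ⟨K₁, hK₁, hKK₁, hK₁V⟩ := exists_compact_between hK hV hKV
  obtain ⟨K₂, hK₂, hKK₂, hK₂V⟩ := exists_compact_between hK₁ hV hK₁V
  obtain ⟨f, hf, hr, hf0, hf1⟩ := exists_contMDiff_zero_iff_one_iff_of_isClosed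
    (modelWithCornersSelf ℝ ℂ) (n := ⊤) (s := (interior K₂)ᶜ) (t := K₁)
    isOpen_interior.isClosed_compl hK₁.isClosed
    (by
      rw [disjoint_compl_left_iff_subset]
      exact hKK₂)
  have hts : tsupport f ⊆ K₂ := by
    refine closure_minimal ?_ hK₂.isClosed
    intro z hz
    by_contra hcon
    exact hz ((hf0 z).1 fun h => hcon (interior_subset h))
  refine ⟨f, contMDiff_iff_contDiff.1 hf, hK₂.of_isClosed_subset (isClosed_tsupport f) hts,
    hts.trans hK₂V, fun z => hr (mem_range_self z), interior K₁, isOpen_interior, hKK₁,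
    interior_subset.trans hK₁V, fun z hz => (hf1 z).1 (interior_subset hz)⟩

theorem integral_u_dbar_integrable {φ : ℂ → ℂ} (hu : Continuous u) (h1 : ContDiff ℝ ∞ φ)
    (h2 : HasCompactSupport φ) : Integrable (fun z => u z * dbar φ z) :=
  integrable_mul_of_compactSupport hu.locallyIntegrable
    (continuous_dbar (h1.of_le (by exact_mod_cast le_top))) (hasCompactSupport_dbar h2)

theorem WD.union (hw₁ : WD U₁ u g) (hw₂ : WD U₂ u g) (hU₁ : IsOpen U₁) (hU₂ : IsOpen U₂)
    (hu : Continuous u) (hg : LocallyIntegrable g) : WD (U₁ ∪ U₂) u g := by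
  intro φ h1 h2 h3
  have hK : IsCompact (tsupport φ \ U₂) := h2.isCompact.diff hU₂
  have hKU : tsupport φ \ U₂ ⊆ U₁ := by
    rintro z ⟨hz1, hz2⟩
    rcases h3 hz1 with h | h
    · exact h
    · exact absurd h hz2
  obtain ⟨χ, hχ, hχc, hχU, hχr, W, hW, hKW, hWU, hχ1⟩ := exists_smooth_cutoff hK hU₁ hKU
  have hχ' : ContDiff ℝ ∞ (fun z => (χ z : ℂ)) := ofRealCLM.contDiff.comp hχ
  set a : ℂ → ℂ := fun z => (χ z : ℂ) * φ z with ha
  set b : ℂ → ℂ := fun z => (1 - (χ z : ℂ)) * φ z with hb
  have ha1 : ContDiff ℝ ∞ a := hχ'.mul h1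
  have hb1 : ContDiff ℝ ∞ b := (contDiff_const.sub hχ').mul h1
  have ha2 : HasCompactSupport a := h2.mul_left
  have hb2 : HasCompactSupport b := h2.mul_left
  have ha3 : tsupport a ⊆ U₁ := by
    have : tsupport a ⊆ tsupport (fun z => (χ z : ℂ)) := tsupport_mul_subset_left
    refine this.trans (le_trans ?_ hχU)
    refine closure_minimal ?_ (isClosed_tsupport χ)
    intro z hz
    refine subset_tsupport χ ?_
    intro hcon
    exact hz (by simp [hcon])
  have hb3 : tsupport b ⊆ U₂ := by
    intro z hz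
    have hz1 : z ∈ tsupport φ := tsupport_mul_subset_right hz
    by_contra hcon
    have hzW : z ∈ W := hKW ⟨hz1, hcon⟩
    have hev : b =ᶠ[𝓝 z] fun _ => 0 := by
      filter_upwards [hW.mem_nhds hzW] with x hx
      simp [hb, hχ1 x hx]
    exact (notMem_tsupport_iff_eventuallyEq.2 hev) hz
  have hsum : ∀ z, φ z = a z + b z := fun z => by simp only [ha, hb]; ring
  have hd : ∀ z, dbar φ z = dbar a z + dbar b z := fun z => by
    rw [show φ = fun z => a z + b z from funext hsum]
    exact dbar_add ((ha1.differentiable (by simp)) z) ((hb1.differentiable (by simp)) z)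
  have e1 := hw₁ a ha1 ha2 ha3
  have e2 := hw₂ b hb1 hb2 hb3
  have i1 := integrable_mul_of_compactSupport hg ha1.continuous ha2
  have i2 := integrable_mul_of_compactSupport hg hb1.continuous hb2
  calc ∫ z, u z * dbar φ z = ∫ z, (u z * dbar a z + u z * dbar b z) := by
        congr 1; ext z; rw [hd]; ring
    _ = - ((∫ z, g z * a z) + ∫ z, g z * b z) := by
        rw [integral_add (integral_u_dbar_integrable hu ha1 ha2)
          (integral_u_dbar_integrable hu hb1 hb2), e1, e2]
        ring
    _ = - ∫ z, g z * φ z := by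
        rw [← integral_add i1 i2]
        congr 2; ext z; rw [hsum z]; ring

theorem locallyIntegrable_of_memLp_two (hg : MemLp g 2 volume) : LocallyIntegrable g :=
  hg.locallyIntegrable (by norm_num)

/-- limits: uniform convergence of the functions and `L²` convergence of the derivatives -/
theorem WD_limit {φ : ℂ → ℂ} (h1 : ContDiff ℝ ∞ φ) (h2 : HasCompactSupport φ)
    {un gn : ℕ → ℂ → ℂ} (hun : ∀ n, Continuous (un n)) (hu : Continuous u)
    (hgn : ∀ n, MemLp (gn n) 2 volume) (hg : MemLp g 2 volume)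
    (hconv : TendstoUniformly un u atTop)
    (hgconv : Tendsto (fun n => eLpNorm (gn n - g) 2 volume) atTop (𝓝 0))
    (heq : ∀ᶠ n in atTop, ∫ z, un n z * dbar φ z = - ∫ z, gn n z * φ z) :
    ∫ z, u z * dbar φ z = - ∫ z, g z * φ z := by
  have hφ2 : MemLp φ 2 volume := h1.continuous.memLp_of_hasCompactSupport h2
  have t1 : Tendsto (fun n => ∫ z, un n z * dbar φ z) atTop (𝓝 (∫ z, u z * dbar φ z)) := by
    have hdi : Integrable (dbar φ) := (continuous_dbar (h1.of_le (by exact_mod_cast le_top))).integrable_of_hasCompactSupport (hasCompactSupport_dbar h2)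
    rw [Metric.tendsto_atTop]
    intro ε hε
    set C : ℝ := ∫ z, ‖dbar φ z‖ with hC
    have hC0 : 0 ≤ C := integral_nonneg fun _ => norm_nonneg _
    have hδ : 0 < ε / (C + 1) := by positivity
    obtain ⟨N, hN⟩ := eventually_atTop.1 (Metric.tendstoUniformly_iff.1 hconv _ hδ)
    refine ⟨N, fun n hn => ?_⟩
    rw [dist_eq_norm, ← integral_sub (integral_u_dbar_integrable (hun n) h1 h2)
      (integral_u_dbar_integrable hu h1 h2)]
    have hb : ∀ z, ‖un n z * dbar φ z - u z * dbar φ z‖ ≤ ε / (C + 1) * ‖dbar φ z‖ := by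
      intro z
      rw [← sub_mul, norm_mul]
      have := (hN n hn z).le
      rw [dist_comm, dist_eq_norm] at this
      gcongr
    calc _ ≤ ∫ z, ε / (C + 1) * ‖dbar φ z‖ :=
          norm_integral_le_of_norm_le (hdi.norm.const_mul _) (Eventually.of_forall hb)
      _ = ε / (C + 1) * C := by rw [integral_const_mul]
      _ < ε := by
          rw [div_mul_eq_mul_div, div_lt_iff₀ (by positivity)]
          nlinarith
  have t2 : Tendsto (fun n => ∫ z, gn n z * φ z) atTop (𝓝 (∫ z, g z * φ z)) := by
    have hle : ∀ n, ‖(∫ z, gn n z * φ z) - ∫ z, g z * φ z‖ₑ ≤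
        eLpNorm (gn n - g) 2 volume * eLpNorm φ 2 volume := by
      intro n
      have i1 : Integrable (fun z => gn n z * φ z) := by
        exact integrable_mul_of_compactSupport (locallyIntegrable_of_memLp_two (hgn n))
          h1.continuous h2
      have i2 : Integrable (fun z => g z * φ z) := by
        exact integrable_mul_of_compactSupport (locallyIntegrable_of_memLp_two hg)
          h1.continuous h2
      rw [← integral_sub i1 i2]
      have e : (fun z => gn n z * φ z - g z * φ z) = (gn n - g) • φ := by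
        ext z
        simp [sub_mul]
      rw [e]
      calc _ ≤ ∫⁻ z, ‖((gn n - g) • φ) z‖ₑ := enorm_integral_le_lintegral_enorm _
        _ = eLpNorm ((gn n - g) • φ) 1 volume := by rw [eLpNorm_one_eq_lintegral_enorm]
        _ ≤ _ := eLpNorm_smul_le_mul_eLpNorm hφ2.1 ((hgn n).sub hg).1
    rw [tendsto_iff_edist_tendsto_0]
    have hz : Tendsto (fun n => eLpNorm (gn n - g) 2 volume * eLpNorm φ 2 volume) atTop (𝓝 0) := by
      have := ENNReal.Tendsto.mul_const (b := eLpNorm φ 2 volume) hgconv (Or.inr hφ2.2.ne)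
      simpa using this
    refine tendsto_of_tendsto_of_tendsto_of_le_of_le tendsto_const_nhds hz (fun _ => zero_le) ?_
    intro n
    simp only [edist_eq_enorm_sub]
    exact hle n
  have t3 := t1.congr' (heq.mono fun n hn => hn)
  exact tendsto_nhds_unique t3 t2.neg

/-- uniqueness of the weak derivative -/
theorem WD.unique (hU : IsOpen U) (hw : WD U u g) (hw' : WD U u h) (hg : LocallyIntegrable g)
    (hh : LocallyIntegrable h) : ∀ᵐ z, z ∈ U → g z = h z := by
  have key := IsOpen.ae_eq_zero_of_integral_contDiff_smul_eq_zero (μ := (volume : Measure ℂ)) hU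
    (f := fun z => g z - h z) ((hg.sub hh).locallyIntegrableOn U) ?_
  · filter_upwards [key] with z hz hzU
    exact sub_eq_zero.1 (hz hzU)
  intro φ h1 h2 h3
  have h1' : ContDiff ℝ ∞ (fun z => (φ z : ℂ)) := ofRealCLM.contDiff.comp h1
  have h2' : HasCompactSupport (fun z => (φ z : ℂ)) := h2.comp_left (g := fun t : ℝ => (t : ℂ)) (by simp)
  have h3' : tsupport (fun z => (φ z : ℂ)) ⊆ U := by
    refine le_trans ?_ h3
    refine closure_minimal ?_ (isClosed_tsupport φ)
    intro z hz
    refine subset_tsupport φ ?_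
    intro hcon
    exact hz (by simp [hcon])
  have e1 := hw _ h1' h2' h3'
  have e2 := hw' _ h1' h2' h3'
  have i1 := integrable_mul_of_compactSupport hg h1'.continuous h2'
  have i2 := integrable_mul_of_compactSupport hh h1'.continuous h2'
  have e3 : ∫ z, φ z • (g z - h z) = (∫ z, g z * (φ z : ℂ)) - ∫ z, h z * (φ z : ℂ) := by
    rw [← integral_sub i1 i2]
    congr 1
    ext z
    rw [real_smul]
    ring
  rw [e3]
  rw [e1] at e2
  exact sub_eq_zero.2 (neg_injective e2)

end Pool.Agent.LibHelper41.Remov
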