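import Pool.Agent.Lib_helper41.Remov.Calib

set_option autoImplicit false

namespace Pool.Agent.LibHelper41.Remov

open MeasureTheory Metric Set Filter Topology Complex
open scoped ContDiff ComplexConjugate Convolution

theorem CM_eq_conv' (n : ℕ) (u : ℂ → ℂ) (z : ℂ) :
    CM n u z = (rho n ⋆[ContinuousLinearMap.lsmul ℝ ℝ, volume] u) z := by
  rw [convolution_lsmul_swap]
  unfold CM
  congr 1
  ext t
  rw [real_smul, mul_comm]

theorem CM_tendsto {u : ℂ → ℂ} (hu : Continuous u) (z : ℂ) :
    Tendsto (Function.uncurry fun n : ℕ => CM n u) (atTop ×ˢ 𝓝 z) (𝓝 (u z)) := by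
  have h := ContDiffBump.convolution_tendsto_right (μ := (volume : Measure ℂ))
    (φ := fun p : ℕ × ℂ => bb p.1) (g := fun _ => u) (k := fun p : ℕ × ℂ => p.2) (x₀ := z)
    (z₀ := u z) (l := (atTop : Filter ℕ) ×ˢ 𝓝 z) (rho_out_tendsto.comp tendsto_fst)
    (Eventually.of_forall fun _ => hu.aestronglyMeasurable)
    ((hu.tendsto z).comp tendsto_snd) tendsto_snd
  refine h.congr ?_
  rintro ⟨n, x⟩
  exact (CM_eq_conv' n u x).symm

theorem CM_locallyUniformly {u : ℂ → ℂ} (hu : Continuous u) :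
    TendstoLocallyUniformly (fun n => CM n u) u atTop := by
  rw [tendstoLocallyUniformly_iff_forall_tendsto]
  intro x
  have h1 := CM_tendsto hu x
  have h2 : Tendsto (fun y : ℕ × ℂ => u y.2) (atTop ×ˢ 𝓝 x) (𝓝 (u x)) :=
    (hu.tendsto x).comp tendsto_snd
  have h3 : Tendsto (fun y : ℕ × ℂ => (u y.2, CM y.1 u y.2)) (atTop ×ˢ 𝓝 x)
      (𝓝 (u x) ×ˢ 𝓝 (u x)) := h2.prodMk h1
  exact h3.mono_right (nhds_prod_eq.symm.le.trans (nhds_le_uniformity (u x)))

/-- Weyl's lemma -/
theorem WD.differentiableOn {u g : ℂ → ℂ} {U : Set ℂ} (hu : Continuous u) (hU : IsOpen U)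
    (hw : WD U u g) (hg : ∀ᵐ z, z ∈ U → g z = 0) : DifferentiableOn ℂ u U := by
  have hw0 : WD U u (fun _ => 0) := hw.congr (fun _ _ => rfl) hg
  intro z hz
  obtain ⟨r, hr, hrU⟩ := Metric.isOpen_iff.1 hU z hz
  have hball : DifferentiableOn ℂ u (ball z (r / 2)) := by
    refine TendstoLocallyUniformlyOn.differentiableOn (φ := atTop) (F := fun n => CM n u)
      (CM_locallyUniformly hu).tendstoLocallyUniformlyOn ?_ isOpen_ball
    have h0 : Tendsto (fun n : ℕ => 1 / ((n : ℝ) + 1)) atTop (𝓝 0) :=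
      tendsto_one_div_add_atTop_nhds_zero_nat
    filter_upwards [h0.eventually (gt_mem_nhds (half_pos hr))] with n hn x hx
    have hsub : closedBall x (1 / ((n : ℝ) + 1)) ⊆ U := by
      refine Subset.trans ?_ hrU
      intro y hy
      rw [mem_ball] at hx ⊢
      rw [mem_closedBall] at hy
      have := dist_triangle y x z
      linarith
    have h1 := dbar_CM_of_WD hw0 hu.locallyIntegrable n hsub
    have h2 : CM n (fun _ => 0) x = 0 := by
      unfold CM
      simp
    rw [h2] at h1
    exact (complex_of_dbar (((CM_contDiff n hu.locallyIntegrable).differentiable (by simp)) x)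
      h1).differentiableWithinAt
  exact ((hball.differentiableAt (isOpen_ball.mem_nhds (mem_ball_self (half_pos hr))))).differentiableWithinAt

/-- weak derivative of a function which is smooth on an open set -/
theorem WD.of_contDiffOn {U : Set ℂ} {u : ℂ → ℂ} (hU : IsOpen U) (hu : ContDiffOn ℝ 1 u U) :
    WD U u (dbar u) := by
  intro φ h1 h2 h3
  obtain ⟨χ, hχ, hχc, hχU, -, W, hW, hKW, hWU, hχ1⟩ := exists_smooth_cutoff h2.isCompact hU h3
  have hχ' : ContDiff ℝ 1 (fun z => (χ z : ℂ)) :=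
    (ofRealCLM.contDiff.comp hχ).of_le (by exact_mod_cast le_top)
  have hF : ContDiff ℝ 1 (fun z => (χ z : ℂ) * u z) := by
    rw [contDiff_iff_contDiffAt]
    intro z
    by_cases hz : z ∈ tsupport χ
    · exact hχ'.contDiffAt.mul (hu.contDiffAt (hU.mem_nhds (hχU hz)))
    · have : (fun z => (χ z : ℂ) * u z) =ᶠ[𝓝 z] fun _ => 0 := by
        have h4 : χ =ᶠ[𝓝 z] fun _ => 0 := notMem_tsupport_iff_eventuallyEq.1 hz
        filter_upwards [h4] with x hx
        rw [hx]
        simp
      exact contDiffAt_const.congr_of_eventuallyEq this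
  have key := integral_mul_dbar hF (h1.of_le (by exact_mod_cast le_top)) h2
  have e1 : ∫ z, u z * dbar φ z = ∫ z, (χ z : ℂ) * u z * dbar φ z := by
    congr 1
    ext z
    by_cases hz : z ∈ tsupport φ
    · rw [hχ1 z (hKW hz)]
      simp
    · rw [dbar_eq_zero_of_notMem hz]
      simp
  have e2 : ∫ z, dbar u z * φ z = ∫ z, dbar (fun z => (χ z : ℂ) * u z) z * φ z := by
    congr 1
    ext z
    by_cases hz : z ∈ tsupport φ
    · congr 1
      refine dbar_congr ?_
      filter_upwards [hW.mem_nhds (hKW hz)] with x hx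
      rw [hχ1 x hx]
      simp
    · rw [image_eq_zero_of_notMem_tsupport hz]
      simp
  rw [e1, e2, key]

theorem measurable_dbar (f : ℂ → ℂ) : Measurable (dbar f) := by
  unfold dbar
  have h1 := measurable_fderiv_apply_const ℝ f (1 : ℂ)
  have h2 := measurable_fderiv_apply_const ℝ f I
  exact (h1.add (h2.const_mul I)).div_const 2

/-- the Dirichlet integral of an injective holomorphic map is an area -/
theorem lintegral_deriv_sq {f : ℂ → ℂ} {U S : Set ℂ} (hU : IsOpen U) (hf : DifferentiableOn ℂ f U)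
    (hinj : InjOn f S) (hS : MeasurableSet S) (hSU : S ⊆ U) :
    ∫⁻ z in S, ENNReal.ofReal (‖deriv f z‖ ^ 2) = volume (f '' S) := by
  have h1 : ∀ z ∈ S, HasFDerivWithinAt f (fderiv ℝ f z) S z := by
    intro z hz
    exact ((hf.differentiableAt (hU.mem_nhds (hSU hz))).restrictScalars
      ℝ).hasFDerivAt.hasFDerivWithinAt
  rw [← lintegral_abs_det_fderiv_eq_addHaar_image volume hS h1 hinj]
  refine setLIntegral_congr_fun hS fun z hz => ?_
  have h2 : (fderiv ℝ f z).det = normSq (deriv f z) := by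
    rw [det_real_linear _ (deriv f z) 0 (fun h => by
      rw [fderiv_real_of_complex (hf.differentiableAt (hU.mem_nhds (hSU hz)))]
      ring)]
    simp
  simp only [h2]
  rw [abs_of_nonneg (normSq_nonneg _), normSq_eq_norm_sq]

end Pool.Agent.LibHelper41.Remov
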